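import Mathlib

namespace Pool.Agent.Q21.SG

/-- The last term of the derived series which is not inside `Z`. -/
theorem exists_normal_abelian_mod {G : Type*} [Group G] (Z K : Subgroup G) (hs : Group.IsSolvable K)
    (hK : ¬ K ≤ Z) :
    ∃ A : Subgroup G, A ≤ K ∧ (∀ k ∈ K, ∀ a ∈ A, k * a * k⁻¹ ∈ A) ∧ ¬ A ≤ Z ∧
      ∀ a ∈ A, ∀ b ∈ A, a * b * a⁻¹ * b⁻¹ ∈ Z := by
  classical
  obtain ⟨N, hN⟩ := hs.solvable
  let D : ℕ → Subgroup G := fun n => (derivedSeries K n).map K.subtype
  have hex : ∃ n, D n ≤ Z := ⟨N, by simp [D, hN]⟩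
  have h0 : ¬ D 0 ≤ Z := by
    have : D 0 = K := by
      change (⊤ : Subgroup K).map K.subtype = K
      rw [← MonoidHom.range_eq_map, Subgroup.range_subtype]
    rwa [this]
  obtain ⟨m, hm⟩ : ∃ m, Nat.find hex = m + 1 := by
    rcases h : Nat.find hex with _ | m
    · exact absurd (h ▸ Nat.find_spec hex) h0
    · exact ⟨m, rfl⟩
  have hm1 : D (m + 1) ≤ Z := hm ▸ Nat.find_spec hex
  have hm2 : ¬ D m ≤ Z := Nat.find_min hex (by omega)
  refine ⟨D m, ?_, ?_, hm2, ?_⟩
  · rintro _ ⟨x, _, rfl⟩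
    exact x.2
  · rintro k hk _ ⟨x, hx, rfl⟩
    refine ⟨⟨k, hk⟩ * x * ⟨k, hk⟩⁻¹, ?_, rfl⟩
    exact (inferInstance : (derivedSeries K m).Normal).conj_mem x hx _
  · rintro _ ⟨x, hx, rfl⟩ _ ⟨y, hy, rfl⟩
    apply hm1
    refine ⟨x * y * x⁻¹ * y⁻¹, ?_, rfl⟩
    change _ ∈ derivedSeries K (m + 1)
    rw [derivedSeries_succ]
    exact Subgroup.commutator_mem_commutator hx hy

/-- A permutation preserving a set with at most `n` elements: its `n!`-th power fixes that set
pointwise. -/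
theorem perm_pow_factorial {X : Type*} (c : Equiv.Perm X) (S : Set X) (hS : S.Finite) (n : ℕ)
    (hn : S.ncard ≤ n) (hc : ∀ x ∈ S, c x ∈ S) : ∀ x ∈ S, (c ^ n.factorial) x = x := by
  classical
  intro x hx
  have hmem : ∀ k : ℕ, (c ^ k) x ∈ S := by
    intro k
    induction k with
    | zero => simpa using hx
    | succ k ih => rw [pow_succ', Equiv.Perm.mul_apply]; exact hc _ ih
  have : ∃ a ∈ Finset.range (n + 1), ∃ b ∈ Finset.range (n + 1), a ≠ b ∧ (c ^ a) x = (c ^ b) x := by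
    apply Finset.exists_ne_map_eq_of_card_lt_of_maps_to (t := hS.toFinset)
    · rw [← Set.ncard_eq_toFinset_card S hS]; simp; omega
    · intro k _
      simpa using hmem k
  obtain ⟨a, ha, b, hb, hab, he⟩ := this
  have key : ∀ a b : ℕ, a < b → b ≤ n → (c ^ a) x = (c ^ b) x → (c ^ n.factorial) x = x := by
    intro a b hab hb he
    have h1 : (c ^ (b - a)) x = x := by
      have : (c ^ b) x = (c ^ a) ((c ^ (b - a)) x) := by
        rw [← Equiv.Perm.mul_apply, ← pow_add]; congr 2; omega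
      rw [this] at he
      exact ((c ^ a).injective he).symm
    have h2 : (b - a) ∣ n.factorial := Nat.dvd_factorial (by omega) (by omega)
    obtain ⟨k, hk⟩ := h2
    rw [hk, pow_mul]
    clear hk
    induction k with
    | zero => simp
    | succ k ih => rw [pow_succ, Equiv.Perm.mul_apply, h1, ih]
  simp only [Finset.mem_range] at ha hb
  rcases lt_or_gt_of_ne hab with h | h
  · exact key a b h (by omega) he
  · exact key b a h (by omega) he.symm

end Pool.Agent.Q21.SG
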