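import Pool.Agent.Q21.SG.A

namespace Pool.Agent.Q21.SG

section Blocks

variable {F V R : Type*} [Field F] [AddCommGroup V] [Module F V] [CommRing R] [Module R V]
  [SMulCommClass R F V]

variable (F V) in
/-- The vectors killed by the ideal `P`. -/
def blk (P : Ideal R) : Submodule F V where
  carrier := {v | ∀ r ∈ P, r • v = 0}
  add_mem' := by
    intro a b ha hb r hr
    rw [smul_add, ha r hr, hb r hr, add_zero]
  zero_mem' := by intro r _; exact smul_zero r
  smul_mem' := by
    intro c v hv r hr
    rw [smul_comm, hv r hr, smul_zero]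

theorem mem_blk {P : Ideal R} {v : V} : v ∈ blk F V P ↔ ∀ r ∈ P, r • v = 0 := Iff.rfl

theorem blk_indep [Finite R] :
    iSupIndep (fun P : MaximalSpectrum R => blk F V P.asIdeal) := by
  classical
  intro P
  have hf : Finite (MaximalSpectrum R) := by
    have : Finite (Ideal R) := inferInstance
    exact Finite.of_injective (fun P : MaximalSpectrum R => P.asIdeal)
      (fun P Q h => MaximalSpectrum.ext h)
  have := Fintype.ofFinite (MaximalSpectrum R)
  have h1 : P.asIdeal ⊔ ⨅ Q ∈ (Finset.univ.erase P : Finset (MaximalSpectrum R)), Q.asIdeal = ⊤ := by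
    apply Ideal.sup_iInf_eq_top
    intro Q hQ
    refine Ideal.IsMaximal.coprime_of_ne P.isMaximal Q.isMaximal ?_
    intro h
    exact (Finset.mem_erase.1 hQ).1 (MaximalSpectrum.ext h).symm
  have h2 : (1 : R) ∈ P.asIdeal ⊔ ⨅ Q ∈ (Finset.univ.erase P : Finset (MaximalSpectrum R)),
      Q.asIdeal := by rw [h1]; trivial
  obtain ⟨a, ha, e, he, hae⟩ := Submodule.mem_sup.1 h2
  rw [Submodule.disjoint_def]
  intro v hv hv2
  have h3 : e • v = v := by
    have : (a + e) • v = v := by rw [hae, one_smul]
    rwa [add_smul, hv a ha, zero_add] at this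
  have h4 : (⨆ Q, ⨆ (_ : Q ≠ P), blk F V Q.asIdeal) ≤
      LinearMap.ker (DistribSMul.toLinearMap F V e) := by
    refine iSup_le fun Q => iSup_le fun hQ => ?_
    intro w hw
    rw [LinearMap.mem_ker]
    refine hw e ?_
    have : e ∈ ⨅ Q ∈ (Finset.univ.erase P : Finset (MaximalSpectrum R)), Q.asIdeal := he
    rw [Submodule.mem_iInf] at this
    have := this Q
    rw [Submodule.mem_iInf] at this
    exact this (Finset.mem_erase.2 ⟨hQ, Finset.mem_univ _⟩)
  have h5 := h4 hv2
  rw [LinearMap.mem_ker] at h5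
  change e • v = 0 at h5
  rw [← h3, h5]

theorem exists_blk_ne_bot [Finite R] [Nontrivial V] :
    ∃ P : MaximalSpectrum R, blk F V P.asIdeal ≠ ⊥ := by
  let Ann : V → Ideal R := fun v =>
    { carrier := {r | r • v = 0}
      add_mem' := by
        intro a b ha hb
        change (a + b) • v = 0
        rw [add_smul, ha, hb, add_zero]
      zero_mem' := zero_smul R v
      smul_mem' := by
        intro c r hr
        change (c • r) • v = 0
        rw [smul_eq_mul, mul_smul, hr, smul_zero] }
  have hfin : (Ann '' {v : V | v ≠ 0}).Finite := Set.toFinite _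
  obtain ⟨v0, hv0⟩ := exists_ne (0 : V)
  obtain ⟨I, hI⟩ := hfin.exists_maximal ⟨_, v0, hv0, rfl⟩
  obtain ⟨v, hv, rfl⟩ := hI.1
  have hprime : (Ann v).IsPrime := by
    constructor
    · intro h
      have : (1 : R) ∈ Ann v := by rw [h]; trivial
      change (1 : R) • v = 0 at this
      rw [one_smul] at this
      exact hv this
    · intro a b hab
      by_cases hb : b ∈ Ann v
      · exact Or.inr hb
      · left
        have hb' : b • v ≠ 0 := hb
        have hle : Ann v ≤ Ann (b • v) := by
          intro r hr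
          change r • b • v = 0
          rw [smul_comm, show r • v = 0 from hr, smul_zero]
        have := hI.2 ⟨_, hb', rfl⟩ hle
        apply this
        change a • b • v = 0
        rw [← mul_smul]
        exact hab
  refine ⟨⟨Ann v, IsArtinianRing.isMaximal_of_isPrime _⟩, ?_⟩
  rw [Submodule.ne_bot_iff]
  exact ⟨v, fun r hr => hr, hv⟩

theorem blk_inj {P : Ideal R} (hP : P.IsMaximal) {r : R} (hr : r ∉ P) {v : V}
    (hv : v ∈ blk F V P) (h0 : r • v = 0) : v = 0 := by
  obtain ⟨s, hs⟩ : ∃ s, 1 - s * r ∈ P := by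
    have := Ideal.Quotient.maximal_ideal_iff_isField_quotient P |>.1 hP
    have hne : Ideal.Quotient.mk P r ≠ 0 := by
      rwa [Ne, Ideal.Quotient.eq_zero_iff_mem]
    obtain ⟨t, ht⟩ := this.mul_inv_cancel hne
    obtain ⟨s, rfl⟩ := Ideal.Quotient.mk_surjective t
    refine ⟨s, ?_⟩
    rw [← Ideal.Quotient.eq_zero_iff_mem, map_sub, map_one, mul_comm, map_mul, ht, sub_self]
  have := hv _ hs
  rwa [sub_smul, one_smul, mul_smul, h0, smul_zero, sub_zero] at this

theorem map_blk (k : V ≃ₗ[F] V) (c : R ≃+* R) (hk : ∀ (r : R) (v : V), k (r • v) = c r • k v)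
    (P : Ideal R) : (blk F V P).map (k : V →ₗ[F] V) = blk F V (P.map c) := by
  ext v
  rw [Submodule.mem_map]
  constructor
  · rintro ⟨w, hw, rfl⟩
    intro r hr
    rw [Ideal.mem_map_of_equiv] at hr
    obtain ⟨s, hs, rfl⟩ := hr
    change c s • k w = 0
    rw [← hk, hw s hs, map_zero]
  · intro hv
    refine ⟨k.symm v, ?_, by simp⟩
    intro r hr
    apply k.injective
    rw [hk, map_zero]
    simp only [LinearEquiv.apply_symm_apply]
    exact hv _ (Ideal.mem_map_of_mem _ hr)

end Blocks

end Pool.Agent.Q21.SG
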