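import Pool.Agent.Q21.SG.B

namespace Pool.Agent.Q21.SG

section Norm

variable {F V : Type*} [Field F] [AddCommGroup V] [Module F V]

/-- conjugation on endomorphisms -/
def conjP : (Module.End F V)ˣ →* Equiv.Perm (Module.End F V) where
  toFun u :=
    { toFun := fun r => u * r * (u⁻¹ : (Module.End F V)ˣ)
      invFun := fun r => (u⁻¹ : (Module.End F V)ˣ) * r * u
      left_inv := fun r => by
        simp only [mul_assoc, Units.inv_mul, mul_one, Units.inv_mul_cancel_left]
      right_inv := fun r => by
        simp only [mul_assoc, Units.mul_inv, mul_one, Units.mul_inv_cancel_left] }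
  map_one' := by ext r : 1; simp
  map_mul' := by
    intro a b
    ext r : 1
    simp [mul_assoc]

theorem conjP_apply (u : (Module.End F V)ˣ) (r : Module.End F V) :
    conjP u r = u * r * (u⁻¹ : (Module.End F V)ˣ) := rfl

/-- the action on subspaces -/
def mapP : (Module.End F V)ˣ →* Equiv.Perm (Submodule F V) where
  toFun u :=
    { toFun := fun U => U.map (u : Module.End F V)
      invFun := fun U => U.map ((u⁻¹ : (Module.End F V)ˣ) : Module.End F V)
      left_inv := fun U => by
        refine (Submodule.map_comp _ _ _).symm.trans ?_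
        change U.map (((u⁻¹ : (Module.End F V)ˣ) : Module.End F V) * (u : Module.End F V)) = U
        rw [Units.inv_mul]; exact Submodule.map_id U
      right_inv := fun U => by
        refine (Submodule.map_comp _ _ _).symm.trans ?_
        change U.map ((u : Module.End F V) * ((u⁻¹ : (Module.End F V)ˣ) : Module.End F V)) = U
        rw [Units.mul_inv]; exact Submodule.map_id U }
  map_one' := by ext U : 1; exact Submodule.map_id U
  map_mul' := by
    intro a b
    ext U : 1
    change U.map ((a * b : (Module.End F V)ˣ) : Module.End F V) = _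
    rw [Units.val_mul]
    exact Submodule.map_comp _ _ _

theorem mapP_apply (u : (Module.End F V)ˣ) (U : Submodule F V) :
    mapP u U = U.map (u : Module.End F V) := rfl

/-- the algebra generated by a group -/
def alg (A : Subgroup (Module.End F V)ˣ) : Subalgebra F (Module.End F V) :=
  Algebra.adjoin F {r | ∃ a ∈ A, (a : Module.End F V) = r}

theorem coe_mem_alg {A : Subgroup (Module.End F V)ˣ} {a : (Module.End F V)ˣ} (ha : a ∈ A) :
    (a : Module.End F V) ∈ alg A := Algebra.subset_adjoin ⟨a, ha, rfl⟩

theorem conjP_mem_alg {A : Subgroup (Module.End F V)ˣ} {u : (Module.End F V)ˣ}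
    (hu : ∀ a ∈ A, u * a * u⁻¹ ∈ A) {r : Module.End F V} (hr : r ∈ alg A) :
    conjP u r ∈ alg A := by
  induction hr using Algebra.adjoin_induction with
  | mem x hx =>
    obtain ⟨a, ha, rfl⟩ := hx
    exact coe_mem_alg (hu a ha)
  | algebraMap c =>
    have : conjP u (algebraMap F (Module.End F V) c) = algebraMap F (Module.End F V) c := by
      rw [conjP_apply, ← Algebra.commutes, mul_assoc, Units.mul_inv, mul_one]
    rw [this]
    exact Subalgebra.algebraMap_mem _ c
  | add x y _ _ h1 h2 =>
    have : conjP u (x + y) = conjP u x + conjP u y := by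
      simp only [conjP_apply, mul_add, add_mul]
    rw [this]; exact add_mem h1 h2
  | mul x y _ _ h1 h2 =>
    have : conjP u (x * y) = conjP u x * conjP u y := by
      simp only [conjP_apply, mul_assoc, Units.inv_mul_cancel_left]
    rw [this]; exact mul_mem h1 h2

/-- The main block structure. -/
theorem blocks [Finite V] [Nontrivial V] (A : Subgroup (Module.End F V)ˣ)
    (hA : ∀ a ∈ A, ∀ b ∈ A, a * b = b * a) :
    (∀ r ∈ alg A, ∀ s ∈ alg A, r * s = s * r) ∧
    ∃ B : Set (Submodule F V), B.Nonempty ∧ (∀ U ∈ B, U ≠ ⊥) ∧ sSupIndep B ∧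
      (∀ u : (Module.End F V)ˣ, (∀ a ∈ A, u * a * u⁻¹ ∈ A) → (∀ a ∈ A, u⁻¹ * a * u ∈ A) →
        ∀ U ∈ B, mapP u U ∈ B) ∧
      (⊤ ∈ B → ∀ r ∈ alg A, r ≠ 0 → ∀ v : V, r v = 0 → v = 0) := by
  classical
  have hcomm : ∀ a ∈ {r : Module.End F V | ∃ a ∈ A, (a : Module.End F V) = r},
      ∀ b ∈ {r : Module.End F V | ∃ a ∈ A, (a : Module.End F V) = r}, a * b = b * a := by
    rintro _ ⟨a, ha, rfl⟩ _ ⟨b, hb, rfl⟩
    rw [← Units.val_mul, hA a ha b hb, Units.val_mul]
  have hc : ∀ r ∈ alg A, ∀ s ∈ alg A, r * s = s * r := by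
    intro r hr s hs
    have := Algebra.isMulCommutative_adjoin F hcomm
    exact congrArg Subtype.val (this.is_comm.comm (⟨r, hr⟩ : alg A) ⟨s, hs⟩)
  let inst : CommRing (alg A) :=
    { (inferInstance : Ring (alg A)) with
      mul_comm := fun r s => Subtype.ext (hc r r.2 s s.2) }
  refine ⟨hc, ?_⟩
  have hfE : Finite (Module.End F V) := Finite.of_injective (fun f : Module.End F V => (f : V → V))
    (fun f g h => LinearMap.ext (fun x => congrFun h x))
  have hfR : Finite (alg A) := inferInstance
  have hsc : SMulCommClass (alg A) F V := ⟨fun r c v => by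
    change (r : Module.End F V) (c • v) = c • (r : Module.End F V) v
    rw [map_smul]⟩
  refine ⟨{U | ∃ P : MaximalSpectrum (alg A), U = blk F V P.asIdeal ∧ U ≠ ⊥}, ?_, ?_, ?_, ?_, ?_⟩
  · obtain ⟨P, hP⟩ := exists_blk_ne_bot (F := F) (V := V) (R := alg A)
    exact ⟨_, P, rfl, hP⟩
  · rintro U ⟨P, _, h⟩
    exact h
  · have := (blk_indep (F := F) (V := V) (R := alg A)).sSupIndep_range
    refine this.mono ?_
    rintro U ⟨P, rfl, _⟩
    exact ⟨P, rfl⟩
  · rintro u h1 h2 U ⟨P, rfl, hne⟩
    let c : alg A ≃+* alg A :=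
      { toFun := fun r => ⟨conjP u r, conjP_mem_alg h1 r.2⟩
        invFun := fun r => ⟨conjP u⁻¹ r, conjP_mem_alg (by simpa using h2) r.2⟩
        left_inv := fun r => by
          apply Subtype.ext
          change conjP u⁻¹ (conjP u r) = r
          rw [← Equiv.Perm.mul_apply, ← map_mul]; simp
        right_inv := fun r => by
          apply Subtype.ext
          change conjP u (conjP u⁻¹ r) = r
          rw [← Equiv.Perm.mul_apply, ← map_mul]; simp
        map_mul' := fun r s => by
          apply Subtype.ext
          change conjP u (r * s) = conjP u r * conjP u s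
          simp only [conjP_apply, mul_assoc, Units.inv_mul_cancel_left]
        map_add' := fun r s => by
          apply Subtype.ext
          change conjP u (r + s) = conjP u r + conjP u s
          simp only [conjP_apply, mul_add, add_mul] }
    have hk : ∀ (r : alg A) (v : V), (LinearMap.GeneralLinearGroup.generalLinearEquiv F V u) (r • v) =
        c r • (LinearMap.GeneralLinearGroup.generalLinearEquiv F V u) v := by
      intro r v
      change (u : Module.End F V) ((r : Module.End F V) v) = (conjP u r) ((u : Module.End F V) v)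
      rw [conjP_apply]
      change _ = ((u : Module.End F V) * r * ((u⁻¹ : (Module.End F V)ˣ) : Module.End F V) * u) v
      rw [mul_assoc, Units.inv_mul, mul_one]; rfl
    have hmap := map_blk (F := F) (LinearMap.GeneralLinearGroup.generalLinearEquiv F V u) c hk P.asIdeal
    refine ⟨⟨P.asIdeal.map c, ?_⟩, hmap, ?_⟩
    · have := P.isMaximal
      exact Ideal.map_isMaximal_of_equiv c
    · intro h
      apply hne
      apply (mapP u).injective
      rw [h, mapP_apply, Submodule.map_bot]
  · rintro ⟨P, hP, _⟩ r hr hr0 v hv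
    have hPb : ∀ s : alg A, s ∈ P.asIdeal → s = 0 := by
      intro s hs
      apply Subtype.ext
      ext v
      have : v ∈ blk F V P.asIdeal := by rw [← hP]; trivial
      exact this s hs
    refine blk_inj (F := F) P.isMaximal (r := (⟨r, hr⟩ : alg A)) ?_ (v := v) (by rw [← hP]; trivial) hv
    intro h
    exact hr0 (congrArg Subtype.val (hPb _ h))

theorem ncard_blocks [Finite V] [FiniteDimensional F V] (B : Set (Submodule F V))
    (h1 : ∀ U ∈ B, U ≠ ⊥) (h2 : sSupIndep B) : B.ncard ≤ Module.finrank F V := by
  classical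
  have hfin : B.Finite := Set.toFinite B
  have h3 := (sSupIndep_iff _).1 h2
  have := Fintype.ofFinite {i : B // ((i : Submodule F V)) ≠ ⊥}
  have h4 := h3.subtype_ne_bot_le_finrank
  refine le_trans (le_of_eq ?_) h4
  rw [← Nat.card_eq_fintype_card, ← Nat.card_coe_set_eq]
  refine Nat.card_congr ⟨fun U => ⟨U, h1 U U.2⟩, fun U => U.1, fun U => rfl, fun U => rfl⟩

/-- the field lemma -/
theorem irr_field [Finite V] [Nontrivial V] [FiniteDimensional F V]
    (A : Subgroup (Module.End F V)ˣ)
    (hA : ∀ a ∈ A, ∀ b ∈ A, a * b = b * a) (n : ℕ) (hn : Module.finrank F V ≤ n)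
    (u : (Module.End F V)ˣ) (h1 : ∀ a ∈ A, u * a * u⁻¹ ∈ A) (h2 : ∀ a ∈ A, u⁻¹ * a * u ∈ A)
    (hirr : ∀ U : Submodule F V, mapP (u ^ n.factorial) U = U → U = ⊥ ∨ U = ⊤) :
    (∀ r ∈ alg A, r ≠ 0 → ∀ v : V, r v = 0 → v = 0) ∧
      ∀ a ∈ A, u ^ n.factorial * a = a * u ^ n.factorial := by
  classical
  obtain ⟨hc, B, hB0, hB1, hB2, hB3, hB4⟩ := blocks A hA
  have hfE : Finite (Module.End F V) := Finite.of_injective (fun f : Module.End F V => (f : V → V))
    (fun f g h => LinearMap.ext (fun x => congrFun h x))
  have hdom : ∀ r ∈ alg A, r ≠ 0 → ∀ v : V, r v = 0 → v = 0 := by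
    obtain ⟨U, hU⟩ := hB0
    have hfix := perm_pow_factorial (mapP u) B (Set.toFinite B) n
      ((ncard_blocks B hB1 hB2).trans hn) (hB3 u h1 h2) U hU
    rw [← map_pow] at hfix
    rcases hirr U hfix with h | h
    · exact absurd h (hB1 U hU)
    · exact hB4 (h ▸ hU)
  refine ⟨hdom, ?_⟩
  let inst : CommRing (alg A) :=
    { (inferInstance : Ring (alg A)) with
      mul_comm := fun r s => Subtype.ext (hc r r.2 s s.2) }
  have hnz : NoZeroDivisors (alg A) := ⟨by
    intro r s hrs
    by_contra hcon
    push Not at hcon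
    obtain ⟨hr, hs⟩ := hcon
    apply hs
    apply Subtype.ext
    ext v
    apply hdom r r.2 (fun h => hr (Subtype.ext h))
    have := congrArg Subtype.val hrs
    change (r : Module.End F V) * s = 0 at this
    exact LinearMap.congr_fun this v⟩
  have hnt : Nontrivial (alg A) := inferInstance
  have hdm : IsDomain (alg A) := { hnz, hnt with }
  intro a ha
  set p := minpoly F (a : Module.End F V) with hp
  have hmon : p.Monic := minpoly.monic (Algebra.IsIntegral.isIntegral _)
  have hdeg : p.natDegree ≤ n := by
    refine le_trans ?_ hn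
    have := LinearMap.minpoly_dvd_charpoly (a : Module.End F V)
    refine (Polynomial.natDegree_le_of_dvd this (LinearMap.charpoly_monic _).ne_zero).trans ?_
    rw [LinearMap.charpoly_natDegree]
  let S : Set (Module.End F V) := {b | b ∈ alg A ∧ Polynomial.aeval b p = 0}
  have hS : S.ncard ≤ n := by
    have h1 : S ⊆ ((fun b : alg A => (b : Module.End F V)) ''
        ((p.aroots (alg A)).toFinset : Set (alg A))) := by
      rintro b ⟨hb, hb2⟩
      refine ⟨⟨b, hb⟩, ?_, rfl⟩
      simp only [Finset.mem_coe, Multiset.mem_toFinset]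
      rw [Polynomial.mem_aroots']
      refine ⟨(hmon.map _).ne_zero, ?_⟩
      apply Subtype.ext
      have h3 := Polynomial.aeval_algHom_apply (alg A).val (⟨b, hb⟩ : alg A) p
      change Polynomial.aeval b p = ((Polynomial.aeval (⟨b, hb⟩ : alg A) p : alg A) : Module.End F V) at h3
      rw [← h3, hb2]; rfl
    refine (Set.ncard_le_ncard h1 (Set.toFinite _)).trans ?_
    refine (Set.ncard_image_le (Set.toFinite _)).trans ?_
    rw [Set.ncard_coe_finset]
    refine (Multiset.toFinset_card_le _).trans ?_
    refine (Polynomial.card_roots' _).trans ?_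
    exact (Polynomial.natDegree_map_le).trans hdeg
  have hSc : ∀ x ∈ S, conjP u x ∈ S := by
    rintro b ⟨hb, hb2⟩
    refine ⟨conjP_mem_alg h1 hb, ?_⟩
    let c : Module.End F V →ₐ[F] Module.End F V :=
      { toFun := conjP u
        map_one' := by simp [conjP_apply]
        map_mul' := fun x y => by
          simp only [conjP_apply, mul_assoc, Units.inv_mul_cancel_left]
        map_zero' := by simp [conjP_apply]
        map_add' := fun x y => by simp only [conjP_apply, mul_add, add_mul]
        commutes' := fun r => by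
          simp only [conjP_apply]
          rw [← Algebra.commutes, mul_assoc, Units.mul_inv, mul_one] }
    have := Polynomial.aeval_algHom_apply c b p
    change Polynomial.aeval (c b) p = 0
    rw [this, hb2, map_zero]
  have haS : (a : Module.End F V) ∈ S := ⟨coe_mem_alg ha, minpoly.aeval _ _⟩
  have h5 := perm_pow_factorial (conjP u) S (Set.toFinite S) n hS hSc _ haS
  rw [← map_pow, conjP_apply] at h5
  apply Units.ext
  rw [Units.val_mul, Units.val_mul]
  calc ((u ^ n.factorial : (Module.End F V)ˣ) : Module.End F V) * (a : Module.End F V)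
      = ((u ^ n.factorial : (Module.End F V)ˣ) : Module.End F V) * (a : Module.End F V) *
        (((u ^ n.factorial)⁻¹ : (Module.End F V)ˣ) : Module.End F V) *
        ((u ^ n.factorial : (Module.End F V)ˣ) : Module.End F V) := by
          rw [mul_assoc _ (((u ^ n.factorial)⁻¹ : (Module.End F V)ˣ) : Module.End F V) _,
            Units.inv_mul, mul_one]
    _ = _ := by rw [h5]

end Norm

end Pool.Agent.Q21.SG
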