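import Pool.Agent.Q21.SG.C

namespace Pool.Agent.Q21.SG

section Det

variable {F V : Type*} [Field F] [AddCommGroup V] [Module F V]

variable (F V) in
/-- scalars -/
def Zs : Subgroup (Module.End F V)ˣ :=
  (Units.map (algebraMap F (Module.End F V)).toMonoidHom).range

theorem mem_Zs {g : (Module.End F V)ˣ} (h : ∃ c : F, ∀ v : V, (g : Module.End F V) v = c • v)
    [Nontrivial V] : g ∈ Zs F V := by
  obtain ⟨c, hc⟩ := h
  have hc0 : c ≠ 0 := by
    rintro rfl
    obtain ⟨v, hv⟩ := exists_ne (0 : V)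
    apply hv
    have h1 : ((g⁻¹ : (Module.End F V)ˣ) : Module.End F V) ((g : Module.End F V) v) = v := by
      change (((g⁻¹ : (Module.End F V)ˣ) : Module.End F V) * (g : Module.End F V)) v = v
      rw [Units.inv_mul]; rfl
    rw [hc, zero_smul, map_zero] at h1
    exact h1.symm
  refine ⟨Units.mk0 c hc0, ?_⟩
  apply Units.ext
  ext v
  rw [hc]
  rfl

theorem exists_of_mem_Zs {g : (Module.End F V)ˣ} (h : g ∈ Zs F V) :
    ∃ c : F, c ≠ 0 ∧ ∀ v : V, (g : Module.End F V) v = c • v := by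
  obtain ⟨c, rfl⟩ := h
  exact ⟨c, c.ne_zero, fun v => rfl⟩

theorem comm_of_scalar [FiniteDimensional F V]
    (hF : ∀ c : F, c ^ (Module.finrank F V) = 1 → c = 1) (a b : (Module.End F V)ˣ)
    (h : a * b * a⁻¹ * b⁻¹ ∈ Zs F V) : a * b = b * a := by
  obtain ⟨c, hc0, hc⟩ := exists_of_mem_Zs h
  have h1 : ((a * b * a⁻¹ * b⁻¹ : (Module.End F V)ˣ) : Module.End F V) =
      c • (1 : Module.End F V) := by
    ext v; rw [hc]; rfl
  have h2 : LinearMap.det ((a * b * a⁻¹ * b⁻¹ : (Module.End F V)ˣ) : Module.End F V) = 1 := by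
    have e : ∀ g : (Module.End F V)ˣ, LinearMap.det (g : Module.End F V) =
        ((Units.map (LinearMap.det : Module.End F V →* F) g : Fˣ) : F) := fun g => rfl
    rw [e]
    simp only [map_mul, map_inv]
    rw [mul_comm (Units.map (LinearMap.det : Module.End F V →* F) a)]
    simp
  rw [h1, LinearMap.det_smul, map_one, mul_one] at h2
  have h3 := hF c h2
  have h4 : a * b * a⁻¹ * b⁻¹ = 1 := by
    apply Units.ext
    rw [h1, h3, one_smul]; rfl
  rw [mul_assoc, ← mul_inv_rev, mul_inv_eq_one] at h4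
  exact h4

/-- abelian nonscalar normal subgroup -/
theorem exists_abelian [FiniteDimensional F V]
    (hF : ∀ c : F, c ^ (Module.finrank F V) = 1 → c = 1) (K : Subgroup (Module.End F V)ˣ)
    (hs : Group.IsSolvable K) (hK : ¬ K ≤ Zs F V) :
    ∃ A : Subgroup (Module.End F V)ˣ, A ≤ K ∧ (∀ k ∈ K, ∀ a ∈ A, k * a * k⁻¹ ∈ A) ∧
      (∀ k ∈ K, ∀ a ∈ A, k⁻¹ * a * k ∈ A) ∧ ¬ A ≤ Zs F V ∧
      ∀ a ∈ A, ∀ b ∈ A, a * b = b * a := by
  obtain ⟨A, h1, h2, h3, h4⟩ := exists_normal_abelian_mod (Zs F V) K hs hK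
  refine ⟨A, h1, h2, fun k hk a ha => ?_, h3, fun a ha b hb => comm_of_scalar hF a b (h4 a ha b hb)⟩
  simpa using h2 k⁻¹ (inv_mem hk) a ha

end Det

end Pool.Agent.Q21.SG
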