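import Pool.Agent.Q21.SG.D

namespace Pool.Agent.Q21.SG

universe v

section Fld

variable {F : Type*} {V : Type v} [Field F] [AddCommGroup V] [Module F V]

theorem alg_commute {A : Subgroup (Module.End F V)ˣ} (s : Module.End F V)
    (hs : ∀ a ∈ A, s * (a : Module.End F V) = a * s) {r : Module.End F V} (hr : r ∈ alg A) :
    s * r = r * s := by
  induction hr using Algebra.adjoin_induction with
  | mem x hx => obtain ⟨a, ha, rfl⟩ := hx; exact hs a ha
  | algebraMap c => exact (Algebra.commutes c s).symm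
  | add x y _ _ h1 h2 => rw [mul_add, add_mul, h1, h2]
  | mul x y _ _ h1 h2 => rw [← mul_assoc, h1, mul_assoc, h2, mul_assoc]

theorem exists_field [Finite V] [Nontrivial V] [FiniteDimensional F V]
    (A : Subgroup (Module.End F V)ˣ) (hA : ∀ a ∈ A, ∀ b ∈ A, a * b = b * a)
    (hinj : ∀ r ∈ alg A, r ≠ 0 → ∀ v : V, r v = 0 → v = 0) :
    ∃ (L : Type v) (_ : Field L) (_ : Algebra F L) (_ : Finite L) (Θ : L →ₐ[F] Module.End F V),
      (∀ r, r ∈ alg A ↔ ∃ l, Θ l = r) ∧ Module.finrank F L ∣ Module.finrank F V := by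
  classical
  obtain ⟨hc, -⟩ := blocks A hA
  have hfE : Finite (Module.End F V) := Finite.of_injective (fun f : Module.End F V => (f : V → V))
    (fun f g h => LinearMap.ext (fun x => congrFun h x))
  let inst : CommRing (alg A) :=
    { (inferInstance : Ring (alg A)) with
      mul_comm := fun r s => Subtype.ext (hc r r.2 s s.2) }
  have hnz : NoZeroDivisors (alg A) := ⟨by
    intro r s hrs
    by_contra hcon
    push Not at hcon
    obtain ⟨hr, hs⟩ := hcon
    apply hs
    apply Subtype.ext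
    ext v
    apply hinj r r.2 (fun h => hr (Subtype.ext h))
    have := congrArg Subtype.val hrs
    change (r : Module.End F V) * s = 0 at this
    exact LinearMap.congr_fun this v⟩
  have hnt : Nontrivial (alg A) := inferInstance
  have hdm : IsDomain (alg A) := { hnz, hnt with }
  have hfR : Finite (alg A) := inferInstance
  have hfld : IsField (alg A) := Finite.isField_of_domain (alg A)
  let instF : Field (alg A) := hfld.toField
  refine ⟨alg A, instF, (alg A).algebra, hfR, (alg A).val, ?_, ?_⟩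
  · intro r
    exact ⟨fun h => ⟨⟨r, h⟩, rfl⟩, fun ⟨l, hl⟩ => hl ▸ l.2⟩
  · let mo : Module (alg A) V := inferInstance
    have := Module.finrank_mul_finrank F (alg A) V
    exact ⟨_, this.symm⟩

theorem irr_pow {n : ℕ} {f : (Module.End F V)ˣ} (hf : f ^ 5 = 1) (k : ℕ) (hk : (n * k) % 5 = 1)
    (hi : ∀ U : Submodule F V, mapP f U = U → U = ⊥ ∨ U = ⊤) :
    ∀ U : Submodule F V, mapP (f ^ n) U = U → U = ⊥ ∨ U = ⊤ := by
  intro U hU
  apply hi
  have h1 : f = (f ^ n) ^ k := by
    rw [← pow_mul]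
    conv_rhs => rw [← Nat.div_add_mod (n * k) 5, hk, pow_add, pow_mul, hf, one_pow, one_mul, pow_one]
  rw [h1, map_pow]
  clear h1 hk
  induction k with
  | zero => simp
  | succ k ih => rw [pow_succ, Equiv.Perm.mul_apply, hU, ih]

theorem dim4 [Finite V] [FiniteDimensional F V] [Nontrivial V] [Finite F]
    (h4 : Module.finrank F V = 4)
    (hF2 : ∀ c : F, c ^ 4 = 1 → c = 1) (hF3 : Nat.card F % 3 = 2)
    (f f' : (Module.End F V)ˣ) (hf : f ^ 5 = 1) (hf' : f' ^ 5 = 1)
    (hi : ∀ U : Submodule F V, mapP f U = U → U = ⊥ ∨ U = ⊤)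
    (hi' : ∀ U : Submodule F V, mapP f' U = U → U = ⊥ ∨ U = ⊤)
    (hfZ : f ∉ Zs F V) (K : Subgroup (Module.End F V)ˣ) (hs : Group.IsSolvable K)
    (hfK : f ∈ K) (hfK' : f' ∈ K) :
    ∃ ω : Module.End F V, ω * ω + ω + 1 = 0 ∧ (f : Module.End F V) * ω = ω * f ∧
      (f' : Module.End F V) * ω = ω * f' := by
  obtain ⟨A, hA1, hA2, hA3, hA4, hA5⟩ := exists_abelian (by rw [h4]; exact hF2) K hs
    (fun h => hfZ (h hfK))
  have hcom : ∀ g : (Module.End F V)ˣ, g ∈ K → g ^ 5 = 1 →
      (∀ U : Submodule F V, mapP g U = U → U = ⊥ ∨ U = ⊤) →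
      (∀ r ∈ alg A, r ≠ 0 → ∀ v : V, r v = 0 → v = 0) ∧
      ∀ a ∈ A, (g : Module.End F V) * (a : Module.End F V) = a * g := by
    intro g hg hg5 hgi
    obtain ⟨h1, h2⟩ := irr_field A hA5 4 h4.le g (hA2 g hg) (hA3 g hg)
      (irr_pow hg5 4 (by decide) hgi)
    refine ⟨h1, fun a ha => ?_⟩
    have h3 := h2 a ha
    have h4 : g = (g ^ Nat.factorial 4) ^ 4 := by
      rw [← pow_mul, show Nat.factorial 4 * 4 = 5 * 19 + 1 by decide, pow_add, pow_mul, hg5,
        one_pow, one_mul, pow_one]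
    have h5 : Commute (g ^ Nat.factorial 4) a := h3
    have h6 : Commute g a := by
      rw [h4]; exact h5.pow_left 4
    rw [← Units.val_mul, h6.eq, Units.val_mul]
  obtain ⟨h1, h2⟩ := hcom f hfK hf hi
  obtain ⟨-, h3⟩ := hcom f' hfK' hf' hi'
  obtain ⟨L, _, _, _, Θ, hΘ, hdvd⟩ := exists_field A hA5 h1
  rw [h4] at hdvd
  have hfin : FiniteDimensional F L := Module.Finite.of_finite
  have hne1 : Module.finrank F L ≠ 1 := by
    intro h
    apply hA4
    intro a ha
    obtain ⟨l, hl⟩ := (hΘ _).1 (coe_mem_alg ha)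
    have hbij : ∃ c : F, algebraMap F L c = l := by
      have : (⊤ : Subalgebra F L) = ⊥ := Subalgebra.bot_eq_top_iff_finrank_eq_one.2 h |>.symm
      have hl2 : l ∈ (⊤ : Subalgebra F L) := trivial
      rw [this] at hl2
      exact hl2
    obtain ⟨c, rfl⟩ := hbij
    refine mem_Zs ⟨c, fun v => ?_⟩
    rw [← hl, AlgHom.commutes]
    rfl
  have hcard : Nat.card L = Nat.card F ^ Module.finrank F L := Module.natCard_eq_pow_finrank
  have hdvd3 : 3 ∣ Nat.card Lˣ := by
    rw [Nat.card_units, hcard]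
    have : Module.finrank F L = 2 ∨ Module.finrank F L = 4 := by
      have h5 : Module.finrank F L ≤ 4 := Nat.le_of_dvd (by norm_num) hdvd
      have h6 : 0 < Module.finrank F L := Module.finrank_pos
      interval_cases h : Module.finrank F L
      · exact absurd rfl hne1
      · exact Or.inl rfl
      · omega
      · exact Or.inr rfl
    have hmod : ∀ k, (Nat.card F ^ (2 * k)) % 3 = 1 := by
      intro k
      rw [pow_mul, Nat.pow_mod, Nat.pow_mod (Nat.card F), hF3]
      norm_num
    rcases this with h | h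
    · rw [h]; have := hmod 1; norm_num at this
      omega
    · rw [h]; have := hmod 2; norm_num at this
      omega
  have hfact : Fact (Nat.Prime 3) := ⟨by norm_num⟩
  obtain ⟨l, hl⟩ := exists_prime_orderOf_dvd_card' 3 hdvd3
  have hl3 : (l : L) ^ 3 = 1 := by
    have := pow_orderOf_eq_one l
    rw [hl] at this
    have := congrArg Units.val this
    simpa using this
  have hl1 : (l : L) ≠ 1 := by
    intro h
    have : l = 1 := Units.ext h
    rw [this, orderOf_one] at hl
    norm_num at hl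
  have hl0 : (l : L) * l + l + 1 = 0 := by
    have : ((l : L) - 1) * ((l : L) * l + l + 1) = 0 := by
      linear_combination hl3
    rcases mul_eq_zero.1 this with h | h
    · exact absurd (sub_eq_zero.1 h) hl1
    · exact h
  refine ⟨Θ l, ?_, ?_, ?_⟩
  · rw [← map_mul, ← map_add, ← map_one Θ, ← map_add, hl0, map_zero]
  · exact alg_commute _ h2 ((hΘ _).2 ⟨_, rfl⟩)
  · exact alg_commute _ h3 ((hΘ _).2 ⟨_, rfl⟩)

end Fld

end Pool.Agent.Q21.SG
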