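import Pool.Agent.Q21.SG.E

namespace Pool.Agent.Q21.SG

section Cnt

universe v

variable {F : Type*} {V : Type v} [Field F] [AddCommGroup V] [Module F V]

theorem mapP_ker {f : (Module.End F V)ˣ} {r : Module.End F V}
    (h : (f : Module.End F V) * r = r * f) : mapP f (LinearMap.ker r) = LinearMap.ker r := by
  have h' : ((f⁻¹ : (Module.End F V)ˣ) : Module.End F V) * r =
      r * ((f⁻¹ : (Module.End F V)ˣ) : Module.End F V) := by
    have e : r = ((f⁻¹ : (Module.End F V)ˣ) : Module.End F V) * r * f := by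
      rw [mul_assoc, ← h, ← mul_assoc, Units.inv_mul, one_mul]
    calc ((f⁻¹ : (Module.End F V)ˣ) : Module.End F V) * r
        = ((f⁻¹ : (Module.End F V)ˣ) : Module.End F V) * r * ((f : Module.End F V) *
          ((f⁻¹ : (Module.End F V)ˣ) : Module.End F V)) := by rw [Units.mul_inv, mul_one]
      _ = _ := by rw [← mul_assoc, ← e]
  rw [mapP_apply]
  apply le_antisymm
  · rintro _ ⟨v, hv, rfl⟩
    change r ((f : Module.End F V) v) = 0
    have := LinearMap.congr_fun h v
    change (f : Module.End F V) (r v) = r ((f : Module.End F V) v) at this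
    rw [← this, show r v = 0 from hv, map_zero]
  · intro v hv
    refine ⟨((f⁻¹ : (Module.End F V)ˣ) : Module.End F V) v, ?_, ?_⟩
    · change r (((f⁻¹ : (Module.End F V)ˣ) : Module.End F V) v) = 0
      have := LinearMap.congr_fun h' v
      change ((f⁻¹ : (Module.End F V)ˣ) : Module.End F V) (r v) = _ at this
      change _ = r (((f⁻¹ : (Module.End F V)ˣ) : Module.End F V) v) at this
      rw [← this, show r v = 0 from hv, map_zero]
    · change ((f : Module.End F V) * ((f⁻¹ : (Module.End F V)ˣ) : Module.End F V)) v = v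
      rw [Units.mul_inv]; rfl

theorem two_roots [Finite V] [Nontrivial V] (f : (Module.End F V)ˣ)
    (hi : ∀ U : Submodule F V, mapP f U = U → U = ⊥ ∨ U = ⊤) (ω ω' : Module.End F V)
    (h1 : ω * ω + ω + 1 = 0) (h2 : (f : Module.End F V) * ω = ω * f)
    (h1' : ω' * ω' + ω' + 1 = 0) (h2' : (f : Module.End F V) * ω' = ω' * f) :
    ω' = ω ∨ ω' = -1 - ω := by
  classical
  have hfE : Finite (Module.End F V) := Finite.of_injective (fun f : Module.End F V => (f : V → V))
    (fun f g h => LinearMap.ext (fun x => congrFun h x))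
  let C : Subalgebra F (Module.End F V) := Subalgebra.centralizer F {(f : Module.End F V)}
  have hC : ∀ r : Module.End F V, r ∈ C ↔ (f : Module.End F V) * r = r * f := by
    intro r
    rw [Subalgebra.mem_centralizer_iff]
    simp
  have hinj : ∀ r ∈ C, r ≠ 0 → ∀ v : V, r v = 0 → v = 0 := by
    intro r hr hr0
    have hker : mapP f (LinearMap.ker r) = LinearMap.ker r := mapP_ker ((hC _).1 hr)
    rcases hi _ hker with h | h
    · intro v hv
      have : v ∈ LinearMap.ker r := hv
      rw [h] at this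
      simpa using this
    · exfalso
      apply hr0
      rwa [LinearMap.ker_eq_top] at h
  have hdom : IsDomain C := by
    have : NoZeroDivisors C := ⟨by
      intro r s hrs
      by_contra hcon
      push Not at hcon
      obtain ⟨hr, hs⟩ := hcon
      apply hs
      apply Subtype.ext
      ext v
      apply hinj r r.2 (fun h => hr (Subtype.ext h))
      have := congrArg Subtype.val hrs
      change (r : Module.End F V) * s = 0 at this
      exact LinearMap.congr_fun this v⟩
    exact { this, (inferInstance : Nontrivial C) with }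
  have hfld : IsField C := Finite.isDomain_to_isField C
  have hcm : ∀ r ∈ C, ∀ s ∈ C, r * s = s * r := by
    intro r hr s hs
    exact congrArg Subtype.val (hfld.mul_comm ⟨r, hr⟩ ⟨s, hs⟩)
  have hω : ω ∈ C := (hC _).2 h2
  have hω' : ω' ∈ C := (hC _).2 h2'
  have hc := hcm _ hω _ hω'
  by_contra hcon
  push Not at hcon
  obtain ⟨hn1, hn2⟩ := hcon
  have hz : (ω' - ω) * (ω' + ω + 1) = 0 := by
    have e1 : (ω' - ω) * (ω' + ω + 1) = (ω' * ω' + ω' + 1) - (ω * ω + ω + 1) + (ω' * ω - ω * ω') := by
      noncomm_ring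
    rw [e1, h1, h1', hc]
    simp
  apply hn2
  have h3 : ω' + ω + 1 = 0 := by
    ext v
    apply hinj (ω' - ω) (sub_mem hω' hω) (sub_ne_zero.2 hn1)
    exact LinearMap.congr_fun hz v
  rw [eq_sub_iff_add_eq, eq_neg_iff_add_eq_zero]
  exact h3

theorem claim_mem {ω : Module.End F V} (h1 : ω * ω + ω + 1 = 0)
    (hF : ∀ t : F, t * t + t + 1 ≠ 0) (U : Submodule F V) (hU : ∀ v ∈ U, ω v ∈ U) {z : V}
    (a b : F) (hab : a • z + b • ω z ∈ U) (hne : ¬ (a = 0 ∧ b = 0)) : z ∈ U := by
  have hω : ∀ v, ω (ω v) = - ω v - v := by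
    intro v
    have := LinearMap.congr_fun h1 v
    change ω (ω v) + ω v + v = 0 at this
    rw [sub_eq_add_neg, ← neg_add, eq_neg_iff_add_eq_zero, ← add_assoc]
    exact this
  have hn : a * a - a * b + b * b ≠ 0 := by
    intro h
    by_cases hb : b = 0
    · subst hb
      have : a = 0 := by
        have : a * a = 0 := by simpa using h
        exact mul_self_eq_zero.1 this
      exact hne ⟨this, rfl⟩
    · apply hF (-a / b)
      field_simp
      linear_combination h
  have h2 : (a - b) • (a • z + b • ω z) - b • ω (a • z + b • ω z) ∈ U :=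
    U.sub_mem (U.smul_mem _ hab) (U.smul_mem _ (hU _ hab))
  have h3 : (a - b) • (a • z + b • ω z) - b • ω (a • z + b • ω z) =
      (a * a - a * b + b * b) • z := by
    rw [map_add, map_smul, map_smul, hω]
    module
  rw [h3] at h2
  have := U.smul_mem (a * a - a * b + b * b)⁻¹ h2
  rwa [smul_smul, inv_mul_cancel₀ hn, one_smul] at this

theorem exists_two_gen [FiniteDimensional F V] (h4 : Module.finrank F V = 4)
    {ω : Module.End F V} (h1 : ω * ω + ω + 1 = 0)
    (hF : ∀ t : F, t * t + t + 1 ≠ 0) :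
    ∃ z1 z2 : V, Submodule.span F {z1, ω z1, z2, ω z2} = ⊤ := by
  have hω : ∀ v, ω (ω v) = - ω v - v := by
    intro v
    have := LinearMap.congr_fun h1 v
    change ω (ω v) + ω v + v = 0 at this
    rw [sub_eq_add_neg, ← neg_add, eq_neg_iff_add_eq_zero, ← add_assoc]
    exact this
  have hnt : Nontrivial V := Module.nontrivial_of_finrank_pos (R := F) (by omega)
  obtain ⟨z1, hz1⟩ := exists_ne (0 : V)
  let U1 : Submodule F V := Submodule.span F {z1, ω z1}
  have hU1 : ∀ v ∈ U1, ω v ∈ U1 := by
    intro v hv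
    obtain ⟨a, b, rfl⟩ := Submodule.mem_span_pair.1 hv
    apply Submodule.mem_span_pair.2
    refine ⟨-b, a - b, ?_⟩
    rw [map_add, map_smul, map_smul, hω]
    module
  have hne : U1 ≠ ⊤ := by
    intro h
    have h5 : Module.finrank F U1 ≤ 2 := by
      classical
      have := finrank_span_finset_le_card (R := F) ({z1, ω z1} : Finset V)
      simp only [Finset.coe_insert, Finset.coe_singleton] at this
      exact this.trans Finset.card_le_two
    rw [h, finrank_top, h4] at h5
    omega
  obtain ⟨z2, hz2⟩ : ∃ z2, z2 ∉ U1 := by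
    by_contra hcon
    push Not at hcon
    exact hne (eq_top_iff.2 fun v _ => hcon v)
  refine ⟨z1, z2, ?_⟩
  have hli : LinearIndependent F ![z1, ω z1, z2, ω z2] := by
    rw [Fintype.linearIndependent_iff]
    intro g hg
    simp only [Fin.sum_univ_four, Matrix.cons_val_zero, Matrix.cons_val_one, Matrix.cons_val] at hg
    have h5 : g 2 • z2 + g 3 • ω z2 ∈ U1 := by
      apply Submodule.mem_span_pair.2
      refine ⟨-g 0, -g 1, ?_⟩
      rw [neg_smul, neg_smul, ← sub_eq_zero]
      rw [← neg_eq_zero, ← hg]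
      abel
    have h6 : g 2 = 0 ∧ g 3 = 0 := by
      by_contra hcon
      exact hz2 (claim_mem h1 hF U1 hU1 _ _ h5 hcon)
    rw [h6.1, h6.2, zero_smul, zero_smul, add_zero, add_zero] at hg
    have h7 : g 0 = 0 ∧ g 1 = 0 := by
      by_contra hcon
      have := claim_mem h1 hF ⊥ (by intro v hv; simp only [Submodule.mem_bot] at hv ⊢; rw [hv, map_zero])
        (z := z1) (g 0) (g 1) (by rw [hg]; exact Submodule.zero_mem _) hcon
      exact hz1 (by simpa using this)
    intro i
    fin_cases i
    · exact h7.1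
    · exact h7.2
    · exact h6.1
    · exact h6.2
  have h8 := hli.span_eq_top_of_card_eq_finrank' (by rw [h4]; rfl)
  rw [← h8]
  congr 1
  ext v
  simp only [Set.mem_insert_iff, Set.mem_singleton_iff, Set.mem_range, Fin.exists_fin_succ]
  simp [eq_comm]

/-- number of `k` with `k ω = ω' k` -/
theorem card_conj [FiniteDimensional F V] [Finite V] (h4 : Module.finrank F V = 4)
    {ω : Module.End F V} (h1 : ω * ω + ω + 1 = 0)
    (hF : ∀ t : F, t * t + t + 1 ≠ 0) (ω' : Module.End F V) :
    {k : (Module.End F V)ˣ | (k : Module.End F V) * ω = ω' * k}.ncard ≤ Nat.card F ^ 8 := by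
  classical
  obtain ⟨z1, z2, hz⟩ := exists_two_gen h4 h1 hF
  have hcard : Nat.card (V × V) = Nat.card F ^ 8 := by
    rw [Nat.card_prod, Module.natCard_eq_pow_finrank (K := F) (V := V), h4]
    ring
  rw [← hcard, ← Set.ncard_univ]
  apply Set.ncard_le_ncard_of_injOn (fun k : (Module.End F V)ˣ =>
    ((k : Module.End F V) z1, (k : Module.End F V) z2)) (fun _ _ => Set.mem_univ _) ?_ (Set.toFinite _)
  intro k hk k' hk' he
  simp only [Prod.mk.injEq] at he
  apply Units.ext
  have : (⊤ : Submodule F V) ≤ LinearMap.eqLocus (k : Module.End F V) (k' : Module.End F V) := by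
    rw [← hz, Submodule.span_le]
    intro v hv
    simp only [Set.mem_insert_iff, Set.mem_singleton_iff] at hv
    have h9 : ∀ z, (k : Module.End F V) (ω z) = ω' ((k : Module.End F V) z) :=
      fun z => LinearMap.congr_fun hk z
    have h9' : ∀ z, (k' : Module.End F V) (ω z) = ω' ((k' : Module.End F V) z) :=
      fun z => LinearMap.congr_fun hk' z
    change (k : Module.End F V) v = (k' : Module.End F V) v
    rcases hv with rfl | rfl | rfl | rfl
    · exact he.1
    · rw [h9, h9', he.1]
    · exact he.2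
    · rw [h9, h9', he.2]
  ext v
  exact this (Submodule.mem_top (x := v))

theorem card_T2 [FiniteDimensional F V] [Finite V] (h4 : Module.finrank F V = 4)
    (hF : ∀ t : F, t * t + t + 1 ≠ 0) (f : (Module.End F V)ˣ)
    (hi : ∀ U : Submodule F V, mapP f U = U → U = ⊥ ∨ U = ⊤) :
    {k : (Module.End F V)ˣ | ∃ ω : Module.End F V, ω * ω + ω + 1 = 0 ∧
      (f : Module.End F V) * ω = ω * f ∧
      ((k⁻¹ * f * k : (Module.End F V)ˣ) : Module.End F V) * ω =
        ω * ((k⁻¹ * f * k : (Module.End F V)ˣ) : Module.End F V)}.ncard ≤ 4 * Nat.card F ^ 8 := by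
  classical
  have hnt : Nontrivial V := Module.nontrivial_of_finrank_pos (R := F) (by omega)
  have hfE : Finite (Module.End F V) := Finite.of_injective (fun f : Module.End F V => (f : V → V))
    (fun f g h => LinearMap.ext (fun x => congrFun h x))
  by_cases hex : ∃ ω : Module.End F V, ω * ω + ω + 1 = 0 ∧ (f : Module.End F V) * ω = ω * f
  swap
  · have : {k : (Module.End F V)ˣ | ∃ ω : Module.End F V, ω * ω + ω + 1 = 0 ∧
      (f : Module.End F V) * ω = ω * f ∧
      ((k⁻¹ * f * k : (Module.End F V)ˣ) : Module.End F V) * ω =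
        ω * ((k⁻¹ * f * k : (Module.End F V)ˣ) : Module.End F V)} = ∅ := by
      rw [Set.eq_empty_iff_forall_notMem]
      rintro k ⟨ω, h1, h2, _⟩
      exact hex ⟨ω, h1, h2⟩
    rw [this]; simp
  obtain ⟨ω, h1, h2⟩ := hex
  have h1' : (-1 - ω) * (-1 - ω) + (-1 - ω) + 1 = 0 := by
    have : (-1 - ω) * (-1 - ω) + (-1 - ω) + 1 = ω * ω + ω + 1 := by noncomm_ring
    rw [this, h1]
  let T : Module.End F V → Module.End F V → Set (Module.End F V)ˣ :=
    fun a b => {k : (Module.End F V)ˣ | (k : Module.End F V) * a = b * k}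
  have hsub : {k : (Module.End F V)ˣ | ∃ ω : Module.End F V, ω * ω + ω + 1 = 0 ∧
      (f : Module.End F V) * ω = ω * f ∧
      ((k⁻¹ * f * k : (Module.End F V)ˣ) : Module.End F V) * ω =
        ω * ((k⁻¹ * f * k : (Module.End F V)ˣ) : Module.End F V)} ⊆
      (T ω ω ∪ T ω (-1 - ω)) ∪ (T (-1 - ω) ω ∪ T (-1 - ω) (-1 - ω)) := by
    rintro k ⟨ν, hν1, hν2, hν3⟩
    let ν' : Module.End F V := k * ν * ((k⁻¹ : (Module.End F V)ˣ) : Module.End F V)
    have hk : (k : Module.End F V) * ν = ν' * k := by
      simp only [ν', mul_assoc, Units.inv_mul, mul_one]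
    have hν'1 : ν' * ν' + ν' + 1 = 0 := by
      have : ν' * ν' + ν' + 1 = k * (ν * ν + ν + 1) * ((k⁻¹ : (Module.End F V)ˣ) : Module.End F V) := by
        simp only [ν', mul_assoc, Units.inv_mul_cancel_left, mul_add, add_mul, one_mul, Units.mul_inv]
      rw [this, hν1]; simp
    have hν'2 : (f : Module.End F V) * ν' = ν' * f := by
      simp only [Units.val_mul] at hν3
      calc (f : Module.End F V) * ν' = k * (((k⁻¹ : (Module.End F V)ˣ) : Module.End F V) *
            f * k * ν) * ((k⁻¹ : (Module.End F V)ˣ) : Module.End F V) := by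
            simp only [ν', mul_assoc, Units.mul_inv_cancel_left]
        _ = _ := by
            rw [hν3]
            simp only [ν', mul_assoc, Units.mul_inv, mul_one]
    have e1 := two_roots f hi ω ν h1 h2 hν1 hν2
    have e2 := two_roots f hi ω ν' h1 h2 hν'1 hν'2
    have hmem : k ∈ T ν ν' := hk
    rcases e1 with e1 | e1 <;> rcases e2 with e2 | e2 <;> rw [e1, e2] at hmem
    · exact Or.inl (Or.inl hmem)
    · exact Or.inl (Or.inr hmem)
    · exact Or.inr (Or.inl hmem)
    · exact Or.inr (Or.inr hmem)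
  refine (Set.ncard_le_ncard hsub (Set.toFinite _)).trans ?_
  refine (Set.ncard_union_le _ _).trans ?_
  have a1 := Set.ncard_union_le (T ω ω) (T ω (-1 - ω))
  have a2 := Set.ncard_union_le (T (-1 - ω) ω) (T (-1 - ω) (-1 - ω))
  have b1 : (T ω ω).ncard ≤ Nat.card F ^ 8 := card_conj h4 h1 hF ω
  have b2 : (T ω (-1 - ω)).ncard ≤ Nat.card F ^ 8 := card_conj h4 h1 hF _
  have b3 : (T (-1 - ω) ω).ncard ≤ Nat.card F ^ 8 := card_conj h4 h1' hF _
  have b4 : (T (-1 - ω) (-1 - ω)).ncard ≤ Nat.card F ^ 8 := card_conj h4 h1' hF _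
  omega

end Cnt

end Pool.Agent.Q21.SG
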