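import Pool.Agent.Q21.SG.G

namespace Pool.Agent.Q21.SG

/-- The arithmetic hypotheses on the extension of degree five. -/
class Setup (F E : Type) [Field F] [Finite F] [Field E] [Finite E] [Algebra F E] : Prop where
  rank5 : Module.finrank F E = 5
  two : (2 : F) = 0
  mod5 : Nat.card F % 5 = 2 ∨ Nat.card F % 5 = 3
  mod3 : Nat.card F % 3 = 2

section S

theorem pow_card_sub {K : Type*} [Field K] [Finite K] (c : K) (hc : c ≠ 0) :
    c ^ (Nat.card K - 1) = 1 := by
  have := Fintype.ofFinite K
  rw [Nat.card_eq_fintype_card]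
  exact FiniteField.pow_card_sub_one_eq_one c hc

variable (F E : Type) [Field F] [Finite F] [Field E] [Finite E] [Algebra F E] [st : Setup F E]

include st

theorem five_root (c : F) (hc : c ^ 5 = 1) : c = 1 := by
  have h0 : c ≠ 0 := by rintro rfl; norm_num at hc
  have h1 := pow_card_sub c h0
  rcases st.mod5 with h | h
  · have e : Nat.card F - 1 = 5 * ((Nat.card F - 1) / 5) + 1 := by omega
    rw [e, pow_add, pow_mul, hc, one_pow, one_mul, pow_one] at h1
    exact h1
  · have e : Nat.card F - 1 = 5 * ((Nat.card F - 1) / 5) + 2 := by omega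
    rw [e, pow_add, pow_mul, hc, one_pow, one_mul] at h1
    calc c = c ^ 5 := by rw [show (5 : ℕ) = 2 + 2 + 1 by norm_num, pow_add, pow_add, h1]; ring
      _ = 1 := hc

theorem four_root (c : F) (hc : c ^ 4 = 1) : c = 1 := by
  have h2 := st.two
  have : (c - 1) ^ 4 = 0 := by
    linear_combination hc + (-2 * c ^ 3 + 3 * c ^ 2 - 2 * c + 1) * h2
  have := pow_eq_zero_iff (n := 4) (by norm_num) |>.1 this
  exact sub_eq_zero.1 this

theorem no_root (t : F) : t * t + t + 1 ≠ 0 := by
  intro h
  have h2 := st.two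
  have h0 : t ≠ 0 := by rintro rfl; norm_num at h
  have h3 : t ^ 3 = 1 := by linear_combination (t - 1) * h
  have h1 := pow_card_sub t h0
  have hm := st.mod3
  have h4 : t ^ 1 = 1 := by
    have e : Nat.card F - 1 = 3 * ((Nat.card F - 1) / 3) + 1 := by omega
    rw [e, pow_add, pow_mul, h3, one_pow, one_mul] at h1
    exact h1
  rw [pow_one] at h4
  rw [h4] at h
  have : (1 : F) = 0 := by linear_combination h - h2
  exact one_ne_zero this

instance : FiniteDimensional F E := Module.Finite.of_finite

/-- the generator of the Galois group -/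
noncomputable def fr : E ≃ₐ[F] E :=
  haveI := Fintype.ofFinite F
  FiniteField.frobeniusAlgEquivOfAlgebraic F E

omit st in
theorem fr_eq (inst : Fintype F) : fr F E = FiniteField.frobeniusAlgEquivOfAlgebraic F E := by
  have h : inst = Fintype.ofFinite F := Subsingleton.elim _ _
  subst h
  rfl

omit st in
theorem fr_apply (x : E) : fr F E x = x ^ Nat.card F := by
  simp [fr, Fintype.card_eq_nat_card]

theorem exists_fr_pow (α : E ≃ₐ[F] E) : ∃ i < 5, fr F E ^ i = α := by
  have := Fintype.ofFinite F
  obtain ⟨⟨i, hi⟩, rfl⟩ := (FiniteField.bijective_frobeniusAlgEquivOfAlgebraic_pow F E).2 α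
  rw [st.rank5] at hi
  exact ⟨i, hi, by rw [fr_eq F E this]⟩

theorem fr_pow_five : fr F E ^ 5 = 1 := by
  have inst := Fintype.ofFinite F
  have h := FiniteField.orderOf_frobeniusAlgEquivOfAlgebraic F E
  rw [st.rank5] at h
  have := pow_orderOf_eq_one (FiniteField.frobeniusAlgEquivOfAlgebraic F E)
  rw [h] at this
  rw [← this, fr_eq F E inst]

theorem fr_ne_one : fr F E ≠ 1 := by
  intro hc
  have := Fintype.ofFinite F
  have h := FiniteField.orderOf_frobeniusAlgEquivOfAlgebraic F E
  rw [st.rank5] at h
  have e : FiniteField.frobeniusAlgEquivOfAlgebraic F E = fr F E := (fr_eq F E this).symm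
  rw [e, hc, orderOf_one] at h
  norm_num at h

theorem fr_fixed {x : E} (h : fr F E x = x) : ∃ c : F, algebraMap F E c = x := by
  have h1 : ∀ α : E ≃ₐ[F] E, α x = x := by
    intro α
    obtain ⟨i, _, rfl⟩ := exists_fr_pow F E α
    induction i with
    | zero => simp
    | succ i ih => rw [pow_succ, AlgEquiv.mul_apply, h, ih (by omega)]
  have := (IsGalois.mem_bot_iff_fixed (F := F) (E := E) x).2 h1
  rw [IntermediateField.mem_bot] at this
  exact this

end S

end Pool.Agent.Q21.SG
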