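import Pool.Agent.Q21.SG.H

namespace Pool.Agent.Q21.SG

set_option linter.unusedSectionVars false

section S

variable (F E : Type) [Field F] [Finite F] [Field E] [Finite E] [Algebra F E]

/-- multiplications -/
noncomputable def mm : Eˣ →* (Module.End F E)ˣ := Units.map (Algebra.lmul F E : E →* Module.End F E)

@[simp] theorem mm_apply (e : Eˣ) (v : E) : (mm F E e : Module.End F E) v = e * v := rfl

/-- automorphisms as linear maps -/
noncomputable def gal : (E ≃ₐ[F] E) →* (Module.End F E)ˣ :=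
  MonoidHom.toHomUnits
    { toFun := fun α => α.toLinearMap
      map_one' := rfl
      map_mul' := fun _ _ => rfl }

@[simp] theorem gal_apply (α : E ≃ₐ[F] E) (v : E) : (gal F E α : Module.End F E) v = α v := rfl

variable {F E}

theorem val_mul_apply (g h : (Module.End F E)ˣ) (v : E) :
    ((g * h : (Module.End F E)ˣ) : Module.End F E) v = (g : Module.End F E) ((h : Module.End F E) v) :=
  rfl

theorem inv_val_apply (g : (Module.End F E)ˣ) (v : E) :
    ((g⁻¹ : (Module.End F E)ˣ) : Module.End F E) ((g : Module.End F E) v) = v := by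
  rw [← val_mul_apply, inv_mul_cancel]; rfl

theorem val_inv_apply (g : (Module.End F E)ˣ) (v : E) :
    (g : Module.End F E) (((g⁻¹ : (Module.End F E)ˣ) : Module.End F E) v) = v := by
  rw [← val_mul_apply, mul_inv_cancel]; rfl

theorem val_inj (g : (Module.End F E)ˣ) {v w : E} (h : (g : Module.End F E) v = (g : Module.End F E) w) :
    v = w := by
  rw [← inv_val_apply g v, h, inv_val_apply]

theorem val_ne_zero (g : (Module.End F E)ˣ) {v : E} (h : v ≠ 0) : (g : Module.End F E) v ≠ 0 := by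
  intro h0
  apply h
  apply val_inj g
  rw [h0, map_zero]

/-- `g` is semilinear over `E` with automorphism `α`. -/
def Semi (g : (Module.End F E)ˣ) (α : E ≃ₐ[F] E) : Prop :=
  ∀ e v : E, (g : Module.End F E) (e * v) = α e * (g : Module.End F E) v

theorem Semi.mul {g h : (Module.End F E)ˣ} {α β : E ≃ₐ[F] E} (hg : Semi g α) (hh : Semi h β) :
    Semi (g * h) (α * β) := by
  intro e v
  rw [val_mul_apply, hh, hg, val_mul_apply]; rfl

theorem Semi.inv {g : (Module.End F E)ˣ} {α : E ≃ₐ[F] E} (hg : Semi g α) : Semi g⁻¹ α⁻¹ := by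
  intro e v
  apply val_inj g
  rw [val_inv_apply, hg, val_inv_apply, ← AlgEquiv.mul_apply, mul_inv_cancel]; rfl

theorem semi_one : Semi (1 : (Module.End F E)ˣ) 1 := fun _ _ => rfl

theorem Semi.pow {g : (Module.End F E)ˣ} {α : E ≃ₐ[F] E} (hg : Semi g α) (n : ℕ) :
    Semi (g ^ n) (α ^ n) := by
  induction n with
  | zero => simpa using semi_one
  | succ n ih => rw [pow_succ, pow_succ]; exact ih.mul hg

theorem semi_mm (e : Eˣ) : Semi (mm F E e) 1 := by
  intro x v
  simp only [mm_apply, AlgEquiv.one_apply]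
  ring

theorem semi_gal (α : E ≃ₐ[F] E) : Semi (gal F E α) α := by
  intro x v
  simp

theorem Semi.eq_mm {g : (Module.End F E)ˣ} (hg : Semi g 1) : ∃ e : Eˣ, g = mm F E e := by
  refine ⟨Units.mk0 ((g : Module.End F E) 1) (val_ne_zero g one_ne_zero), ?_⟩
  apply Units.ext
  ext v
  have := hg v 1
  rw [mul_one] at this
  rw [this, mm_apply, Units.val_mk0, mul_comm]; rfl

theorem Semi.unique {g : (Module.End F E)ˣ} {α β : E ≃ₐ[F] E} (h1 : Semi g α) (h2 : Semi g β) :
    α = β := by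
  ext e
  have e1 := h1 e 1
  rw [h2 e 1] at e1
  exact (mul_right_cancel₀ (val_ne_zero g one_ne_zero) e1).symm

theorem exists_semi {g : (Module.End F E)ˣ}
    (h : ∀ e : E, ∃ e' : E, ∀ v : E, (g : Module.End F E) (e * v) = e' * (g : Module.End F E) v) :
    ∃ α : E ≃ₐ[F] E, Semi g α := by
  choose α hα using h
  have hg1 : (g : Module.End F E) 1 ≠ 0 := val_ne_zero g one_ne_zero
  let A : E →ₐ[F] E :=
    { toFun := α
      map_one' := by
        have := hα 1 1
        rw [one_mul] at this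
        exact (mul_right_cancel₀ hg1 (by rw [one_mul]; exact this)).symm
      map_mul' := fun x y => by
        have e1 := hα (x * y) 1
        have e2 : (g : Module.End F E) (x * y * 1) = α x * α y * (g : Module.End F E) 1 := by
          rw [mul_assoc, hα, hα, mul_assoc]
        rw [e2] at e1
        exact (mul_right_cancel₀ hg1 e1).symm
      map_zero' := by
        have := hα 0 1
        rw [zero_mul, map_zero] at this
        exact (mul_eq_zero.1 this.symm).resolve_right hg1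
      map_add' := fun x y => by
        have e1 := hα (x + y) 1
        have e2 : (g : Module.End F E) ((x + y) * 1) = (α x + α y) * (g : Module.End F E) 1 := by
          rw [add_mul, map_add, hα, hα, add_mul]
        rw [e2] at e1
        exact (mul_right_cancel₀ hg1 e1).symm
      commutes' := fun c => by
        have e1 := hα (algebraMap F E c) 1
        have e2 : (g : Module.End F E) (algebraMap F E c * 1) =
            algebraMap F E c * (g : Module.End F E) 1 := by
          rw [← Algebra.smul_def, map_smul, Algebra.smul_def]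
        rw [e2] at e1
        exact (mul_right_cancel₀ hg1 e1).symm }
  refine ⟨AlgEquiv.ofBijective A ?_, fun e v => hα e v⟩
  exact ⟨A.injective, Finite.surjective_of_injective A.injective⟩

variable [st : Setup F E]

include st

variable (F E) in
theorem card_even : 2 ∣ Nat.card F := by
  have h : addOrderOf (1 : F) ∣ Nat.card F := addOrderOf_dvd_natCard _
  have h2 : addOrderOf (1 : F) = 2 := by
    have : Fact (Nat.Prime 2) := ⟨by norm_num⟩
    apply addOrderOf_eq_prime
    · rw [two_nsmul]; have := st.two; rw [← this]; norm_num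
    · exact one_ne_zero
  rwa [h2] at h

variable (F E) in
/-- the norm exponent -/
theorem norm_pow (e : E) : ∃ c : F, algebraMap F E c =
    e ^ (1 + Nat.card F + Nat.card F ^ 2 + Nat.card F ^ 3 + Nat.card F ^ 4) := by
  refine ⟨Algebra.norm F e, ?_⟩
  rw [FiniteField.algebraMap_norm_eq_pow_sum, st.rank5]
  congr 1
  simp [Finset.sum_range_succ]

variable (F E) in
theorem card_mod : (1 + Nat.card F + Nat.card F ^ 2 + Nat.card F ^ 3 + Nat.card F ^ 4).Coprime 120 := by
  have h2 := card_even F E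
  have h3 := st.mod3
  have h5 := st.mod5
  set q := Nat.card F
  have e2 : (1 + q + q ^ 2 + q ^ 3 + q ^ 4) % 2 = 1 := by
    have : q % 2 = 0 := by omega
    simp [Nat.add_mod, Nat.pow_mod, this]
  have e3 : (1 + q + q ^ 2 + q ^ 3 + q ^ 4) % 3 = 1 := by
    simp [Nat.add_mod, Nat.pow_mod, h3]
  have e5 : (1 + q + q ^ 2 + q ^ 3 + q ^ 4) % 5 = 1 := by
    rcases h5 with h | h <;> simp [Nat.add_mod, Nat.pow_mod, h]
  set N := 1 + q + q ^ 2 + q ^ 3 + q ^ 4
  have c2 : Nat.Coprime N 2 := by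
    rw [Nat.coprime_comm, Nat.prime_two.coprime_iff_not_dvd]; omega
  have c3 : Nat.Coprime N 3 := by
    rw [Nat.coprime_comm, Nat.prime_three.coprime_iff_not_dvd]; omega
  have c5 : Nat.Coprime N 5 := by
    rw [Nat.coprime_comm, Nat.prime_five.coprime_iff_not_dvd]; omega
  have : Nat.Coprime N (2 ^ 3 * 3 * 5) := ((c2.pow_right 3).mul_right c3).mul_right c5
  exact this

variable (F E) in
/-- the elements of `F` inside `Eˣ` -/
def Fx : Subgroup Eˣ := (Units.map (algebraMap F E : F →* E)).range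

omit st in
theorem mem_Fx {e : Eˣ} : e ∈ Fx F E ↔ ∃ c : F, algebraMap F E c = e := by
  constructor
  · rintro ⟨c, rfl⟩; exact ⟨c, rfl⟩
  · rintro ⟨c, hc⟩
    have hc0 : c ≠ 0 := by
      rintro rfl
      rw [map_zero] at hc
      exact e.ne_zero hc.symm
    exact ⟨Units.mk0 c hc0, Units.ext hc⟩

omit st in
theorem mem_of_coprime {G : Type*} [Group G] (H : Subgroup G) {x : G} {a b : ℕ} (h : a.Coprime b)
    (ha : x ^ a ∈ H) (hb : x ^ b ∈ H) : x ∈ H := by
  have h1 : (a : ℤ) * a.gcdA b + b * a.gcdB b = 1 := by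
    have := Nat.gcd_eq_gcd_ab a b
    rw [← this, h]; rfl
  have : x = (x ^ a) ^ (a.gcdA b) * (x ^ b) ^ (a.gcdB b) := by
    rw [← zpow_natCast, ← zpow_natCast, ← zpow_mul, ← zpow_mul, ← zpow_add, h1, zpow_one]
  rw [this]
  exact mul_mem (H.zpow_mem ha _) (H.zpow_mem hb _)

theorem pow120 {e : Eˣ} (he : e ∉ Fx F E) : e ^ 120 ∉ Fx F E := by
  intro h
  apply he
  refine mem_of_coprime (Fx F E) (card_mod F E) ?_ h
  rw [mem_Fx]
  obtain ⟨c, hc⟩ := norm_pow F E e
  exact ⟨c, by rw [hc]; simp⟩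

theorem decomp (e : Eˣ) : ∃ z ∈ Fx F E, ∃ c : Eˣ, e = z * c ^ (Nat.card F - 1) := by
  set q := Nat.card F with hq
  have hq1 : 1 ≤ q := Nat.card_pos
  have h5 := st.mod5
  have hcop : Nat.Coprime (1 + q + q ^ 2 + q ^ 3 + q ^ 4) (q - 1) := by
    have h1 : Nat.Coprime 5 (q - 1) := by
      rw [Nat.prime_five.coprime_iff_not_dvd]; omega
    have h2 : 1 + q + q ^ 2 + q ^ 3 + q ^ 4 = 5 + (q - 1) * (q ^ 3 + 2 * q ^ 2 + 3 * q + 4) := by
      obtain ⟨r, hr⟩ : ∃ r, q = r + 1 := ⟨q - 1, by omega⟩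
      rw [hr, Nat.add_sub_cancel]; ring
    rw [h2]
    simpa using h1
  set N := 1 + q + q ^ 2 + q ^ 3 + q ^ 4 with hN
  have h1 : (N : ℤ) * N.gcdA (q - 1) + ((q - 1 : ℕ) : ℤ) * N.gcdB (q - 1) = 1 := by
    have := Nat.gcd_eq_gcd_ab N (q - 1)
    rw [← this, hcop]; rfl
  have hN2 : e ^ N ∈ Fx F E := by
    rw [mem_Fx]
    obtain ⟨c, hc⟩ := norm_pow F E e
    exact ⟨c, by rw [hc]; simp [hN, hq]⟩
  refine ⟨(e ^ N) ^ (N.gcdA (q - 1)), (Fx F E).zpow_mem hN2 _, e ^ (N.gcdB (q - 1)), ?_⟩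
  have : e = (e ^ N) ^ (N.gcdA (q - 1)) * (e ^ (q - 1)) ^ (N.gcdB (q - 1)) := by
    rw [← zpow_natCast, ← zpow_natCast, ← zpow_mul, ← zpow_mul, ← zpow_add, h1, zpow_one]
  conv_lhs => rw [this]
  congr 1
  rw [← zpow_natCast, ← zpow_natCast, ← zpow_mul, ← zpow_mul, mul_comm]

/-- Frobenius-type elements are conjugates of `fr` up to scalars -/
theorem Semi.conj_fr {g : (Module.End F E)ˣ} (hg : Semi g (fr F E)) :
    ∃ z ∈ Zs F E, ∃ c : Eˣ, g = z * ((mm F E c)⁻¹ * gal F E (fr F E) * mm F E c) := by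
  have h1 : Semi (g * (gal F E (fr F E))⁻¹) 1 := by
    have := hg.mul (semi_gal (fr F E)).inv
    rwa [mul_inv_cancel] at this
  obtain ⟨e, he⟩ := h1.eq_mm
  obtain ⟨z, hz, c, rfl⟩ := decomp (F := F) e
  refine ⟨mm F E z, ?_, c, ?_⟩
  · obtain ⟨d, hd⟩ := mem_Fx.1 hz
    refine mem_Zs ⟨d, fun v => ?_⟩
    rw [mm_apply, ← hd, Algebra.smul_def]
  · rw [mul_inv_eq_iff_eq_mul] at he
    rw [he, map_mul, mul_assoc]
    congr 1
    apply Units.ext
    ext v
    simp only [val_mul_apply, mm_apply, gal_apply, map_mul, fr_apply]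
    apply val_inj (mm F E c)
    rw [val_inv_apply]
    simp only [mm_apply, Units.val_pow_eq_pow_val]
    have : (c : E) ^ Nat.card F = c * c ^ (Nat.card F - 1) := by
      rw [← pow_succ']; congr 1
      have : 0 < Nat.card F := Nat.card_pos
      omega
    rw [this]; ring

theorem Semi.exists_pow {g : (Module.End F E)ˣ} {α : E ≃ₐ[F] E} (hg : Semi g α) (hα : α ≠ 1) :
    ∃ k : ℕ, ∃ z ∈ Zs F E, ∃ c : Eˣ,
      g ^ k = z * ((mm F E c)⁻¹ * gal F E (fr F E) * mm F E c) := by
  obtain ⟨i, hi, rfl⟩ := exists_fr_pow F E α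
  obtain ⟨k, hk⟩ : ∃ k, (i * k) % 5 = 1 := by
    interval_cases i
    · exact absurd (pow_zero _) hα
    · exact ⟨1, rfl⟩
    · exact ⟨3, rfl⟩
    · exact ⟨2, rfl⟩
    · exact ⟨4, rfl⟩
  refine ⟨k, ?_⟩
  apply Semi.conj_fr
  have := hg.pow k
  have h1 : (fr F E ^ i) ^ k = fr F E := by
    rw [← pow_mul]
    conv_lhs => rw [← Nat.div_add_mod (i * k) 5, hk, pow_add, pow_mul, fr_pow_five, one_pow,
      one_mul, pow_one]
  rwa [h1] at this

theorem Semi.eq_one {g : (Module.End F E)ˣ} {α : E ≃ₐ[F] E} (hg : Semi g α) {n : ℕ}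
    (hn : n.Coprime 5) (hgn : Semi (g ^ n) 1) : α = 1 := by
  have h1 : α ^ n = 1 := (hg.pow n).unique hgn
  have h2 : α ^ 5 = 1 := by
    obtain ⟨i, hi, rfl⟩ := exists_fr_pow F E α
    rw [← pow_mul, mul_comm, pow_mul, fr_pow_five, one_pow]
  have := mem_of_coprime (⊥ : Subgroup (E ≃ₐ[F] E)) hn (by simpa using h1) (by simpa using h2)
  simpa using this

end S

end Pool.Agent.Q21.SG
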