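import Pool.Agent.Q21.SG.I

namespace Pool.Agent.Q21.SG

set_option linter.unusedSectionVars false

section S

variable {F E : Type} [Field F] [Finite F] [Field E] [Finite E] [Algebra F E] [st : Setup F E]

include st

theorem sub_top (S : Subalgebra F E) {e : E} (he : e ∈ S) (hne : ¬ ∃ c : F, algebraMap F E c = e) :
    S = ⊤ := by
  have : IsSimpleOrder (Subalgebra F E) :=
    Subalgebra.isSimpleOrder_of_finrank_prime F E (by rw [st.rank5]; norm_num)
  rcases eq_bot_or_eq_top S with h | h
  · exfalso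
    apply hne
    rw [h, Algebra.mem_bot] at he
    exact he
  · exact h

theorem irr_mm {e : Eˣ} (he : e ∉ Fx F E) (U : Submodule F E) (hU : mapP (mm F E e) U = U) :
    U = ⊥ ∨ U = ⊤ := by
  by_cases h : U = ⊥
  · exact Or.inl h
  right
  obtain ⟨w, hw, hw0⟩ := (Submodule.ne_bot_iff U).1 h
  let S : Subalgebra F E :=
    { carrier := {x | ∀ v ∈ U, x * v ∈ U}
      mul_mem' := fun {a b} ha hb v hv => by rw [mul_assoc]; exact ha _ (hb _ hv)
      add_mem' := fun {a b} ha hb v hv => by rw [add_mul]; exact U.add_mem (ha _ hv) (hb _ hv)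
      algebraMap_mem' := fun r v hv => by rw [← Algebra.smul_def]; exact U.smul_mem _ hv }
  have hS : S = ⊤ := by
    refine sub_top S (e := (e : E)) ?_ (fun h => he (mem_Fx.2 h))
    intro v hv
    rw [← hU, mapP_apply]
    exact ⟨v, hv, rfl⟩
  rw [eq_top_iff]
  intro v _
  have : v * w⁻¹ ∈ S := by rw [hS]; trivial
  have := this w hw
  rwa [mul_assoc, inv_mul_cancel₀ hw0, mul_one] at this

theorem mm_mem_Zs {e : Eˣ} : mm F E e ∈ Zs F E ↔ e ∈ Fx F E := by
  constructor
  · intro h
    obtain ⟨c, _, hc⟩ := exists_of_mem_Zs h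
    rw [mem_Fx]
    refine ⟨c, ?_⟩
    have := hc 1
    rw [mm_apply, mul_one, Algebra.smul_def, mul_one] at this
    exact this.symm
  · intro h
    obtain ⟨d, hd⟩ := mem_Fx.1 h
    refine mem_Zs ⟨d, fun v => ?_⟩
    rw [mm_apply, ← hd, Algebra.smul_def]

/-- Soluble groups containing a nonscalar element of `Eˣ` normalise `E`. -/
theorem lemB (K : Subgroup (Module.End F E)ˣ) (hs : Group.IsSolvable K) {e : Eˣ}
    (he : e ∉ Fx F E) (heK : mm F E e ∈ K) : ∀ k ∈ K, ∃ α : E ≃ₐ[F] E, Semi k α := by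
  obtain ⟨A, hA1, hA2, hA3, hA4, hA5⟩ := exists_abelian
    (by rw [st.rank5]; exact five_root F E) K hs (fun h => he (mm_mem_Zs.1 (h heK)))
  obtain ⟨-, h1⟩ := irr_field A hA5 5 st.rank5.le (mm F E e) (hA2 _ heK) (hA3 _ heK) (by
    intro U hU
    rw [← map_pow] at hU
    exact irr_mm (pow120 he) U hU)
  have hAm : ∀ a ∈ A, ∃ b : Eˣ, a = mm F E b := by
    intro a ha
    apply Semi.eq_mm
    have hc := h1 a ha
    rw [← map_pow] at hc
    let S : Subalgebra F E :=
      { carrier := {x | ∀ v : E, (a : Module.End F E) (x * v) = x * (a : Module.End F E) v}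
        mul_mem' := fun {x y} hx hy v => by rw [mul_assoc, hx, hy, mul_assoc]
        add_mem' := fun {x y} hx hy v => by rw [add_mul, map_add, hx, hy, add_mul]
        algebraMap_mem' := fun r v => by rw [← Algebra.smul_def, map_smul, Algebra.smul_def] }
    have hS : S = ⊤ := by
      refine sub_top S (e := ((e ^ Nat.factorial 5 : Eˣ) : E)) ?_ (fun h => pow120 he (mem_Fx.2 h))
      intro v
      have := congrArg (fun g : (Module.End F E)ˣ => (g : Module.End F E) v) hc
      simp only [val_mul_apply, mm_apply] at this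
      exact this.symm
    intro x v
    have : x ∈ S := by rw [hS]; trivial
    exact this v
  obtain ⟨a, ha, haZ⟩ : ∃ a ∈ A, a ∉ Zs F E := by
    by_contra hcon
    push Not at hcon
    exact hA4 hcon
  obtain ⟨b, rfl⟩ := hAm a ha
  have hb : b ∉ Fx F E := fun h => haZ (mm_mem_Zs.2 h)
  intro k hk
  obtain ⟨b', hb'⟩ := hAm _ (hA2 k hk _ ha)
  apply exists_semi
  let S : Subalgebra F E :=
    { carrier := {x | ∃ y : E, ∀ v : E, (k : Module.End F E) (x * v) = y * (k : Module.End F E) v}
      mul_mem' := by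
        rintro x x' ⟨y, hy⟩ ⟨y', hy'⟩
        exact ⟨y * y', fun v => by rw [mul_assoc, hy, hy', mul_assoc]⟩
      add_mem' := by
        rintro x x' ⟨y, hy⟩ ⟨y', hy'⟩
        exact ⟨y + y', fun v => by rw [add_mul, map_add, hy, hy', add_mul]⟩
      algebraMap_mem' := fun r => ⟨algebraMap F E r, fun v => by
        rw [← Algebra.smul_def, map_smul, Algebra.smul_def]⟩ }
  have hS : S = ⊤ := by
    refine sub_top S (e := (b : E)) ⟨b', fun v => ?_⟩ (fun h => hb (mem_Fx.2 h))
    rw [mul_inv_eq_iff_eq_mul] at hb'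
    have := congrArg (fun g : (Module.End F E)ˣ => (g : Module.End F E) v) hb'
    simpa only [val_mul_apply, mm_apply] using this
  intro x
  have : x ∈ S := by rw [hS]; trivial
  exact this

end S

end Pool.Agent.Q21.SG
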