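import Pool.Agent.Q21.SG.J

namespace Pool.Agent.Q21.SG

set_option linter.unusedSectionVars false

section P

theorem isSolvable_map {G H : Type*} [Group G] [Group H] (f : G →* H) (K : Subgroup G)
    (h : Group.IsSolvable K) : Group.IsSolvable (K.map f) :=
  Group.isSolvable_of_surjective (f.subgroupMap_surjective K)

theorem isSolvable_of_le {G : Type*} [Group G] {K L : Subgroup G} (hKL : K ≤ L)
    (h : Group.IsSolvable L) : Group.IsSolvable K :=
  Group.isSolvable_of_isSolvable_injective (Subgroup.inclusion_injective hKL)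

theorem isSolvable_closure_comm {G : Type*} [Group G] (s : Set G)
    (h : ∀ a ∈ s, ∀ b ∈ s, a * b = b * a) : Group.IsSolvable (Subgroup.closure s) := by
  apply Group.isSolvable_of_comm
  intro a b
  exact (Subgroup.isMulCommutative_closure h).is_comm.comm a b

variable {F E : Type} [Field F] [Finite F] [Field E] [Finite E] [Algebra F E]

theorem Zs_central {z : (Module.End F E)ˣ} (hz : z ∈ Zs F E) (g : (Module.End F E)ˣ) :
    z * g = g * z := by
  obtain ⟨c, _, hc⟩ := exists_of_mem_Zs hz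
  apply Units.ext
  ext v
  rw [val_mul_apply, val_mul_apply, hc, hc, map_smul]

/-- `a` and `b` lie in a common soluble group containing the scalars -/
def SolP (a b : (Module.End F E)ˣ) : Prop :=
  ∃ K : Subgroup (Module.End F E)ˣ, Group.IsSolvable K ∧ Zs F E ≤ K ∧ a ∈ K ∧ b ∈ K

theorem SolP.symm {a b : (Module.End F E)ˣ} (h : SolP a b) : SolP b a := by
  obtain ⟨K, h1, h2, h3, h4⟩ := h
  exact ⟨K, h1, h2, h4, h3⟩

theorem SolP.conj {a b : (Module.End F E)ˣ} (h : SolP a b) (g : (Module.End F E)ˣ) :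
    SolP (g * a * g⁻¹) (g * b * g⁻¹) := by
  obtain ⟨K, h1, h2, h3, h4⟩ := h
  refine ⟨K.map (MulAut.conj g).toMonoidHom, isSolvable_map _ K h1, ?_, ⟨a, h3, rfl⟩, ⟨b, h4, rfl⟩⟩
  intro z hz
  refine ⟨z, h2 hz, ?_⟩
  change g * z * g⁻¹ = z
  rw [← Zs_central hz, mul_inv_cancel_right]

theorem SolP.right {a b : (Module.End F E)ˣ} (h : SolP a b) : SolP b b := by
  obtain ⟨K, h1, h2, h3, h4⟩ := h
  exact ⟨K, h1, h2, h4, h4⟩

theorem SolP.left {a b : (Module.End F E)ˣ} (h : SolP a b) : SolP a a := by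
  obtain ⟨K, h1, h2, h3, h4⟩ := h
  exact ⟨K, h1, h2, h3, h3⟩

theorem SolP.self (a : (Module.End F E)ˣ) : SolP a a := by
  refine ⟨Subgroup.closure (insert a (Zs F E)), ?_, ?_, ?_, ?_⟩
  · apply isSolvable_closure_comm
    rintro x (rfl | hx) y (rfl | hy)
    · rfl
    · exact (Zs_central hy x).symm
    · exact Zs_central hx y
    · exact Zs_central hx y
  · exact fun z hz => Subgroup.subset_closure (Or.inr hz)
  · exact Subgroup.subset_closure (Or.inl rfl)
  · exact Subgroup.subset_closure (Or.inl rfl)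

variable (F E) in
/-- The bad set. -/
def Sset : Set (Module.End F E)ˣ :=
  {h | ∃ K : Subgroup (Module.End F E)ˣ, Group.IsSolvable K ∧ gal F E (fr F E) ∈ K ∧
    h⁻¹ * gal F E (fr F E) * h ∈ K}

variable [st : Setup F E]

include st

theorem card_unit : Nat.card Eˣ = Nat.card F ^ 5 - 1 := by
  rw [Nat.card_units, Module.natCard_eq_pow_finrank (K := F) (V := E), st.rank5]

theorem coprime_unit : (Nat.card Eˣ).Coprime 5 := by
  rw [card_unit (F := F), Nat.coprime_comm, Nat.prime_five.coprime_iff_not_dvd]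
  have h1 : 1 ≤ Nat.card F ^ 5 := Nat.one_le_pow _ _ Nat.card_pos
  intro h
  rcases st.mod5 with h5 | h5
  · have : Nat.card F ^ 5 % 5 = 2 := by simp [Nat.pow_mod, h5]
    omega
  · have : Nat.card F ^ 5 % 5 = 3 := by simp [Nat.pow_mod, h5]
    omega

/-- if `v` normalises `E` and is conjugate into `Eˣ`, it is in `Eˣ` -/
theorem Semi.eq_one_of_conj {v g : (Module.End F E)ˣ} {γ : E ≃ₐ[F] E} (h : Semi v γ)
    {e : Eˣ} (he : g * v * g⁻¹ = mm F E e) : γ = 1 := by
  apply h.eq_one (coprime_unit (F := F) (E := E))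
  have h1 : (g * v * g⁻¹) ^ Nat.card Eˣ = 1 := by
    rw [he, ← map_pow, pow_card_eq_one', map_one]
  rw [conj_pow] at h1
  have h2 : v ^ Nat.card Eˣ = 1 := by
    rw [mul_inv_eq_one] at h1
    exact mul_eq_left.1 h1
  rw [h2]
  exact semi_one

theorem path_lemma {e : Eˣ} (he : e ∉ Fx F E) (g u v : (Module.End F E)ˣ)
    (hu : u ∉ Zs F E) (hv : v ∉ Zs F E) (h1 : SolP (mm F E e) u) (h2 : SolP u v)
    (h3 : SolP v (g⁻¹ * mm F E e * g)) :
    ∃ c c' : Eˣ, mm F E c' * g * (mm F E c)⁻¹ ∈ Sset F E := by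
  have h3' := h3.conj g
  have e1 : g * (g⁻¹ * mm F E e * g) * g⁻¹ = mm F E e := by group
  rw [e1] at h3'
  have h2' := h2.conj g
  have hgv : g * v * g⁻¹ ∉ Zs F E := by
    intro h
    apply hv
    have := Zs_central h g
    have e2 : v = g * v * g⁻¹ := by
      have e3 : g * v * g⁻¹ * g = g * (g * v * g⁻¹) := this
      rw [inv_mul_cancel_right] at e3
      exact mul_left_cancel e3
    rw [e2]; exact h
  obtain ⟨α, hα⟩ : ∃ α : E ≃ₐ[F] E, Semi u α := by
    obtain ⟨K, k1, -, k3, k4⟩ := h1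
    exact lemB K k1 he k3 _ k4
  obtain ⟨β, hβ⟩ : ∃ α : E ≃ₐ[F] E, Semi (g * v * g⁻¹) α := by
    obtain ⟨K, k1, -, k3, k4⟩ := h3'
    exact lemB K k1 he k4 _ k3
  have main : ∃ a b : (Module.End F E)ˣ, SolP a b ∧ (∃ α, Semi a α ∧ α ≠ 1) ∧
      ∃ β, Semi (g * b * g⁻¹) β ∧ β ≠ 1 := by
    by_cases hα1 : α = 1
    · subst hα1
      obtain ⟨e1, rfl⟩ := hα.eq_mm
      have he1 : e1 ∉ Fx F E := fun h => hu (mm_mem_Zs.2 h)
      obtain ⟨γ, hγ⟩ : ∃ α : E ≃ₐ[F] E, Semi v α := by
        obtain ⟨K, k1, -, k3, k4⟩ := h2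
        exact lemB K k1 he1 k3 _ k4
      by_cases hβ1 : β = 1
      · subst hβ1
        obtain ⟨e2, he2⟩ := hβ.eq_mm
        have hγ1 := hγ.eq_one_of_conj he2
        subst hγ1
        obtain ⟨e3, rfl⟩ := hγ.eq_mm
        have he3 : e3 ∉ Fx F E := fun h => hv (mm_mem_Zs.2 h)
        obtain ⟨δ, hδ⟩ : ∃ δ : E ≃ₐ[F] E, Semi g δ := by
          apply exists_semi
          let S : Subalgebra F E :=
            { carrier := {x | ∃ y : E, ∀ v : E, (g : Module.End F E) (x * v) = y * (g : Module.End F E) v}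
              mul_mem' := by
                rintro x x' ⟨y, hy⟩ ⟨y', hy'⟩
                exact ⟨y * y', fun v => by rw [mul_assoc, hy, hy', mul_assoc]⟩
              add_mem' := by
                rintro x x' ⟨y, hy⟩ ⟨y', hy'⟩
                exact ⟨y + y', fun v => by rw [add_mul, map_add, hy, hy', add_mul]⟩
              algebraMap_mem' := fun r => ⟨algebraMap F E r, fun v => by
                rw [← Algebra.smul_def, map_smul, Algebra.smul_def]⟩ }
          have hS : S = ⊤ := by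
            refine sub_top S (e := (e3 : E)) ⟨e2, fun v => ?_⟩ (fun h => he3 (mem_Fx.2 h))
            rw [mul_inv_eq_iff_eq_mul] at he2
            have := congrArg (fun g : (Module.End F E)ˣ => (g : Module.End F E) v) he2
            simpa only [val_mul_apply, mm_apply] using this
          intro x
          have : x ∈ S := by rw [hS]; trivial
          exact this
        refine ⟨gal F E (fr F E), gal F E (fr F E), SolP.self _, ⟨_, semi_gal _, fr_ne_one F E⟩,
          δ * fr F E * δ⁻¹, (hδ.mul (semi_gal _)).mul hδ.inv, ?_⟩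
        intro h
        apply fr_ne_one F E
        have : fr F E = δ⁻¹ * (δ * fr F E * δ⁻¹) * δ := by group
        rw [this, h]; group
      · by_cases hγ1 : γ = 1
        · exfalso
          subst hγ1
          obtain ⟨e3, he3⟩ := hγ.eq_mm
          apply hβ1
          apply hβ.eq_one_of_conj (g := g⁻¹) (e := e3)
          rw [← he3]; group
        · exact ⟨v, v, h2.right, ⟨γ, hγ, hγ1⟩, β, hβ, hβ1⟩
    · by_cases hβ1 : β = 1
      · subst hβ1
        obtain ⟨e2, he2⟩ := hβ.eq_mm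
        have he2' : e2 ∉ Fx F E := fun h => hgv (he2 ▸ mm_mem_Zs.2 h)
        obtain ⟨γ, hγ⟩ : ∃ α : E ≃ₐ[F] E, Semi (g * u * g⁻¹) α := by
          obtain ⟨K, k1, -, k3, k4⟩ := h2'
          rw [he2] at k4
          exact lemB K k1 he2' k4 _ k3
        by_cases hγ1 : γ = 1
        · exfalso
          subst hγ1
          obtain ⟨e3, he3⟩ := hγ.eq_mm
          exact hα1 (hα.eq_one_of_conj he3)
        · exact ⟨u, u, h2.left, ⟨α, hα, hα1⟩, γ, hγ, hγ1⟩
      · exact ⟨u, v, h2, ⟨α, hα, hα1⟩, β, hβ, hβ1⟩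
  obtain ⟨a, b, ⟨K, k1, k2, k3, k4⟩, ⟨α', ha, ha1⟩, β', hb, hb1⟩ := main
  obtain ⟨k, z, hz, c, hk⟩ := ha.exists_pow ha1
  obtain ⟨k', z', hz', c', hk'⟩ := hb.exists_pow hb1
  refine ⟨c, c', K.map (MulAut.conj (mm F E c)).toMonoidHom, isSolvable_map _ K k1, ?_, ?_⟩
  · refine ⟨z⁻¹ * a ^ k, mul_mem (inv_mem (k2 hz)) (pow_mem k3 k), ?_⟩
    change mm F E c * (z⁻¹ * a ^ k) * (mm F E c)⁻¹ = _
    rw [hk]; group
  · rw [conj_pow] at hk'
    have hb2 : b ^ k' = g⁻¹ * (z' * ((mm F E c')⁻¹ * gal F E (fr F E) * mm F E c')) * g := by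
      rw [← hk']; group
    refine ⟨z'⁻¹ * b ^ k', mul_mem (inv_mem (k2 hz')) (pow_mem k4 k'), ?_⟩
    change mm F E c * (z'⁻¹ * b ^ k') * (mm F E c)⁻¹ = _
    have hb3 : z'⁻¹ * b ^ k' = g⁻¹ * ((mm F E c')⁻¹ * gal F E (fr F E) * mm F E c') * g := by
      rw [hb2]
      have := Zs_central hz' g⁻¹
      rw [← mul_assoc g⁻¹ z', ← this]
      group
    rw [hb3]; group

end P

end Pool.Agent.Q21.SG
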