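import Pool.Agent.Q21.SG.K

namespace Pool.Agent.Q21.SG

set_option linter.unusedSectionVars false

section L

variable (F E : Type) [Field F] [Finite F] [Field E] [Finite E] [Algebra F E]

/-- the trace-zero hyperplane -/
noncomputable def Hs : Submodule F E := LinearMap.ker (Algebra.trace F E)

/-- the line `F` -/
noncomputable def Ls : Submodule F E := LinearMap.range (Algebra.linearMap F E)

theorem mem_Ls {v : E} : v ∈ Ls F E ↔ ∃ c : F, algebraMap F E c = v := Iff.rfl

theorem mem_Hs {v : E} : v ∈ Hs F E ↔ Algebra.trace F E v = 0 := Iff.rfl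

variable [st : Setup F E]

include st

theorem trace_alg (c : F) : Algebra.trace F E (algebraMap F E c) = c := by
  rw [Algebra.trace_algebraMap, st.rank5]
  have h2 := st.two
  rw [nsmul_eq_mul]
  push_cast
  linear_combination 2 * c * h2

theorem inf_bot : Hs F E ⊓ Ls F E = ⊥ := by
  rw [eq_bot_iff]
  rintro v ⟨h1, c, rfl⟩
  have : Algebra.trace F E (algebraMap F E c) = 0 := h1
  rw [trace_alg] at this
  rw [this]
  simp

theorem finrank_Hs : Module.finrank F (Hs F E) = 4 := by
  have h := LinearMap.finrank_range_add_finrank_ker (Algebra.trace F E)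
  have hr : LinearMap.range (Algebra.trace F E) = ⊤ :=
    LinearMap.range_eq_top.2 (fun c => ⟨algebraMap F E c, trace_alg F E c⟩)
  rw [hr, finrank_top, Module.finrank_self, st.rank5] at h
  change Module.finrank F (LinearMap.ker (Algebra.trace F E)) = 4
  omega

theorem finrank_Ls : Module.finrank F (Ls F E) = 1 := by
  have := LinearMap.finrank_range_of_inj (f := Algebra.linearMap F E)
    (fun a b h => (algebraMap F E).injective h)
  rw [Module.finrank_self] at this
  exact this

theorem card_mod_five (U : Submodule F E) (hU : mapP (gal F E (fr F E)) U = U)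
    (hL : U ⊓ Ls F E = ⊥) : Module.finrank F U = 0 ∨ Module.finrank F U = 4 := by
  classical
  have hmem : ∀ v ∈ U, fr F E v ∈ U := by
    intro v hv
    rw [← hU, mapP_apply]
    exact ⟨v, hv, rfl⟩
  have := Fintype.ofFinite U
  let f : Function.End U := fun v => ⟨fr F E v, hmem v v.2⟩
  have hf : ∀ (n : ℕ) (v : U), ((f ^ n : Function.End U) v : E) = (fr F E ^ n) v := by
    intro n
    induction n with
    | zero => intro v; rfl
    | succ n ih => intro v; rw [pow_succ, pow_succ]; exact ih (f v)
  have hf5 : f ^ 5 ^ 1 = 1 := by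
    funext v
    apply Subtype.ext
    rw [hf, pow_one, fr_pow_five]
    rfl
  have hfact : Fact (Nat.Prime 5) := ⟨by norm_num⟩
  have h1 := Equiv.Perm.card_fixedPoints_modEq hf5
  have h2 : Fintype.card f.fixedPoints = 1 := by
    rw [Fintype.card_eq_one_iff]
    refine ⟨⟨0, ?_⟩, ?_⟩
    · change f 0 = 0
      apply Subtype.ext
      exact map_zero (fr F E)
    · rintro ⟨v, hv⟩
      apply Subtype.ext
      apply Subtype.ext
      have h3 : fr F E v = v := congrArg Subtype.val hv
      have h4 : (v : E) ∈ U ⊓ Ls F E := ⟨v.2, fr_fixed F E h3⟩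
      rw [hL] at h4
      simpa using h4
  rw [h2, ← Nat.card_eq_fintype_card, Module.natCard_eq_pow_finrank (K := F)] at h1
  have h5 : Module.finrank F U ≤ 5 := by
    have := U.finrank_le
    rwa [st.rank5] at this
  have hm := st.mod5
  have h6 : (Nat.card F ^ Module.finrank F U) % 5 = 1 := h1
  interval_cases hd : Module.finrank F U
  · exact Or.inl rfl
  · rcases hm with h | h <;> simp [Nat.pow_mod, h] at h6
  · rcases hm with h | h <;> simp [Nat.pow_mod, h] at h6
  · rcases hm with h | h <;> simp [Nat.pow_mod, h] at h6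
  · exact Or.inr rfl
  · rcases hm with h | h <;> simp [Nat.pow_mod, h] at h6

omit st in
theorem mapP_inf (g : (Module.End F E)ˣ) (U W : Submodule F E) :
    mapP g (U ⊓ W) = mapP g U ⊓ mapP g W := by
  rw [mapP_apply, mapP_apply, mapP_apply]
  exact Submodule.map_inf _ (fun _ _ h => val_inj g h)

theorem mapP_fr_Hs : mapP (gal F E (fr F E)) (Hs F E) = Hs F E := by
  rw [mapP_apply]
  apply le_antisymm
  · rintro _ ⟨v, hv, rfl⟩
    rw [mem_Hs]
    change Algebra.trace F E (fr F E v) = 0
    rw [Algebra.trace_eq_of_algEquiv]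
    exact hv
  · intro v hv
    refine ⟨(fr F E).symm v, ?_, ?_⟩
    · change (fr F E).symm v ∈ Hs F E
      rw [mem_Hs, Algebra.trace_eq_of_algEquiv]
      exact hv
    · change (fr F E) ((fr F E).symm v) = v
      simp

theorem mapP_fr_Ls : mapP (gal F E (fr F E)) (Ls F E) = Ls F E := by
  rw [mapP_apply]
  apply le_antisymm
  · rintro _ ⟨_, ⟨c, rfl⟩, rfl⟩
    refine ⟨c, ?_⟩
    change _ = fr F E (algebraMap F E c)
    rw [AlgEquiv.commutes]; rfl
  · rintro _ ⟨c, rfl⟩
    refine ⟨algebraMap F E c, ⟨c, rfl⟩, ?_⟩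
    change fr F E (algebraMap F E c) = _
    rw [AlgEquiv.commutes]; rfl

/-- the invariant subspaces of the Frobenius -/
theorem inv_subspaces (U : Submodule F E) (hU : mapP (gal F E (fr F E)) U = U) :
    U = ⊥ ∨ U = Ls F E ∨ U = Hs F E ∨ U = ⊤ := by
  have h5 := st.rank5
  have hH4 := finrank_Hs F E
  have hL1 := finrank_Ls F E
  have h1 : mapP (gal F E (fr F E)) (U ⊓ Hs F E) = U ⊓ Hs F E := by
    rw [mapP_inf, hU, mapP_fr_Hs]
  have h2 := card_mod_five F E (U ⊓ Hs F E) h1 (by rw [inf_assoc, inf_bot, inf_bot_eq])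
  have hsum := Submodule.finrank_sup_add_finrank_inf_eq U (Hs F E)
  rw [hH4] at hsum
  have hsup : Module.finrank F ↥(U ⊔ Hs F E) ≤ 5 := by
    have := (U ⊔ Hs F E).finrank_le
    rwa [h5] at this
  rcases h2 with h2 | h2
  · rw [h2] at hsum
    have hU1 : Module.finrank F U ≤ 1 := by omega
    by_cases hUL : U ⊓ Ls F E = ⊥
    · have h3 := card_mod_five F E U hU hUL
      have : Module.finrank F U = 0 := by omega
      left
      exact Submodule.finrank_eq_zero.1 this
    · right; left
      have h3 : 0 < Module.finrank F ↥(U ⊓ Ls F E) := by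
        rw [Nat.pos_iff_ne_zero]
        intro h
        exact hUL (Submodule.finrank_eq_zero.1 h)
      have e1 : U ⊓ Ls F E = U := Submodule.eq_of_le_of_finrank_le inf_le_left (by omega)
      have e2 : U ⊓ Ls F E = Ls F E := Submodule.eq_of_le_of_finrank_le inf_le_right (by omega)
      rw [← e1, e2]
  · have e1 : U ⊓ Hs F E = Hs F E := Submodule.eq_of_le_of_finrank_le inf_le_right (by omega)
    have hle : Hs F E ≤ U := by rw [← e1]; exact inf_le_left
    have hU5 : Module.finrank F U ≤ 5 := by
      have := U.finrank_le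
      rwa [h5] at this
    right; right
    by_cases h4 : Module.finrank F U ≤ 4
    · left
      exact (Submodule.eq_of_le_of_finrank_le hle (by omega)).symm
    · right
      apply Submodule.eq_top_of_finrank_eq
      omega

end L

end Pool.Agent.Q21.SG
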