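import Pool.Agent.Q21.SG.L

namespace Pool.Agent.Q21.SG

set_option linter.unusedSectionVars false
set_option linter.unusedVariables false

section M

variable (F E : Type) [Field F] [Finite F] [Field E] [Finite E] [Algebra F E] [st : Setup F E]

include st

instance finEnd : Finite (Module.End F E) :=
  Finite.of_injective (fun f : Module.End F E => (f : E → E))
    (fun f g h => LinearMap.ext (fun x => congrFun h x))

instance finEndH : Finite (Module.End F (Hs F E)) :=
  Finite.of_injective (fun f : Module.End F (Hs F E) => (f : Hs F E → Hs F E))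
    (fun f g h => LinearMap.ext (fun x => congrFun h x))

/-- projection on the trace-zero hyperplane -/
noncomputable def pr : E →ₗ[F] Hs F E where
  toFun v := ⟨v - algebraMap F E (Algebra.trace F E v), by
    rw [mem_Hs, map_sub, trace_alg, sub_self]⟩
  map_add' v w := by
    apply Subtype.ext
    simp only [map_add, Submodule.coe_add]
    ring
  map_smul' c v := by
    apply Subtype.ext
    change c • v - algebraMap F E (Algebra.trace F E (c • v)) =
      c • (v - algebraMap F E (Algebra.trace F E v))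
    rw [map_smul, smul_eq_mul, map_mul, smul_sub, Algebra.smul_def, Algebra.smul_def]

theorem pr_coe (v : Hs F E) : pr F E v = v := by
  apply Subtype.ext
  change (v : E) - algebraMap F E (Algebra.trace F E v) = v
  rw [show Algebra.trace F E (v : E) = 0 from v.2]
  simp

theorem pr_alg (c : F) : pr F E (algebraMap F E c) = 0 := by
  apply Subtype.ext
  change algebraMap F E c - algebraMap F E (Algebra.trace F E (algebraMap F E c)) = 0
  rw [trace_alg, sub_self]

theorem coe_pr (v : E) : (pr F E v : E) + algebraMap F E (Algebra.trace F E v) = v := by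
  change v - algebraMap F E (Algebra.trace F E v) + _ = v
  ring

/-- compression -/
noncomputable def cp (g : Module.End F E) : Module.End F (Hs F E) :=
  pr F E ∘ₗ g ∘ₗ (Hs F E).subtype

theorem cp_apply (g : Module.End F E) (v : Hs F E) : cp F E g v = pr F E (g v) := rfl

theorem cp_one : cp F E 1 = 1 := by
  ext v : 1
  exact pr_coe F E v

theorem cp_mul (g g' : Module.End F E)
    (h : (∀ v ∈ Ls F E, g v ∈ Ls F E) ∨ (∀ v ∈ Hs F E, g' v ∈ Hs F E)) :
    cp F E (g * g') = cp F E g * cp F E g' := by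
  ext v : 1
  rw [Module.End.mul_apply, cp_apply, cp_apply, cp_apply, Module.End.mul_apply]
  have e := coe_pr F E (g' v)
  conv_lhs => rw [← e, map_add, map_add]
  rcases h with h | h
  · obtain ⟨c, hc⟩ := h _ ⟨Algebra.trace F E (g' v), rfl⟩
    change algebraMap F E c = g (algebraMap F E _) at hc
    rw [← hc, pr_alg, add_zero]
  · have : Algebra.trace F E (g' v) = 0 := h v v.2
    rw [this, map_zero, map_zero, map_zero, add_zero]

/-- stabiliser of a subspace -/
noncomputable def St (U : Submodule F E) : Subgroup (Module.End F E)ˣ :=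
  (MulAction.stabilizer (Equiv.Perm (Submodule F E)) U).comap mapP

omit st in
theorem mem_St {U : Submodule F E} {g : (Module.End F E)ˣ} : g ∈ St F E U ↔ mapP g U = U := by
  rw [St, Subgroup.mem_comap, MulAction.mem_stabilizer_iff]; rfl

omit st in
theorem St_apply {U : Submodule F E} {g : (Module.End F E)ˣ} (hg : g ∈ St F E U) {v : E}
    (hv : v ∈ U) : (g : Module.End F E) v ∈ U := by
  rw [mem_St, mapP_apply] at hg
  rw [← hg]
  exact ⟨v, hv, rfl⟩

/-- the hom to `GL(H)` -/
noncomputable def rho (T : Subgroup (Module.End F E)ˣ)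
    (hT : ∀ g ∈ T, ∀ g' ∈ T, cp F E ((g : Module.End F E) * g') = cp F E g * cp F E g') :
    T →* (Module.End F (Hs F E))ˣ :=
  MonoidHom.toHomUnits
    { toFun := fun g => cp F E ((g : (Module.End F E)ˣ) : Module.End F E)
      map_one' := cp_one F E
      map_mul' := fun g g' => hT g g.2 g' g'.2 }

theorem rho_val (T : Subgroup (Module.End F E)ˣ)
    (hT : ∀ g ∈ T, ∀ g' ∈ T, cp F E ((g : Module.End F E) * g') = cp F E g * cp F E g') (g : T) :
    (rho F E T hT g : Module.End F (Hs F E)) = cp F E ((g : (Module.End F E)ˣ) : Module.End F E) :=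
  rfl

/-- the action of the Frobenius on the hyperplane -/
noncomputable def ff : (Module.End F (Hs F E))ˣ :=
  rho F E (St F E (Hs F E)) (fun g _ g' hg' => cp_mul F E _ _ (Or.inr fun _ hv => St_apply F E hg' hv))
    ⟨gal F E (fr F E), (mem_St F E).2 (mapP_fr_Hs F E)⟩

theorem ff_val : (ff F E : Module.End F (Hs F E)) =
    cp F E (gal F E (fr F E) : Module.End F E) := rfl

theorem ff_coe (v : Hs F E) : (((ff F E : Module.End F (Hs F E)) v : Hs F E) : E) = fr F E v := by
  rw [ff_val, cp_apply]
  have h : fr F E v ∈ Hs F E := St_apply F E ((mem_St F E).2 (mapP_fr_Hs F E)) v.2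
  exact congrArg Subtype.val (pr_coe F E ⟨fr F E v, h⟩)

theorem ff_irr (U : Submodule F (Hs F E)) (hU : mapP (ff F E) U = U) : U = ⊥ ∨ U = ⊤ := by
  have hinj : Function.Injective (Hs F E).subtype := (Hs F E).injective_subtype
  have h1 : mapP (gal F E (fr F E)) (U.map (Hs F E).subtype) = U.map (Hs F E).subtype := by
    conv_rhs => rw [← hU]
    rw [mapP_apply, mapP_apply, ← Submodule.map_comp, ← Submodule.map_comp]
    congr 1
    ext v
    exact (ff_coe F E v).symm
  have h2 : U.map (Hs F E).subtype ⊓ Ls F E = ⊥ := by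
    rw [eq_bot_iff, ← inf_bot F E]
    exact inf_le_inf_right _ (Submodule.map_subtype_le _ _)
  have h3 := card_mod_five F E _ h1 h2
  have h4 : Module.finrank F (U.map (Hs F E).subtype) = Module.finrank F U :=
    Submodule.finrank_map_subtype_eq _ _
  rw [h4] at h3
  rcases h3 with h3 | h3
  · left; exact Submodule.finrank_eq_zero.1 h3
  · right
    apply Submodule.eq_top_of_finrank_eq
    rw [h3, finrank_Hs]

theorem ff_pow_five : ff F E ^ 5 = 1 := by
  rw [ff, ← map_pow]
  have : (⟨gal F E (fr F E), (mem_St F E).2 (mapP_fr_Hs F E)⟩ : St F E (Hs F E)) ^ 5 = 1 := by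
    apply Subtype.ext
    change gal F E (fr F E) ^ 5 = 1
    rw [← map_pow, fr_pow_five, map_one]
  rw [this, map_one]

theorem exists_ne_Hs : ∃ v : Hs F E, v ≠ 0 := by
  have h4 := finrank_Hs F E
  have : Nontrivial (Hs F E) := Module.nontrivial_of_finrank_pos (R := F) (by omega)
  exact exists_ne 0

theorem ff_not_scalar : ff F E ∉ Zs F (Hs F E) := by
  intro h
  obtain ⟨c, hc0, hc⟩ := exists_of_mem_Zs h
  obtain ⟨v, hv⟩ := exists_ne_Hs F E
  have hpow : ∀ n : ℕ, ((ff F E ^ n : (Module.End F (Hs F E))ˣ) : Module.End F (Hs F E)) v =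
      c ^ n • v := by
    intro n
    induction n with
    | zero => simp
    | succ n ih =>
      rw [pow_succ', Units.val_mul, Module.End.mul_apply, ih, map_smul, hc, smul_smul, pow_succ]
  have h5 := hpow 5
  rw [ff_pow_five] at h5
  have hc1 : c = 1 := by
    apply five_root F E
    have h6 : (c ^ 5 - 1) • (v : E) = 0 := by
      rw [sub_smul, one_smul, sub_eq_zero]
      exact (congrArg Subtype.val h5).symm
    rcases smul_eq_zero.1 h6 with h | h
    · exact sub_eq_zero.1 h
    · exact absurd (Subtype.ext h) hv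
  have h7 : fr F E v = v := by
    rw [← ff_coe, hc, hc1, one_smul]
  have h8 : (v : E) ∈ Hs F E ⊓ Ls F E := ⟨v.2, fr_fixed F E h7⟩
  rw [inf_bot] at h8
  exact hv (Subtype.ext (by simpa using h8))

/-- the bad set in `GL(H)` -/
def Tset : Set (Module.End F (Hs F E))ˣ :=
  {k | ∃ ω : Module.End F (Hs F E), ω * ω + ω + 1 = 0 ∧
      (ff F E : Module.End F (Hs F E)) * ω = ω * ff F E ∧
      ((k⁻¹ * ff F E * k : (Module.End F (Hs F E))ˣ) : Module.End F (Hs F E)) * ω =
        ω * ((k⁻¹ * ff F E * k : (Module.End F (Hs F E))ˣ) : Module.End F (Hs F E))}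

theorem Tset_card : (Tset F E).ncard ≤ 4 * Nat.card F ^ 8 :=
  card_T2 (finrank_Hs F E) (no_root F E) (ff F E) (ff_irr F E)

theorem red_mem (T : Subgroup (Module.End F E)ˣ)
    (hT : ∀ g ∈ T, ∀ g' ∈ T, cp F E ((g : Module.End F E) * g') = cp F E g * cp F E g')
    (hΦ : gal F E (fr F E) ∈ T) (h : (Module.End F E)ˣ) (hh : h ∈ T) (hS : h ∈ Sset F E) :
    rho F E T hT ⟨h, hh⟩ ∈ Tset F E := by
  obtain ⟨K, k1, k2, k3⟩ := hS
  let K' : Subgroup (Module.End F (Hs F E))ˣ := (K.subgroupOf T).map (rho F E T hT)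
  have hK' : Group.IsSolvable K' := by
    apply isSolvable_map
    refine Group.isSolvable_of_isSolvable_injective (f := (T.subtype.subgroupComap K)) ?_
    intro a b hab
    apply Subtype.ext
    apply Subtype.ext
    exact congrArg (fun x : K => (x : (Module.End F E)ˣ)) hab
  set k := rho F E T hT ⟨h, hh⟩ with hk
  have hf : rho F E T hT ⟨_, hΦ⟩ = ff F E := Units.ext rfl
  have hfK : ff F E ∈ K' := by
    rw [← hf]
    exact ⟨_, k2, rfl⟩
  have hfK' : k⁻¹ * ff F E * k ∈ K' := by
    refine ⟨⟨h, hh⟩⁻¹ * ⟨_, hΦ⟩ * ⟨h, hh⟩, k3, ?_⟩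
    rw [map_mul, map_mul, map_inv, hf]
  have hirr' : ∀ U : Submodule F (Hs F E), mapP (k⁻¹ * ff F E * k) U = U → U = ⊥ ∨ U = ⊤ := by
    intro U hU
    have h1 : mapP (ff F E) (mapP k U) = mapP k U := by
      conv_rhs => rw [← hU]
      rw [← Equiv.Perm.mul_apply, ← Equiv.Perm.mul_apply, ← map_mul, ← map_mul]
      congr 2
      group
    rcases ff_irr F E _ h1 with h2 | h2
    · left
      apply (mapP k).injective
      rw [h2, mapP_apply, Submodule.map_bot]
    · right
      apply (mapP k).injective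
      rw [h2, mapP_apply, Submodule.map_top]
      symm
      rw [LinearMap.range_eq_top]
      intro v
      refine ⟨((k⁻¹ : (Module.End F (Hs F E))ˣ) : Module.End F (Hs F E)) v, ?_⟩
      change ((k : Module.End F (Hs F E)) * ((k⁻¹ : (Module.End F (Hs F E))ˣ) :
        Module.End F (Hs F E))) v = v
      rw [Units.mul_inv]; rfl
  have hnt : Nontrivial (Hs F E) := by
    obtain ⟨v, hv⟩ := exists_ne_Hs F E
    exact ⟨v, 0, hv⟩
  refine dim4 (finrank_Hs F E) (four_root F E) st.mod3 (ff F E) (k⁻¹ * ff F E * k)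
    (ff_pow_five F E) ?_ (ff_irr F E) hirr' (ff_not_scalar F E) K' hK' hfK hfK'
  have : (k⁻¹ * ff F E * k) ^ 5 = k⁻¹ * ff F E ^ 5 * k := by
    have := conj_pow (a := k⁻¹) (b := ff F E) (i := 5)
    rwa [inv_inv] at this
  rw [this, ff_pow_five]
  group

end M

end Pool.Agent.Q21.SG
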