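import Pool.Agent.Q21.SG.M

namespace Pool.Agent.Q21.SG

set_option linter.unusedSectionVars false
set_option linter.unusedVariables false

section N

variable (F E : Type) [Field F] [Finite F] [Field E] [Finite E] [Algebra F E] [st : Setup F E]

include st

theorem card_E : Nat.card E = Nat.card F ^ 5 := by
  rw [Module.natCard_eq_pow_finrank (K := F) (V := E), st.rank5]

theorem ext_Hs {g g' : Module.End F E} (h1 : g 1 = g' 1) (h2 : ∀ v ∈ Hs F E, g v = g' v) : g = g' := by
  ext v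
  have e := coe_pr F E v
  rw [← e, map_add, map_add, h2 _ (pr F E v).2]
  congr 1
  have : algebraMap F E (Algebra.trace F E v) = (Algebra.trace F E v) • (1 : E) := by
    rw [Algebra.smul_def, mul_one]
  rw [this, map_smul, map_smul, h1]

theorem count_Hs : (Sset F E ∩ (St F E (Hs F E) : Set (Module.End F E)ˣ)).ncard ≤
    4 * Nat.card F ^ 13 := by
  classical
  have hT : ∀ g ∈ St F E (Hs F E), ∀ g' ∈ St F E (Hs F E),
      cp F E ((g : Module.End F E) * g') = cp F E g * cp F E g' :=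
    fun g _ g' hg' => cp_mul F E _ _ (Or.inr fun _ hv => St_apply F E hg' hv)
  have hΦ : gal F E (fr F E) ∈ St F E (Hs F E) := (mem_St F E).2 (mapP_fr_Hs F E)
  let tgt : Set (Module.End F (Hs F E) × E) :=
    ((fun k : (Module.End F (Hs F E))ˣ => (k : Module.End F (Hs F E))) '' Tset F E) ×ˢ Set.univ
  have htgt : tgt.ncard ≤ 4 * Nat.card F ^ 13 := by
    simp only [tgt]
    rw [Set.ncard_prod, Set.ncard_univ, card_E F E]
    have h1 := (Set.ncard_image_le (f := fun k : (Module.End F (Hs F E))ˣ =>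
      (k : Module.End F (Hs F E))) (Set.toFinite (Tset F E))).trans (Tset_card F E)
    calc _ ≤ 4 * Nat.card F ^ 8 * Nat.card F ^ 5 := Nat.mul_le_mul_right _ h1
      _ = _ := by ring
  refine le_trans ?_ htgt
  apply Set.ncard_le_ncard_of_injOn
    (fun h : (Module.End F E)ˣ => (cp F E (h : Module.End F E), (h : Module.End F E) 1)) ?_ ?_
    (Set.toFinite _)
  · rintro h ⟨h1, h2⟩
    refine ⟨⟨_, red_mem F E _ hT hΦ h h2 h1, rfl⟩, trivial⟩
  · rintro h ⟨h1, h2⟩ h' ⟨h1', h2'⟩ he
    simp only [Prod.mk.injEq] at he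
    apply Units.ext
    apply ext_Hs F E he.2
    intro v hv
    have e1 := LinearMap.congr_fun he.1 ⟨v, hv⟩
    rw [cp_apply, cp_apply] at e1
    have e2 : pr F E ((h : Module.End F E) v) = ⟨_, St_apply F E h2 hv⟩ :=
      pr_coe F E ⟨_, St_apply F E h2 hv⟩
    have e3 : pr F E ((h' : Module.End F E) v) = ⟨_, St_apply F E h2' hv⟩ :=
      pr_coe F E ⟨_, St_apply F E h2' hv⟩
    change pr F E ((h : Module.End F E) v) = pr F E ((h' : Module.End F E) v) at e1
    rw [e2, e3] at e1
    exact congrArg Subtype.val e1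

theorem count_Ls : (Sset F E ∩ (St F E (Ls F E) : Set (Module.End F E)ˣ)).ncard ≤
    4 * Nat.card F ^ 13 := by
  classical
  have hT : ∀ g ∈ St F E (Ls F E), ∀ g' ∈ St F E (Ls F E),
      cp F E ((g : Module.End F E) * g') = cp F E g * cp F E g' :=
    fun g hg g' hg' => cp_mul F E _ _ (Or.inl fun _ hv => St_apply F E hg hv)
  have hΦ : gal F E (fr F E) ∈ St F E (Ls F E) := (mem_St F E).2 (mapP_fr_Ls F E)
  have hfD : Finite (Hs F E →ₗ[F] F) := Finite.of_injective (fun f : Hs F E →ₗ[F] F => (f : Hs F E → F))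
    (fun f g h => LinearMap.ext (fun x => congrFun h x))
  let tgt : Set (Module.End F (Hs F E) × (Ls F E × (Hs F E →ₗ[F] F))) :=
    ((fun k : (Module.End F (Hs F E))ˣ => (k : Module.End F (Hs F E))) '' Tset F E) ×ˢ Set.univ
  have hcardL : Nat.card (Ls F E) = Nat.card F := by
    rw [Module.natCard_eq_pow_finrank (K := F), finrank_Ls, pow_one]
  have hcardD : Nat.card (Hs F E →ₗ[F] F) = Nat.card F ^ 4 := by
    rw [Module.natCard_eq_pow_finrank (K := F), Module.finrank_linearMap, finrank_Hs,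
      Module.finrank_self, mul_one]
  have htgt : tgt.ncard ≤ 4 * Nat.card F ^ 13 := by
    simp only [tgt]
    rw [Set.ncard_prod, Set.ncard_univ, Nat.card_prod, hcardL, hcardD]
    have h1 := (Set.ncard_image_le (f := fun k : (Module.End F (Hs F E))ˣ =>
      (k : Module.End F (Hs F E))) (Set.toFinite (Tset F E))).trans (Tset_card F E)
    calc _ ≤ 4 * Nat.card F ^ 8 * (Nat.card F * Nat.card F ^ 4) := Nat.mul_le_mul_right _ h1
      _ = _ := by ring
  refine le_trans ?_ htgt
  have h1L : ∀ h ∈ St F E (Ls F E), (h : Module.End F E) 1 ∈ Ls F E := fun h hh =>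
    St_apply F E hh ⟨1, map_one (algebraMap F E)⟩
  have hinj : ∀ h ∈ St F E (Ls F E), ∀ h' ∈ St F E (Ls F E),
      cp F E (h : Module.End F E) = cp F E (h' : Module.End F E) →
      (h : Module.End F E) 1 = (h' : Module.End F E) 1 →
      Algebra.trace F E ∘ₗ (h : Module.End F E) ∘ₗ (Hs F E).subtype =
        Algebra.trace F E ∘ₗ (h' : Module.End F E) ∘ₗ (Hs F E).subtype → h = h' := by
    intro h hh h' hh' a1 a2 a3
    apply Units.ext
    apply ext_Hs F E a2
    intro v hv
    have e1 := congrArg Subtype.val (LinearMap.congr_fun a1 ⟨v, hv⟩)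
    have e2 := LinearMap.congr_fun a3 ⟨v, hv⟩
    change ((pr F E ((h : Module.End F E) v) : Hs F E) : E) = (pr F E ((h' : Module.End F E) v) : Hs F E) at e1
    change Algebra.trace F E ((h : Module.End F E) v) = Algebra.trace F E ((h' : Module.End F E) v) at e2
    rw [← coe_pr F E ((h : Module.End F E) v), ← coe_pr F E ((h' : Module.End F E) v), e1, e2]
  have hfun : ∃ Θ : (Module.End F E)ˣ → (Module.End F (Hs F E) × (Ls F E × (Hs F E →ₗ[F] F))),
      ∀ h (hh : h ∈ St F E (Ls F E)), Θ h = (cp F E (h : Module.End F E), ⟨(h : Module.End F E) 1, h1L h hh⟩,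
        Algebra.trace F E ∘ₗ (h : Module.End F E) ∘ₗ (Hs F E).subtype) := by
    refine ⟨fun h => if hh : h ∈ St F E (Ls F E) then (cp F E (h : Module.End F E),
      ⟨(h : Module.End F E) 1, h1L h hh⟩,
        Algebra.trace F E ∘ₗ (h : Module.End F E) ∘ₗ (Hs F E).subtype) else (0, 0, 0), ?_⟩
    intro h hh
    simp only [dif_pos hh]
  obtain ⟨Θ, hΘ⟩ := hfun
  apply Set.ncard_le_ncard_of_injOn Θ ?_ ?_ (Set.toFinite _)
  · rintro h ⟨h1, h2⟩
    rw [hΘ h h2]
    exact ⟨⟨_, red_mem F E _ hT hΦ h h2 h1, rfl⟩, trivial⟩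
  · rintro h ⟨h1, h2⟩ h' ⟨h1', h2'⟩ he
    rw [hΘ h h2, hΘ h' h2'] at he
    simp only [Prod.mk.injEq, Subtype.mk.injEq] at he
    exact hinj h h2 h' h2' he.1 he.2.1 he.2.2

end N

end Pool.Agent.Q21.SG
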