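import Pool.Agent.Q21.SG.N

namespace Pool.Agent.Q21.SG

set_option linter.unusedSectionVars false
set_option linter.unusedVariables false

section O

variable (F E : Type) [Field F] [Finite F] [Field E] [Finite E] [Algebra F E] [st : Setup F E]

include st

/-- elements conjugating the Frobenius into the Galois group -/
def Nph : Set (Module.End F E)ˣ :=
  {n | ∃ α : E ≃ₐ[F] E, gal F E (fr F E) * n = n * gal F E α}

theorem cent_ext {θ : E} (hθ : LinearIndependent F fun σ : E ≃ₐ[F] E => σ θ)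
    (c c' : (Module.End F E)ˣ) (hc : gal F E (fr F E) * c = c * gal F E (fr F E))
    (hc' : gal F E (fr F E) * c' = c' * gal F E (fr F E))
    (h : (c : Module.End F E) θ = (c' : Module.End F E) θ) : c = c' := by
  have hpow : ∀ d : (Module.End F E)ˣ, gal F E (fr F E) * d = d * gal F E (fr F E) →
      ∀ (n : ℕ) (v : E), (d : Module.End F E) ((fr F E ^ n) v) = (fr F E ^ n) ((d : Module.End F E) v) := by
    intro d hd n
    have h1 : ∀ v : E, (d : Module.End F E) (fr F E v) = fr F E ((d : Module.End F E) v) := by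
      intro v
      have := congrArg (fun g : (Module.End F E)ˣ => (g : Module.End F E) v) hd
      simp only [val_mul_apply, gal_apply] at this
      exact this.symm
    induction n with
    | zero => intro v; simp
    | succ n ih => intro v; rw [pow_succ, AlgEquiv.mul_apply, ih, h1, AlgEquiv.mul_apply]
  have hspan : Submodule.span F (Set.range fun σ : E ≃ₐ[F] E => σ θ) = ⊤ := by
    apply hθ.span_eq_top_of_card_eq_finrank'
    rw [Fintype.card_eq_nat_card, IsGalois.card_aut_eq_finrank]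
  apply Units.ext
  apply LinearMap.ext_on hspan
  rintro _ ⟨σ, rfl⟩
  obtain ⟨i, _, rfl⟩ := exists_fr_pow F E σ
  change (c : Module.End F E) ((fr F E ^ i) θ) = (c' : Module.End F E) ((fr F E ^ i) θ)
  rw [hpow c hc, hpow c' hc', h]

theorem Nph_card : (Nph F E).ncard ≤ 5 * Nat.card F ^ 5 := by
  classical
  obtain ⟨θ, hθ⟩ := exists_linearIndependent_algEquiv_apply F E
  let al : (Module.End F E)ˣ → (E ≃ₐ[F] E) := fun n =>
    if h : ∃ α : E ≃ₐ[F] E, gal F E (fr F E) * n = n * gal F E α then h.choose else 1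
  have hal : ∀ n ∈ Nph F E, gal F E (fr F E) * n = n * gal F E (al n) := by
    intro n hn
    have hn' : ∃ α : E ≃ₐ[F] E, gal F E (fr F E) * n = n * gal F E α := hn
    have : al n = hn'.choose := by simp only [al]; rw [dif_pos hn']
    rw [this]
    exact hn'.choose_spec
  let n0 : (E ≃ₐ[F] E) → (Module.End F E)ˣ := fun α =>
    if h : ∃ n : (Module.End F E)ˣ, gal F E (fr F E) * n = n * gal F E α then h.choose else 1
  have hn0 : ∀ n ∈ Nph F E, gal F E (fr F E) * n0 (al n) = n0 (al n) * gal F E (al n) := by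
    intro n hn
    have h : ∃ m : (Module.End F E)ˣ, gal F E (fr F E) * m = m * gal F E (al n) := ⟨n, hal n hn⟩
    have h2 : n0 (al n) = h.choose := by
      simp only [n0]
      rw [dif_pos h]
    rw [h2]
    exact h.choose_spec
  have hcom : ∀ n ∈ Nph F E, gal F E (fr F E) * (n * (n0 (al n))⁻¹) =
      (n * (n0 (al n))⁻¹) * gal F E (fr F E) := by
    intro n hn
    have h1 := hal n hn
    have h2 := hn0 n hn
    have h3 : gal F E (al n) * (n0 (al n))⁻¹ = (n0 (al n))⁻¹ * gal F E (fr F E) := by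
      rw [mul_inv_eq_iff_eq_mul, mul_assoc, h2, inv_mul_cancel_left]
    rw [← mul_assoc, h1, mul_assoc, h3, mul_assoc]
  have hcard : (Set.univ : Set ((E ≃ₐ[F] E) × E)).ncard = 5 * Nat.card F ^ 5 := by
    rw [Set.ncard_univ, Nat.card_prod, IsGalois.card_aut_eq_finrank, st.rank5, card_E F E]
  rw [← hcard]
  apply Set.ncard_le_ncard_of_injOn
    (fun n : (Module.End F E)ˣ => (al n, ((n * (n0 (al n))⁻¹ : (Module.End F E)ˣ) : Module.End F E) θ))
    (fun _ _ => Set.mem_univ _) ?_ (Set.toFinite _)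
  intro n hn n' hn' he
  simp only [Prod.mk.injEq] at he
  have h1 := cent_ext F E hθ _ _ (hcom n hn) (hcom n' hn') he.2
  rw [he.1] at h1
  exact mul_right_cancel h1

/-- sandwich form of field-type elements -/
theorem field_type (A : Subgroup (Module.End F E)ˣ) (hA : ∀ a ∈ A, ∀ b ∈ A, a * b = b * a)
    (hinj : ∀ r ∈ alg A, r ≠ 0 → ∀ v : E, r v = 0 → v = 0) (hAZ : ¬ A ≤ Zs F E)
    (h : (Module.End F E)ˣ)
    (h1 : ∀ a ∈ A, gal F E (fr F E) * a * (gal F E (fr F E))⁻¹ ∈ A)
    (h2 : ∀ a ∈ A, (h⁻¹ * gal F E (fr F E) * h) * a * (h⁻¹ * gal F E (fr F E) * h)⁻¹ ∈ A) :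
    ∃ n1 ∈ Nph F E, ∃ e : Eˣ, ∃ n2 ∈ Nph F E, h = n1 * (mm F E e)⁻¹ * n2⁻¹ := by
  obtain ⟨L, _, _, _, Θ, hΘ, hdvd⟩ := exists_field A hA hinj
  rw [st.rank5] at hdvd
  have hfin : FiniteDimensional F L := Module.Finite.of_finite
  have hne1 : Module.finrank F L ≠ 1 := by
    intro h
    apply hAZ
    intro a ha
    obtain ⟨l, hl⟩ := (hΘ _).1 (coe_mem_alg ha)
    have hbij : ∃ c : F, algebraMap F L c = l := by
      have : (⊤ : Subalgebra F L) = ⊥ := Subalgebra.bot_eq_top_iff_finrank_eq_one.2 h |>.symm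
      have hl2 : l ∈ (⊤ : Subalgebra F L) := trivial
      rw [this] at hl2
      exact hl2
    obtain ⟨c, rfl⟩ := hbij
    refine mem_Zs ⟨c, fun v => ?_⟩
    rw [← hl, AlgHom.commutes]
    rfl
  have h5 : Module.finrank F L = 5 := by
    rcases (Nat.dvd_prime Nat.prime_five).1 hdvd with h | h
    · exact absurd h hne1
    · exact h
  obtain ⟨θ⟩ := FiniteField.nonempty_algHom_of_finrank_dvd (F := F) (K := E) (L := L)
    (by rw [h5, st.rank5])
  have hθs : Function.Surjective θ := by
    have := LinearMap.injective_iff_surjective_of_finrank_eq_finrank (f := θ.toLinearMap)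
      (by rw [h5, st.rank5])
    exact this.1 θ.injective
  -- the structure map
  let Ψ : E →ₐ[F] Module.End F E := Θ.comp θ
  have hΨ : ∀ r, r ∈ alg A ↔ ∃ e, Ψ e = r := by
    intro r
    rw [hΘ]
    constructor
    · rintro ⟨l, rfl⟩
      obtain ⟨e, rfl⟩ := hθs l
      exact ⟨e, rfl⟩
    · rintro ⟨e, rfl⟩
      exact ⟨θ e, rfl⟩
  let b : Module.End F E := LinearMap.applyₗ (1 : E) ∘ₗ Ψ.toLinearMap
  have hb : ∀ e, b e = Ψ e 1 := fun e => rfl
  have hΨinj : ∀ e, e ≠ 0 → ∀ v, Ψ e v = 0 → v = 0 := by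
    intro e he v hv
    have h1 : Ψ e⁻¹ (Ψ e v) = v := by
      change (Ψ e⁻¹ * Ψ e) v = v
      rw [← map_mul, inv_mul_cancel₀ he, map_one]; rfl
    rw [← h1, hv, map_zero]
  have hbinj : Function.Injective b := by
    rw [injective_iff_map_eq_zero]
    intro e he
    by_contra hne
    exact one_ne_zero (hΨinj e hne 1 he)
  have hbunit : IsUnit b := by
    rw [LinearMap.isUnit_iff_ker_eq_bot]
    exact LinearMap.ker_eq_bot.2 hbinj
  obtain ⟨β, hβ⟩ := hbunit
  have hβe : ∀ e, (β : Module.End F E) e = Ψ e 1 := fun e => by rw [hβ]; rfl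
  have hβm : ∀ e x, Ψ e ((β : Module.End F E) x) = (β : Module.End F E) (e * x) := by
    intro e x
    rw [hβe, hβe, map_mul]; rfl
  -- general step
  have step : ∀ (Φ : (Module.End F E)ˣ), (∀ a ∈ A, Φ * a * Φ⁻¹ ∈ A) → ∀ e0 : Eˣ,
      (Φ : Module.End F E) ((β : Module.End F E) e0) = (β : Module.End F E) e0 →
      ∃ α : E ≃ₐ[F] E, Φ * (β * mm F E e0) = (β * mm F E e0) * gal F E α := by
    intro Φ hΦ e0 he0
    set n : (Module.End F E)ˣ := (β * mm F E e0)⁻¹ * Φ * (β * mm F E e0) with hn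
    have hs : ∀ e : E, ∃ e' : E, ∀ v : E, (n : Module.End F E) (e * v) = e' * (n : Module.End F E) v := by
      intro e
      obtain ⟨e', he'⟩ := (hΨ _).1 (conjP_mem_alg hΦ ((hΨ (Ψ e)).2 ⟨e, rfl⟩))
      refine ⟨e', fun v => ?_⟩
      have e1 : Ψ e' * (Φ : Module.End F E) = (Φ : Module.End F E) * Ψ e := by
        rw [he', conjP_apply, mul_assoc, Units.inv_mul, mul_one]
      apply val_inj (β * mm F E e0)
      have e2 : ∀ w, ((β * mm F E e0 : (Module.End F E)ˣ) : Module.End F E)
          ((n : Module.End F E) w) = (Φ : Module.End F E) (((β * mm F E e0 : (Module.End F E)ˣ) :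
            Module.End F E) w) := by
        intro w
        rw [← val_mul_apply, hn]
        rw [show (β * mm F E e0) * ((β * mm F E e0)⁻¹ * Φ * (β * mm F E e0)) =
          Φ * (β * mm F E e0) by group]
        rfl
      rw [e2]
      have e3 : ∀ x y : E, ((β * mm F E e0 : (Module.End F E)ˣ) : Module.End F E) (x * y) =
          Ψ x (((β * mm F E e0 : (Module.End F E)ˣ) : Module.End F E) y) := by
        intro x y
        simp only [val_mul_apply, mm_apply]
        rw [hβm]
        congr 1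
        ring
      rw [e3, e3, e2]
      have e4 := LinearMap.congr_fun e1 (((β * mm F E e0 : (Module.End F E)ˣ) : Module.End F E) v)
      exact e4.symm
    obtain ⟨α, hα⟩ := exists_semi hs
    refine ⟨α, ?_⟩
    have hn1 : (n : Module.End F E) 1 = 1 := by
      apply val_inj (β * mm F E e0)
      rw [← val_mul_apply, hn]
      rw [show (β * mm F E e0) * ((β * mm F E e0)⁻¹ * Φ * (β * mm F E e0)) =
        Φ * (β * mm F E e0) by group]
      simp only [val_mul_apply, mm_apply, mul_one]
      exact he0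
    have hngal : n = gal F E α := by
      apply Units.ext
      ext v
      have := hα v 1
      rw [mul_one, hn1, mul_one] at this
      exact this
    rw [← hngal, hn]
    group
  have hβ1 : (β : Module.End F E) ((1 : Eˣ) : E) = 1 := by
    rw [Units.val_one, hβe, map_one Ψ]; rfl
  obtain ⟨α1, hα1⟩ := step (gal F E (fr F E)) h1 1 (by
    rw [hβ1, gal_apply, map_one])
  -- the fixed vector of the conjugate
  have hw : ((h⁻¹ : (Module.End F E)ˣ) : Module.End F E) 1 ≠ 0 := val_ne_zero _ one_ne_zero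
  have he0' : ((β⁻¹ : (Module.End F E)ˣ) : Module.End F E)
      (((h⁻¹ : (Module.End F E)ˣ) : Module.End F E) 1) ≠ 0 := val_ne_zero _ hw
  let e0 : Eˣ := Units.mk0 _ he0'
  have hβe0 : (β : Module.End F E) e0 = ((h⁻¹ : (Module.End F E)ˣ) : Module.End F E) 1 := by
    change (β : Module.End F E) (((β⁻¹ : (Module.End F E)ˣ) : Module.End F E) _) = _
    rw [val_inv_apply]
  obtain ⟨α2, hα2⟩ := step (h⁻¹ * gal F E (fr F E) * h) h2 e0 (by
    rw [hβe0, val_mul_apply, val_mul_apply, val_inv_apply, gal_apply, map_one])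
  refine ⟨h * (β * mm F E e0), ⟨α2, ?_⟩, e0, β, ⟨α1, ?_⟩, ?_⟩
  · rw [mul_assoc h, ← hα2]
    group
  · simpa using hα1
  · group

end O

end Pool.Agent.Q21.SG
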