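import Pool.Agent.Q21.SG.O

namespace Pool.Agent.Q21.SG

set_option linter.unusedSectionVars false
set_option linter.unusedVariables false

section Q

variable (F E : Type) [Field F] [Finite F] [Field E] [Finite E] [Algebra F E] [st : Setup F E]

include st

theorem orbit_inj {ψ : (Module.End F E)ˣ} (h5 : ψ ^ 5 = 1) {U : Submodule F E}
    (hU : mapP ψ U ≠ U) : Function.Injective (fun i : Fin 5 => mapP (ψ ^ (i : ℕ)) U) := by
  have key : ∀ i j : ℕ, i < j → j < 5 → mapP (ψ ^ i) U ≠ mapP (ψ ^ j) U := by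
    intro i j hij hj he
    apply hU
    have h1 : mapP (ψ ^ (j - i)) U = U := by
      apply (mapP (ψ ^ i)).injective
      rw [← Equiv.Perm.mul_apply, ← map_mul, ← pow_add, he]
      congr 3
      omega
    obtain ⟨k, hk⟩ : ∃ k, ((j - i) * k) % 5 = 1 := by
      have : j - i < 5 := by omega
      have h0 : 0 < j - i := by omega
      interval_cases (j - i)
      · exact ⟨1, rfl⟩
      · exact ⟨3, rfl⟩
      · exact ⟨2, rfl⟩
      · exact ⟨4, rfl⟩
    have h2 : ψ = (ψ ^ (j - i)) ^ k := by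
      rw [← pow_mul]
      conv_rhs => rw [← Nat.div_add_mod ((j - i) * k) 5, hk, pow_add, pow_mul, h5, one_pow,
        one_mul, pow_one]
    rw [h2, map_pow]
    clear h2 hk
    induction k with
    | zero => simp
    | succ k ih => rw [pow_succ, Equiv.Perm.mul_apply, h1, ih]
  intro i j hij
  by_contra hne
  rcases lt_or_gt_of_ne (fun h => hne (Fin.ext h) : (i : ℕ) ≠ j) with h | h
  · exact key i j h j.2 hij
  · exact key j i h i.2 hij.symm

theorem orbit_all {B : Set (Submodule F E)} (hB1 : ∀ U ∈ B, U ≠ ⊥) (hB2 : sSupIndep B)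
    {ψ : (Module.End F E)ˣ} (h5 : ψ ^ 5 = 1) (hψ : ∀ U ∈ B, mapP ψ U ∈ B) {U : Submodule F E}
    (hUB : U ∈ B) (hU : mapP ψ U ≠ U) :
    (∀ W ∈ B, ∃ i : Fin 5, W = mapP (ψ ^ (i : ℕ)) U) ∧
    ∀ v ∈ U, v ≠ 0 → LinearIndependent F (fun i : Fin 5 => ((ψ ^ (i : ℕ) : (Module.End F E)ˣ) : Module.End F E) v) ∧
      ∀ i : Fin 5, ∀ w ∈ mapP (ψ ^ (i : ℕ)) U, ∃ c : F, w = c • ((ψ ^ (i : ℕ) : (Module.End F E)ˣ) : Module.End F E) v := by
  classical
  have hinj := orbit_inj F E h5 hU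
  have hmem : ∀ n : ℕ, mapP (ψ ^ n) U ∈ B := by
    intro n
    induction n with
    | zero => simpa using hUB
    | succ n ih =>
      rw [pow_succ', map_mul, Equiv.Perm.mul_apply]
      exact hψ _ ih
  have hcard : B.ncard ≤ 5 := by
    have := ncard_blocks B hB1 hB2
    rwa [st.rank5] at this
  have hrange : Set.range (fun i : Fin 5 => mapP (ψ ^ (i : ℕ)) U) = B := by
    apply Set.eq_of_subset_of_ncard_le ?_ ?_ (Set.toFinite B)
    · rintro _ ⟨i, rfl⟩; exact hmem i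
    · have h5' : (Set.range (fun i : Fin 5 => mapP (ψ ^ (i : ℕ)) U)).ncard = 5 := by
        rw [← Set.image_univ, Set.ncard_image_of_injective _ hinj, Set.ncard_univ]
        simp
      omega
  have hind : iSupIndep (fun i : Fin 5 => mapP (ψ ^ (i : ℕ)) U) := by
    exact ((sSupIndep_iff _).1 hB2).comp (f := fun i : Fin 5 => (⟨_, hmem i⟩ : B))
      (fun i j hij => hinj (congrArg Subtype.val hij))
  refine ⟨fun W hW => ?_, fun v hv hv0 => ?_⟩
  · rw [← hrange] at hW
    obtain ⟨i, hi⟩ := hW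
    exact ⟨i, hi.symm⟩
  have hli : LinearIndependent F (fun i : Fin 5 => ((ψ ^ (i : ℕ) : (Module.End F E)ˣ) : Module.End F E) v) := by
    apply hind.linearIndependent
    · intro i; exact ⟨v, hv, rfl⟩
    · intro i; exact val_ne_zero _ hv0
  refine ⟨hli, fun i w hw => ?_⟩
  have hspan := hli.span_eq_top_of_card_eq_finrank' (by rw [st.rank5]; simp)
  have hw2 : w ∈ Submodule.span F (Set.range (fun i : Fin 5 => ((ψ ^ (i : ℕ) : (Module.End F E)ˣ) :
      Module.End F E) v)) := by rw [hspan]; trivial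
  obtain ⟨c, hc⟩ := (Submodule.mem_span_range_iff_exists_fun F).1 hw2
  refine ⟨c i, ?_⟩
  have h6 : w - c i • ((ψ ^ (i : ℕ) : (Module.End F E)ˣ) : Module.End F E) v ∈ mapP (ψ ^ (i : ℕ)) U :=
    Submodule.sub_mem _ hw (Submodule.smul_mem _ _ ⟨v, hv, rfl⟩)
  have h7 : w - c i • ((ψ ^ (i : ℕ) : (Module.End F E)ˣ) : Module.End F E) v ∈
      ⨆ j, ⨆ (_ : j ≠ i), mapP (ψ ^ (j : ℕ)) U := by
    rw [← hc, ← Finset.add_sum_erase _ _ (Finset.mem_univ i), add_sub_cancel_left]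
    apply Submodule.sum_mem
    intro j hj
    have : mapP (ψ ^ (j : ℕ)) U ≤ ⨆ j, ⨆ (_ : j ≠ i), mapP (ψ ^ (j : ℕ)) U :=
      le_iSup₂_of_le j (Finset.mem_erase.1 hj).1 le_rfl
    exact this (Submodule.smul_mem _ _ ⟨v, hv, rfl⟩)
  have h8 := Submodule.disjoint_def.1 (hind i) _ h6 h7
  exact sub_eq_zero.1 h8

theorem other_moves {B : Set (Submodule F E)} (hB1 : ∀ U ∈ B, U ≠ ⊥) (hB2 : sSupIndep B)
    {ψ χ : (Module.End F E)ˣ} (h5 : ψ ^ 5 = 1) (h5' : χ ^ 5 = 1) (hχ1 : χ ≠ 1)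
    (hψ : ∀ U ∈ B, mapP ψ U ∈ B) (hχ : ∀ U ∈ B, mapP χ U ∈ B)
    {U : Submodule F E} (hUB : U ∈ B) (hU : mapP ψ U ≠ U) : mapP χ U ≠ U := by
  intro hfix
  obtain ⟨h1, h2⟩ := orbit_all F E hB1 hB2 h5 hψ hUB hU
  have hall : ∀ W ∈ B, mapP χ W = W := by
    intro W hW
    by_contra hne
    obtain ⟨h3, -⟩ := orbit_all F E hB1 hB2 h5' hχ hW hne
    obtain ⟨i, hi⟩ := h3 U hUB
    apply hne
    apply (mapP (χ ^ (i : ℕ))).injective
    rw [← Equiv.Perm.mul_apply, ← map_mul, ← pow_succ, pow_succ', map_mul, Equiv.Perm.mul_apply,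
      ← hi, hfix]
  obtain ⟨v, hv, hv0⟩ := (Submodule.ne_bot_iff U).1 (hB1 U hUB)
  obtain ⟨hli, hlin⟩ := h2 v hv hv0
  have hmem : ∀ n : ℕ, mapP (ψ ^ n) U ∈ B := by
    intro n
    induction n with
    | zero => simpa using hUB
    | succ n ih =>
      rw [pow_succ', map_mul, Equiv.Perm.mul_apply]
      exact hψ _ ih
  apply hχ1
  apply Units.ext
  have hspan := hli.span_eq_top_of_card_eq_finrank' (by rw [st.rank5]; simp)
  apply LinearMap.ext_on hspan
  rintro _ ⟨i, rfl⟩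
  change (χ : Module.End F E) (((ψ ^ (i : ℕ) : (Module.End F E)ˣ) : Module.End F E) v) =
    ((ψ ^ (i : ℕ) : (Module.End F E)ˣ) : Module.End F E) v
  set x := ((ψ ^ (i : ℕ) : (Module.End F E)ˣ) : Module.End F E) v with hx
  have hx0 : x ≠ 0 := val_ne_zero _ hv0
  have hxm : x ∈ mapP (ψ ^ (i : ℕ)) U := ⟨v, hv, rfl⟩
  obtain ⟨c, hc⟩ := hlin i ((χ : Module.End F E) x) (by
    rw [← hall _ (hmem i)]
    exact ⟨x, hxm, rfl⟩)
  have hpow : ∀ n : ℕ, ((χ ^ n : (Module.End F E)ˣ) : Module.End F E) x = c ^ n • x := by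
    intro n
    induction n with
    | zero => simp
    | succ n ih => rw [pow_succ', val_mul_apply, ih, map_smul, hc, smul_smul, pow_succ]
  have h6 := hpow 5
  rw [h5'] at h6
  have h7 : (c ^ 5 - 1) • x = 0 := by
    rw [sub_smul, one_smul, ← h6, sub_eq_zero]; rfl
  rcases smul_eq_zero.1 h7 with h | h
  · rw [hc, five_root F E c (sub_eq_zero.1 h), one_smul]
  · exact absurd h hx0

/-- the monomial-type elements -/
def Mset : Set (Module.End F E)ˣ :=
  {h | ∃ (v : E) (π : Fin 5 → Fin 5) (l : Fin 5 → F),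
    (∀ i : Fin 5, (h : Module.End F E) (l i • (fr F E ^ (π i : ℕ)) v) =
      (fr F E ^ (i : ℕ)) ((h : Module.End F E) v)) ∧
    Submodule.span F (Set.range fun i : Fin 5 => l i • (fr F E ^ (π i : ℕ)) v) = ⊤}

theorem Mset_card : (Mset F E).ncard ≤ 3125 * Nat.card F ^ 15 := by
  classical
  have hch : ∀ h : (Module.End F E)ˣ, ∃ d : E × (Fin 5 → Fin 5) × (Fin 5 → F), h ∈ Mset F E →
    (∀ i : Fin 5, (h : Module.End F E) (d.2.2 i • (fr F E ^ (d.2.1 i : ℕ)) d.1) =
      (fr F E ^ (i : ℕ)) ((h : Module.End F E) d.1)) ∧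
    Submodule.span F (Set.range fun i : Fin 5 => d.2.2 i • (fr F E ^ (d.2.1 i : ℕ)) d.1) = ⊤ := by
    intro h
    by_cases hh : h ∈ Mset F E
    · obtain ⟨v, π, l, h1⟩ := hh
      exact ⟨(v, π, l), fun _ => h1⟩
    · exact ⟨(0, fun _ => 0, fun _ => 0), fun h' => absurd h' hh⟩
  choose d hd using hch
  have hcard : (Set.univ : Set ((E × (Fin 5 → Fin 5) × (Fin 5 → F)) × E)).ncard =
      3125 * Nat.card F ^ 15 := by
    rw [Set.ncard_univ, Nat.card_prod, Nat.card_prod, Nat.card_prod, card_E F E, Nat.card_fun,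
      Nat.card_fun, Nat.card_eq_fintype_card (α := Fin 5), Fintype.card_fin]
    ring
  rw [← hcard]
  apply Set.ncard_le_ncard_of_injOn
    (fun h : (Module.End F E)ˣ => (d h, (h : Module.End F E) (d h).1))
    (fun _ _ => Set.mem_univ _) ?_ (Set.toFinite _)
  intro h hh h' hh' he
  simp only [Prod.mk.injEq] at he
  obtain ⟨he1, he2⟩ := he
  obtain ⟨a1, a2⟩ := hd h hh
  obtain ⟨b1, b2⟩ := hd h' hh'
  rw [← he1] at b1 b2 he2
  apply Units.ext
  apply LinearMap.ext_on a2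
  rintro _ ⟨i, rfl⟩
  change (h : Module.End F E) _ = (h' : Module.End F E) _
  rw [a1 i, b1 i, he2]

theorem gal_pow_apply (i : ℕ) (v : E) :
    ((gal F E (fr F E) ^ i : (Module.End F E)ˣ) : Module.End F E) v = (fr F E ^ i) v := by
  rw [← map_pow]; rfl

/-- classification of the bad set -/
theorem Sset_cases (h : (Module.End F E)ˣ) (hS : h ∈ Sset F E) :
    (mapP h (Hs F E) = Hs F E ∨ mapP h (Ls F E) = Ls F E) ∨
    (∃ n1 ∈ Nph F E, ∃ e : Eˣ, ∃ n2 ∈ Nph F E, h = n1 * (mm F E e)⁻¹ * n2⁻¹) ∨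
    h ∈ Mset F E := by
  classical
  have hS' := hS
  obtain ⟨K, k1, k2, k3⟩ := hS
  set Φ := gal F E (fr F E) with hΦ
  set Φ' := h⁻¹ * Φ * h with hΦ'
  have hΦ5 : Φ ^ 5 = 1 := by rw [hΦ, ← map_pow, fr_pow_five, map_one]
  have hΦ5' : Φ' ^ 5 = 1 := by
    have := conj_pow (a := h⁻¹) (b := Φ) (i := 5)
    rw [inv_inv] at this
    rw [hΦ', this, hΦ5]; group
  have hΦ1 : Φ ≠ 1 := by
    intro hc
    apply fr_ne_one F E
    ext v
    have := congrArg (fun g : (Module.End F E)ˣ => (g : Module.End F E) v) hc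
    exact this
  have hΦ1' : Φ' ≠ 1 := by
    intro hc
    apply hΦ1
    have : Φ = h * Φ' * h⁻¹ := by rw [hΦ']; group
    rw [this, hc]; group
  by_cases hred : ∃ U : Submodule F E, U ≠ ⊥ ∧ U ≠ ⊤ ∧ mapP Φ U = U ∧ mapP Φ' U = U
  · left
    obtain ⟨U, hU0, hU1, hU2, hU3⟩ := hred
    have hV : mapP Φ (mapP h U) = mapP h U := by
      conv_rhs => rw [← hU3]
      rw [← Equiv.Perm.mul_apply, ← Equiv.Perm.mul_apply, ← map_mul, ← map_mul, hΦ']
      congr 2
      group
    have hfr : Module.finrank F (mapP h U) = Module.finrank F U := by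
      rw [mapP_apply]
      exact LinearEquiv.finrank_map_eq (LinearMap.GeneralLinearGroup.generalLinearEquiv F E h) U
    have hL1 := finrank_Ls F E
    have hH4 := finrank_Hs F E
    have c1 := inv_subspaces F E U hU2
    have c2 := inv_subspaces F E (mapP h U) hV
    have ht : Module.finrank F (⊤ : Submodule F E) = 5 := by rw [finrank_top, st.rank5]
    have hb : Module.finrank F (⊥ : Submodule F E) = 0 := finrank_bot F E
    rcases c1 with c1 | c1 | c1 | c1
    · exact absurd c1 hU0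
    · right
      rcases c2 with c2 | c2 | c2 | c2
      · exfalso; rw [c2, hb, c1] at hfr; omega
      · rwa [c1] at c2
      · exfalso; rw [c2, hH4, c1] at hfr; omega
      · exfalso; rw [c2, ht, c1] at hfr; omega
    · left
      rcases c2 with c2 | c2 | c2 | c2
      · exfalso; rw [c2, hb, c1] at hfr; omega
      · exfalso; rw [c2, hL1, c1] at hfr; omega
      · rwa [c1] at c2
      · exfalso; rw [c2, ht, c1] at hfr; omega
    · exact absurd c1 hU1
  · right
    push Not at hred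
    have hKZ : ¬ K ≤ Zs F E := by
      intro hle
      obtain ⟨c, hc0, hc⟩ := exists_of_mem_Zs (hle k2)
      apply hΦ1
      have h1 : (Φ : Module.End F E) 1 = 1 := by rw [hΦ, gal_apply, map_one]
      rw [hc] at h1
      have hc1 : c = 1 := by
        have : algebraMap F E c = algebraMap F E 1 := by
          rw [map_one, ← h1, Algebra.smul_def, mul_one]
        exact (algebraMap F E).injective this
      apply Units.ext
      ext v
      rw [hc, hc1, one_smul]; rfl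
    obtain ⟨A, hA1, hA2, hA3, hA4, hA5⟩ := exists_abelian
      (by rw [st.rank5]; exact five_root F E) K k1 hKZ
    obtain ⟨hcomm, B, hB0, hB1, hB2, hB3, hB4⟩ := blocks A hA5
    obtain ⟨U, hU⟩ := hB0
    have hBΦ := hB3 Φ (hA2 Φ k2) (hA3 Φ k2)
    have hBΦ' := hB3 Φ' (hA2 Φ' k3) (hA3 Φ' k3)
    by_cases hUt : U = ⊤
    · left
      subst hUt
      exact field_type F E A hA5 (hB4 hU) hA4 h (hA2 Φ k2) (hA2 Φ' k3)
    · right
      have hboth : mapP Φ U ≠ U ∧ mapP Φ' U ≠ U := by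
        by_cases h1 : mapP Φ U = U
        · have h2 := hred U (hB1 U hU) hUt h1
          exact absurd h1 (other_moves F E hB1 hB2 hΦ5' hΦ5 hΦ1 hBΦ' hBΦ hU h2)
        · exact ⟨h1, other_moves F E hB1 hB2 hΦ5 hΦ5' hΦ1' hBΦ hBΦ' hU h1⟩
      obtain ⟨v, hv, hv0⟩ := (Submodule.ne_bot_iff U).1 (hB1 U hU)
      obtain ⟨o1, o2⟩ := orbit_all F E hB1 hB2 hΦ5 hBΦ hU hboth.1
      obtain ⟨o3, o4⟩ := orbit_all F E hB1 hB2 hΦ5' hBΦ' hU hboth.2
      obtain ⟨-, o5⟩ := o2 v hv hv0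
      obtain ⟨o6, -⟩ := o4 v hv hv0
      have hmem' : ∀ n : ℕ, mapP (Φ' ^ n) U ∈ B := by
        intro n
        induction n with
        | zero => simpa using hU
        | succ n ih =>
          rw [pow_succ', map_mul, Equiv.Perm.mul_apply]
          exact hBΦ' _ ih
      have hex : ∀ i : Fin 5, ∃ (p : Fin 5) (c : F),
          ((Φ' ^ (i : ℕ) : (Module.End F E)ˣ) : Module.End F E) v = c • (fr F E ^ (p : ℕ)) v := by
        intro i
        obtain ⟨p, hp⟩ := o1 _ (hmem' i)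
        obtain ⟨c, hc⟩ := o5 p (((Φ' ^ (i : ℕ) : (Module.End F E)ˣ) : Module.End F E) v) (by
          rw [← hp]; exact ⟨v, hv, rfl⟩)
        refine ⟨p, c, ?_⟩
        rw [hc, hΦ, gal_pow_apply]
      choose π l hπl using hex
      refine ⟨v, π, l, ?_, ?_⟩
      · intro i
        rw [← hπl i]
        have h1 : Φ' ^ (i : ℕ) = h⁻¹ * Φ ^ (i : ℕ) * h := by
          have := conj_pow (a := h⁻¹) (b := Φ) (i := (i : ℕ))
          rwa [inv_inv] at this
        rw [h1, val_mul_apply, val_mul_apply, val_inv_apply, hΦ, gal_pow_apply]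
      · have hspan := o6.span_eq_top_of_card_eq_finrank' (by rw [st.rank5]; simp)
        rw [← hspan]
        congr 1
        congr 1
        funext i
        exact (hπl i).symm

end Q

end Pool.Agent.Q21.SG
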