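import Pool.Agent.Q21.SG.Q

namespace Pool.Agent.Q21.SG

set_option linter.unusedSectionVars false
set_option linter.unusedVariables false

section R

variable (F E : Type) [Field F] [Finite F] [Field E] [Finite E] [Algebra F E] [st : Setup F E]

include st

theorem card_GL_lower : Nat.card F ^ 25 ≤ 32 * Nat.card (Module.End F E)ˣ := by
  classical
  have := Fintype.ofFinite F
  let b : Module.Basis (Fin 5) F E := Module.finBasisOfFinrankEq F E st.rank5
  have h1 : Nat.card (Module.End F E)ˣ = Nat.card (GL (Fin 5) F) :=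
    Nat.card_congr (Units.mapEquiv (LinearMap.toMatrixAlgEquiv b).toMulEquiv).toEquiv
  rw [h1, Matrix.card_GL_field, ← Nat.card_eq_fintype_card]
  set q := Nat.card F with hq
  have hq2 : 2 ≤ q := by
    have := st.mod3
    omega
  have h2 : ∀ i : Fin 5, q ^ 5 ≤ 2 * (q ^ 5 - q ^ (i : ℕ)) := by
    intro i
    have h3 : q ^ (i : ℕ) ≤ q ^ 4 := Nat.pow_le_pow_right (by omega) (by omega)
    have h4 : 2 * q ^ 4 ≤ q ^ 5 := by
      rw [pow_succ q 4, mul_comm]
      exact Nat.mul_le_mul_left _ hq2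
    omega
  have h3 : ∏ i : Fin 5, q ^ 5 ≤ ∏ i : Fin 5, 2 * (q ^ 5 - q ^ (i : ℕ)) :=
    Finset.prod_le_prod' (fun i _ => h2 i)
  rw [Finset.prod_mul_distrib, Finset.prod_const, Finset.prod_const] at h3
  simp only [Finset.card_univ, Fintype.card_fin] at h3
  calc q ^ 25 = (q ^ 5) ^ 5 := by ring
    _ ≤ 2 ^ 5 * ∏ i : Fin 5, (q ^ 5 - q ^ (i : ℕ)) := h3
    _ = _ := by norm_num

theorem Sset_card : (Sset F E).ncard ≤ 3158 * Nat.card F ^ 15 := by
  classical
  let Fs : Set (Module.End F E)ˣ :=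
    (fun p : ((Module.End F E)ˣ × Eˣ × (Module.End F E)ˣ) => p.1 * (mm F E p.2.1)⁻¹ * p.2.2⁻¹) ''
      (Nph F E ×ˢ (Set.univ ×ˢ Nph F E))
  have hsub : Sset F E ⊆ ((Sset F E ∩ (St F E (Hs F E) : Set (Module.End F E)ˣ)) ∪
      (Sset F E ∩ (St F E (Ls F E) : Set (Module.End F E)ˣ))) ∪ (Fs ∪ Mset F E) := by
    intro h hS
    rcases Sset_cases F E h hS with (h1 | h1) | h1 | h1
    · exact Or.inl (Or.inl ⟨hS, (mem_St F E).2 h1⟩)
    · exact Or.inl (Or.inr ⟨hS, (mem_St F E).2 h1⟩)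
    · obtain ⟨n1, hn1, e, n2, hn2, rfl⟩ := h1
      exact Or.inr (Or.inl ⟨(n1, e, n2), ⟨hn1, trivial, hn2⟩, rfl⟩)
    · exact Or.inr (Or.inr h1)
  have c1 := count_Hs F E
  have c2 := count_Ls F E
  have c3 := Mset_card F E
  have c4 : Fs.ncard ≤ 25 * Nat.card F ^ 15 := by
    refine (Set.ncard_image_le (Set.toFinite _)).trans ?_
    rw [Set.ncard_prod, Set.ncard_prod, Set.ncard_univ]
    have hn := Nph_card F E
    have he : Nat.card Eˣ ≤ Nat.card F ^ 5 := by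
      rw [card_unit (F := F)]; omega
    calc _ ≤ (5 * Nat.card F ^ 5) * (Nat.card F ^ 5 * (5 * Nat.card F ^ 5)) :=
          Nat.mul_le_mul hn (Nat.mul_le_mul he hn)
      _ = _ := by ring
  have hq : 1 ≤ Nat.card F := Nat.card_pos
  have hle : Nat.card F ^ 13 ≤ Nat.card F ^ 15 := Nat.pow_le_pow_right hq (by omega)
  refine (Set.ncard_le_ncard hsub (Set.toFinite _)).trans ?_
  refine (Set.ncard_union_le _ _).trans ?_
  have d1 := Set.ncard_union_le (Sset F E ∩ (St F E (Hs F E) : Set (Module.End F E)ˣ))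
    (Sset F E ∩ (St F E (Ls F E) : Set (Module.End F E)ˣ))
  have d2 := Set.ncard_union_le Fs (Mset F E)
  omega

theorem Sset_smul {z h : (Module.End F E)ˣ} (hz : z ∈ Zs F E) (hS : z * h ∈ Sset F E) :
    h ∈ Sset F E := by
  obtain ⟨K, k1, k2, k3⟩ := hS
  refine ⟨K, k1, k2, ?_⟩
  have : (z * h)⁻¹ * gal F E (fr F E) * (z * h) = h⁻¹ * gal F E (fr F E) * h := by
    have hc := Zs_central hz (gal F E (fr F E))
    calc (z * h)⁻¹ * gal F E (fr F E) * (z * h) = h⁻¹ * (z⁻¹ * (gal F E (fr F E) * z)) * h := by group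
      _ = _ := by rw [← hc]; group
  rwa [this] at k3

theorem decomp1 (e : Eˣ) : ∃ z ∈ Fx F E, ∃ e1 : Eˣ,
    e1 ^ (1 + Nat.card F + Nat.card F ^ 2 + Nat.card F ^ 3 + Nat.card F ^ 4) = 1 ∧ e = z * e1 := by
  obtain ⟨z, hz, c, hc⟩ := decomp (F := F) e
  refine ⟨z, hz, c ^ (Nat.card F - 1), ?_, hc⟩
  rw [← pow_mul]
  have : (Nat.card F - 1) * (1 + Nat.card F + Nat.card F ^ 2 + Nat.card F ^ 3 + Nat.card F ^ 4) =
      Nat.card Eˣ := by
    rw [card_unit (F := F)]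
    obtain ⟨r, hr⟩ : ∃ r, Nat.card F = r + 1 := ⟨Nat.card F - 1, by
      have : 0 < Nat.card F := Nat.card_pos
      omega⟩
    rw [hr, Nat.add_sub_cancel]
    have : (r + 1) ^ 5 = r * (1 + (r + 1) + (r + 1) ^ 2 + (r + 1) ^ 3 + (r + 1) ^ 4) + 1 := by ring
    omega
  rw [this, pow_card_eq_one']

theorem exists_good (hbig : 1000 ≤ Nat.card F) : ∃ g : (Module.End F E)ˣ, ∀ c c' : Eˣ,
    mm F E c' * g * (mm F E c)⁻¹ ∉ Sset F E := by
  classical
  by_contra hcon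
  push Not at hcon
  set q := Nat.card F with hq
  set N := 1 + q + q ^ 2 + q ^ 3 + q ^ 4 with hN
  let E1 : Set Eˣ := {e | e ^ N = 1}
  have hE1 : E1.ncard ≤ N := by
    have := Fintype.ofFinite Eˣ
    have h := IsCyclic.card_pow_eq_one_le (α := Eˣ) (n := N) (by omega)
    refine le_trans (le_of_eq ?_) h
    rw [← Set.ncard_coe_finset]
    congr 1
    ext e
    simp [E1]
  let img : Set (Module.End F E)ˣ :=
    (fun p : (Eˣ × (Module.End F E)ˣ × Eˣ) => (mm F E p.1)⁻¹ * p.2.1 * mm F E p.2.2) ''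
      (E1 ×ˢ (Sset F E ×ˢ E1))
  have himg : img = Set.univ := by
    rw [Set.eq_univ_iff_forall]
    intro g
    obtain ⟨c, c', hcc⟩ := hcon g
    obtain ⟨z, hz, e1, he1, rfl⟩ := decomp1 F E c
    obtain ⟨z', hz', e1', he1', rfl⟩ := decomp1 F E c'
    have hzz : mm F E (z' * z⁻¹) ∈ Zs F E := mm_mem_Zs.2 (mul_mem hz' (inv_mem hz))
    refine ⟨(e1', mm F E e1' * g * (mm F E e1)⁻¹, e1), ⟨he1', ?_, he1⟩, by simp only; group⟩
    apply Sset_smul F E hzz
    have hzc : mm F E z⁻¹ ∈ Zs F E := mm_mem_Zs.2 (inv_mem hz)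
    have e2 : mm F E (z' * z⁻¹) * (mm F E e1' * g * (mm F E e1)⁻¹) =
        mm F E (z' * e1') * g * (mm F E (z * e1))⁻¹ := by
      have h1 := Zs_central hzc (mm F E e1' * g * (mm F E e1)⁻¹)
      rw [map_mul, mul_assoc, h1, map_mul, map_mul, map_inv]
      group
    rw [e2]
    exact hcc
  have h1 : Nat.card (Module.End F E)ˣ ≤ N * (3158 * q ^ 15 * N) := by
    rw [← Set.ncard_univ, ← himg]
    refine (Set.ncard_image_le (Set.toFinite _)).trans ?_
    rw [Set.ncard_prod, Set.ncard_prod]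
    exact Nat.mul_le_mul hE1 (Nat.mul_le_mul (Sset_card F E) hE1)
  have h2 := card_GL_lower F E
  rw [← hq] at h2
  have hN2 : N ≤ 2 * q ^ 4 := by
    have a1 : 2 * q ^ 3 ≤ q ^ 4 := by
      rw [pow_succ q 3, mul_comm]; exact Nat.mul_le_mul_left _ (by omega)
    have a2 : 2 * q ^ 2 ≤ q ^ 3 := by
      rw [pow_succ q 2, mul_comm]; exact Nat.mul_le_mul_left _ (by omega)
    have a3 : 2 * q ≤ q ^ 2 := by
      rw [pow_succ q 1, pow_one, mul_comm]; exact Nat.mul_le_mul_left _ (by omega)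
    omega
  have h3 : q ^ 25 ≤ 32 * (2 * q ^ 4 * (3158 * q ^ 15 * (2 * q ^ 4))) := by
    refine h2.trans (Nat.mul_le_mul_left _ (h1.trans ?_))
    exact Nat.mul_le_mul hN2 (Nat.mul_le_mul_left _ hN2)
  have h4 : 32 * (2 * q ^ 4 * (3158 * q ^ 15 * (2 * q ^ 4))) = 404224 * q ^ 23 := by ring
  have h5 : q ^ 25 = q ^ 2 * q ^ 23 := by ring
  rw [h4, h5] at h3
  have h6 : 0 < q ^ 23 := by positivity
  have h7 : q ^ 2 ≤ 404224 := Nat.le_of_mul_le_mul_right h3 h6
  nlinarith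

theorem exists_nonscalar : ∃ e : Eˣ, e ∉ Fx F E := by
  by_contra hcon
  push Not at hcon
  have h1 : Nat.card Eˣ ≤ Nat.card Fˣ := by
    apply Nat.card_le_card_of_surjective (Units.map (algebraMap F E : F →* E))
    intro e
    exact hcon e
  rw [card_unit (F := F), Nat.card_units] at h1
  have hq2 : 2 ≤ Nat.card F := by
    have := st.mod3
    omega
  have : Nat.card F ^ 1 < Nat.card F ^ 5 := Nat.pow_lt_pow_right (by omega) (by omega)
  rw [pow_one] at this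
  omega

/-- The main theorem for the linear group. -/
theorem main_linear (hbig : 1000 ≤ Nat.card F) : ∃ (e : Eˣ) (g : (Module.End F E)ˣ),
    e ∉ Fx F E ∧ ∀ u v : (Module.End F E)ˣ, u ∉ Zs F E → v ∉ Zs F E →
      SolP (mm F E e) u → SolP u v → SolP v (g⁻¹ * mm F E e * g) → False := by
  obtain ⟨e, he⟩ := exists_nonscalar F E
  obtain ⟨g, hg⟩ := exists_good F E hbig
  refine ⟨e, g, he, ?_⟩
  intro u v hu hv h1 h2 h3
  obtain ⟨c, c', h⟩ := path_lemma he g u v hu hv h1 h2 h3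
  exact hg c c' h

end R

end Pool.Agent.Q21.SG
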