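import Pool.Agent.Q21.SG.R

namespace Pool.Agent.Q21.SG

set_option linter.unusedSectionVars false
set_option linter.unusedVariables false

section Hat

variable (F E : Type) [Field F] [Finite F] [Field E] [Finite E] [Algebra F E]

/-- linear maps as permutations -/
def lin : (Module.End F E)ˣ →* Equiv.Perm E where
  toFun g := (LinearMap.GeneralLinearGroup.generalLinearEquiv F E g).toEquiv
  map_one' := by ext v; rfl
  map_mul' := by intro a b; ext v; rfl

theorem lin_apply (g : (Module.End F E)ˣ) (v : E) : lin F E g v = (g : Module.End F E) v := rfl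

theorem lin_inj : Function.Injective (lin F E) := by
  intro a b h
  apply Units.ext
  ext v
  exact congrArg (fun f : Equiv.Perm E => f v) h

/-- the scalars -/
def Zh : Subgroup (Equiv.Perm E) := (Zs F E).map (lin F E)

omit [Finite F] [Finite E] in
theorem perm_zero {g : Equiv.Perm E} (h : ∀ v w : E, g (v + w) = g v + g w) : g 0 = 0 := by
  have := h 0 0
  rw [add_zero] at this
  exact left_eq_add.1 this

/-- The group of semilinear automorphisms of `E` over `F` whose field automorphism is a power of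
`a ↦ a ^ q0`. -/
def Gh (q0 : ℕ) (hq : q0 ^ 5 = Nat.card F) : Subgroup (Equiv.Perm E) where
  carrier := {g | (∀ v w : E, g (v + w) = g v + g w) ∧
    ∃ i : ℕ, ∀ (a : F) (v : E), g (a • v) = a ^ (q0 ^ i) • g v}
  one_mem' := ⟨fun _ _ => rfl, 0, fun a v => by simp⟩
  mul_mem' := by
    rintro g h ⟨g1, i, hi⟩ ⟨h1, j, hj⟩
    refine ⟨fun v w => ?_, j + i, fun a v => ?_⟩
    · change g (h (v + w)) = g (h v) + g (h w)
      rw [h1, g1]
    change g (h (a • v)) = a ^ (q0 ^ (j + i)) • g (h v)
    rw [hj, hi, ← pow_mul, pow_add]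
  inv_mem' := by
    rintro g ⟨g1, i, hi⟩
    refine ⟨fun v w => ?_, 4 * i, fun a v => ?_⟩
    · apply g.injective
      change g (g.symm (v + w)) = g (g.symm v + g.symm w)
      rw [g1, Equiv.apply_symm_apply, Equiv.apply_symm_apply, Equiv.apply_symm_apply]
    apply g.injective
    rw [hi]
    change g (g.symm (a • v)) = _ • g (g.symm v)
    rw [Equiv.apply_symm_apply, Equiv.apply_symm_apply, ← pow_mul, ← pow_add]
    congr 1
    have h1 : ∀ k : ℕ, a ^ (Nat.card F ^ k) = a := by
      intro k
      have := Fintype.ofFinite F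
      rw [Nat.card_eq_fintype_card]
      exact FiniteField.pow_card_pow k a
    have h2 : q0 ^ (4 * i + i) = Nat.card F ^ i := by
      rw [← hq, ← pow_mul]; congr 1; ring
    rw [h2, h1]

variable {F E}

theorem mem_Gh {q0 : ℕ} {hq : q0 ^ 5 = Nat.card F} {g : Equiv.Perm E} :
    g ∈ Gh F E q0 hq ↔ (∀ v w : E, g (v + w) = g v + g w) ∧
      ∃ i : ℕ, ∀ (a : F) (v : E), g (a • v) = a ^ (q0 ^ i) • g v := Iff.rfl

theorem lin_mem_Gh {q0 : ℕ} {hq : q0 ^ 5 = Nat.card F} (g : (Module.End F E)ˣ) :
    lin F E g ∈ Gh F E q0 hq := ⟨fun v w => by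
  rw [lin_apply, lin_apply, lin_apply, map_add], 0, fun a v => by
  rw [pow_zero, pow_one, lin_apply, lin_apply, map_smul]⟩

theorem exists_lin {g : Equiv.Perm E} (hg1 : ∀ v w : E, g (v + w) = g v + g w)
    (hg : ∀ (a : F) (v : E), g (a • v) = a • g v) :
    ∃ w : (Module.End F E)ˣ, lin F E w = g := by
  let e : E ≃ₗ[F] E := { g with map_add' := hg1, map_smul' := hg }
  refine ⟨(LinearMap.GeneralLinearGroup.generalLinearEquiv F E).symm e, ?_⟩
  ext v
  rfl

/-- solubility in the big group -/
def SolH (q0 : ℕ) (hq : q0 ^ 5 = Nat.card F) (a b : Equiv.Perm E) : Prop :=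
  ∃ K : Subgroup (Equiv.Perm E), Group.IsSolvable K ∧ Zh F E ≤ K ∧ K ≤ Gh F E q0 hq ∧ a ∈ K ∧ b ∈ K

theorem SolH.toP {q0 : ℕ} {hq : q0 ^ 5 = Nat.card F} {a b : (Module.End F E)ˣ} {a' b' : Equiv.Perm E}
    (h : SolH q0 hq a' b') {k l : ℕ} (ha : lin F E a = a' ^ k) (hb : lin F E b = b' ^ l) : SolP a b := by
  obtain ⟨K, h1, h2, h3, h4, h5⟩ := h
  refine ⟨K.comap (lin F E), ?_, ?_, ?_, ?_⟩
  · refine Group.isSolvable_of_isSolvable_injective (f := (lin F E).subgroupComap K) ?_
    intro x y hxy
    apply Subtype.ext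
    apply lin_inj F E
    exact congrArg Subtype.val hxy
  · intro z hz
    exact h2 ⟨z, hz, rfl⟩
  · rw [Subgroup.mem_comap, ha]; exact pow_mem h4 k
  · rw [Subgroup.mem_comap, hb]; exact pow_mem h5 l

variable [st : Setup F E]

include st

variable (F E) in
theorem two_E : (2 : E) = 0 := by
  have := congrArg (algebraMap F E) st.two
  rwa [map_ofNat, map_zero] at this

/-- ring endomorphisms of `E` with fifth power one fix `F`, when `q = q0 ^ 5` and `q0 = 2 ^ m` -/
theorem fix_of_pow_five {m : ℕ} (hm : 0 < m) (hcard : Nat.card F = 2 ^ (5 * m)) (τ : E →+* E)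
    (h5 : ∀ y, τ (τ (τ (τ (τ y)))) = y) (a : F) : τ (algebraMap F E a) = algebraMap F E a := by
  have hfact : Fact (Nat.Prime 2) := ⟨Nat.prime_two⟩
  have hchar : CharP E 2 := by
    exact CharTwo.of_one_ne_zero_of_two_eq_zero (R := E) one_ne_zero (two_E F E)
  let alg2 : Algebra (ZMod 2) E := ZMod.algebra E 2
  let τ' : E →ₐ[ZMod 2] E :=
    { τ with
      commutes' := fun c => by
        have h0 : (τ.comp (algebraMap (ZMod 2) E)) = algebraMap (ZMod 2) E := Subsingleton.elim _ _
        exact congrArg (fun f : ZMod 2 →+* E => f c) h0 }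
  obtain ⟨⟨n, hn⟩, hn2⟩ := (FiniteField.bijective_frobeniusAlgHom_pow (ZMod 2) E).2 τ'
  simp only at hn2
  have hfin : Module.finrank (ZMod 2) E = 25 * m := by
    have h1 : 2 ^ Module.finrank (ZMod 2) E = Nat.card E := FiniteField.pow_finrank_eq_natCard 2 E
    rw [card_E F E, hcard, ← pow_mul] at h1
    have := Nat.pow_right_injective (le_refl 2) h1
    rw [this]; ring
  have hτ : ∀ y, τ y = y ^ (2 ^ n) := by
    intro y
    have h1 : τ y = τ' y := rfl
    rw [h1, ← hn2, AlgHom.coe_pow, FiniteField.coe_frobeniusAlgHom, pow_iterate]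
    simp
  have hord := FiniteField.orderOf_frobeniusAlgHom (ZMod 2) E
  have h6 : (FiniteField.frobeniusAlgHom (ZMod 2) E) ^ (5 * n) = 1 := by
    ext y
    rw [AlgHom.coe_pow, FiniteField.coe_frobeniusAlgHom, pow_iterate]
    have := h5 y
    simp only [hτ, ← pow_mul] at this
    simp only [ZMod.card, AlgHom.one_apply]
    rw [← this]
    conv_lhs => rw [this]
    congr 1
    ring
  have h7 : 25 * m ∣ 5 * n := by
    rw [← hfin, ← hord]
    exact orderOf_dvd_of_pow_eq_one h6
  obtain ⟨k, hk⟩ := h7
  have hn5 : n = 5 * m * k := by nlinarith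
  rw [hτ, ← map_pow, hn5, pow_mul 2, ← hcard]
  congr 1
  have := Fintype.ofFinite F
  rw [Nat.card_eq_fintype_card]
  exact FiniteField.pow_card_pow k a

/-- some power of a neighbour is linear and nonscalar -/
theorem power_lemma {m : ℕ} (hm : 0 < m) (hcard : Nat.card F = 2 ^ (5 * m)) (q0 : ℕ)
    (hq : q0 ^ 5 = Nat.card F) {e : Eˣ} (he : e ∉ Fx F E) (u : Equiv.Perm E) (huZ : u ∉ Zh F E)
    (h : SolH q0 hq (lin F E (mm F E e)) u) :
    ∃ (k : ℕ) (w : (Module.End F E)ˣ), w ∉ Zs F E ∧ lin F E w = u ^ k := by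
  obtain ⟨K, k1, k2, k3, k4, k5⟩ := h
  obtain ⟨huadd, i, hi⟩ := k3 k5
  by_cases hlin : ∀ a : F, a ^ (q0 ^ i) = a
  · obtain ⟨w, hw⟩ := exists_lin (F := F) (g := u) huadd (fun a v => by rw [hi, hlin])
    refine ⟨1, w, ?_, by rw [hw, pow_one]⟩
    intro hwZ
    exact huZ ⟨w, hwZ, hw⟩
  · have hpow : ∀ (n : ℕ) (a : F) (v : E), (u ^ n) (a • v) = a ^ (q0 ^ (n * i)) • (u ^ n) v := by
      intro n
      induction n with
      | zero => intro a v; simp
      | succ n ih =>
        intro a v
        rw [pow_succ']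
        change u ((u ^ n) (a • v)) = _ • u ((u ^ n) v)
        rw [ih, hi, ← pow_mul, ← pow_add]
        congr 3
        ring
    have h5 : ∀ (a : F) (v : E), (u ^ 5) (a • v) = a • (u ^ 5) v := by
      intro a v
      rw [hpow, pow_mul, hq]
      congr 1
      have := Fintype.ofFinite F
      rw [Nat.card_eq_fintype_card]
      exact FiniteField.pow_card_pow i a
    obtain ⟨w, hw⟩ := exists_lin (k3 (pow_mem k5 5)).1 h5
    refine ⟨5, w, ?_, hw⟩
    intro hwZ
    obtain ⟨lam, hlam0, hlam⟩ := exists_of_mem_Zs hwZ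
    apply hlin
    -- the conjugate of x is linear and in E
    have hcl : ∀ (a : F) (v : E), (u⁻¹ * lin F E (mm F E e) * u) (a • v) =
        a • (u⁻¹ * lin F E (mm F E e) * u) v := by
      intro a v
      change u.symm (lin F E (mm F E e) (u (a • v))) = a • u.symm (lin F E (mm F E e) (u v))
      apply u.injective
      rw [hi, hi, Equiv.apply_symm_apply, Equiv.apply_symm_apply, lin_apply, lin_apply,
        map_smul]
    obtain ⟨w', hw'⟩ := exists_lin
      (k3 (mul_mem (mul_mem (inv_mem k5) k4) k5)).1 hcl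
    have hK1 : Group.IsSolvable (K.comap (lin F E)) := by
      refine Group.isSolvable_of_isSolvable_injective (f := (lin F E).subgroupComap K) ?_
      intro x y hxy
      apply Subtype.ext
      apply lin_inj F E
      exact congrArg Subtype.val hxy
    obtain ⟨α, hα⟩ := lemB (K.comap (lin F E)) hK1 he k4 w' (by
      rw [Subgroup.mem_comap, hw']
      exact mul_mem (mul_mem (inv_mem k5) k4) k5)
    have hα1 : α = 1 := by
      apply hα.eq_one (coprime_unit (F := F) (E := E))
      have h1 : w' ^ Nat.card Eˣ = 1 := by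
        apply lin_inj F E
        rw [map_pow, hw']
        have := conj_pow (a := u⁻¹) (b := lin F E (mm F E e)) (i := Nat.card Eˣ)
        rw [inv_inv] at this
        rw [this, ← map_pow, ← map_pow, pow_card_eq_one', map_one, map_one]
        group
      rw [h1]
      exact semi_one
    subst hα1
    obtain ⟨e', he'⟩ := hα.eq_mm
    have hue : ∀ v : E, u ((e' : E) * v) = e * u v := by
      intro v
      have h1 : lin F E w' v = (e' : E) * v := by rw [he']; rfl
      rw [← h1, hw']
      change u (u.symm (lin F E (mm F E e) (u v))) = _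
      rw [Equiv.apply_symm_apply]; rfl
    have hex : ∀ y : E, ∃ y' : E, ∀ v : E, u (y' * v) = y * u v := by
      let S : Subalgebra F E :=
        { carrier := {y | ∃ y' : E, ∀ v : E, u (y' * v) = y * u v}
          mul_mem' := by
            rintro x x' ⟨y, hy⟩ ⟨y', hy'⟩
            refine ⟨y * y', fun v => by rw [mul_assoc, hy, hy', mul_assoc]⟩
          add_mem' := by
            rintro x x' ⟨y, hy⟩ ⟨y', hy'⟩
            exact ⟨y + y', fun v => by rw [add_mul, huadd, hy, hy', add_mul]⟩
          algebraMap_mem' := fun r => ⟨algebraMap F E (r ^ (q0 ^ (4 * i))), fun v => by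
            rw [← Algebra.smul_def, hi, ← pow_mul, ← pow_add]
            have h2 : q0 ^ (4 * i + i) = Nat.card F ^ i := by
              rw [← hq, ← pow_mul]; congr 1; ring
            rw [h2]
            have := Fintype.ofFinite F
            rw [Nat.card_eq_fintype_card, FiniteField.pow_card_pow, Algebra.smul_def]⟩ }
      have hS : S = ⊤ := sub_top S (e := (e : E)) ⟨e', hue⟩ (fun h => he (mem_Fx.2 h))
      intro y
      have : y ∈ S := by rw [hS]; trivial
      exact this
    choose τ hτ using hex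
    have hcancel : ∀ y z : E, (∀ v : E, u (y * v) = u (z * v)) → y = z := by
      intro y z h
      have := u.injective (h 1)
      simpa using this
    let τr : E →+* E :=
      { toFun := τ
        map_one' := hcancel _ _ fun v => by rw [hτ, one_mul, one_mul]
        map_mul' := fun y z => hcancel _ _ fun v => by rw [hτ, mul_assoc (τ y), hτ, hτ, mul_assoc]
        map_zero' := hcancel _ _ fun v => by rw [hτ, zero_mul, zero_mul, perm_zero E huadd]
        map_add' := fun y z => hcancel _ _ fun v => by rw [hτ, add_mul (τ y), huadd, hτ, hτ, add_mul] }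
    have hτ5 : ∀ y, τr (τr (τr (τr (τr y)))) = y := by
      intro y
      have h1 : ∀ v : E, (u ^ 5) (τ (τ (τ (τ (τ y)))) * v) = y * (u ^ 5) v := by
        intro v
        change u (u (u (u (u (_ * v))))) = y * u (u (u (u (u v))))
        rw [hτ, hτ, hτ, hτ, hτ]
      have h2 := h1 1
      rw [← hw, lin_apply, lin_apply, hlam, hlam, mul_one] at h2
      have h3 : lam • (τ (τ (τ (τ (τ y)))) - y) = 0 := by
        rw [smul_sub, h2, mul_smul_comm, mul_one, sub_self]
      rcases smul_eq_zero.1 h3 with h4 | h4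
      · exact absurd h4 hlam0
      · exact sub_eq_zero.1 h4
    intro a
    have h6 := fix_of_pow_five hm hcard τr hτ5 a
    have h7 : u (algebraMap F E a * 1) = algebraMap F E a * u 1 := by
      have := hτ (algebraMap F E a) 1
      rw [show τ (algebraMap F E a) = algebraMap F E a from h6] at this
      exact this
    rw [← Algebra.smul_def, hi, ← Algebra.smul_def] at h7
    have h8 : u 1 ≠ 0 := by
      intro h
      apply one_ne_zero (α := E)
      apply u.injective
      rw [h, perm_zero E huadd]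
    have h9 : (a ^ (q0 ^ i) - a) • u 1 = 0 := by rw [sub_smul, h7, sub_self]
    rcases smul_eq_zero.1 h9 with h | h
    · exact sub_eq_zero.1 h
    · exact absurd h h8

end Hat

end Pool.Agent.Q21.SG
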