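import Pool.Agent.Q21.SG.T

namespace Pool.Agent.Q21.SG

section Graph

variable (G : Type*) [Group G]

/-- The soluble radical: the join of all soluble normal subgroups (for a finite group this is the
largest soluble normal subgroup). -/
def radical : Subgroup G := sSup {N : Subgroup G | N.Normal ∧ Group.IsSolvable N}

/-- The soluble graph: vertices are the elements outside the soluble radical, distinct vertices are
adjacent when they generate a soluble subgroup. -/
def solubleGraph : SimpleGraph {x : G // x ∉ radical G} where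
  Adj x y := x ≠ y ∧ Group.IsSolvable (Subgroup.closure {(x : G), (y : G)})
  symm := ⟨fun x y h => ⟨h.1.symm, by rw [Set.pair_comm]; exact h.2⟩⟩
  loopless := ⟨fun x h => h.1 rfl⟩

/-- there are two nontrivial elements with no short path -/
def NoPath : Prop := ∃ x y : G, x ≠ 1 ∧ y ≠ 1 ∧ ∀ u v : G, u ≠ 1 → v ≠ 1 →
  Group.IsSolvable (Subgroup.closure {x, u}) → Group.IsSolvable (Subgroup.closure {u, v}) →
  Group.IsSolvable (Subgroup.closure {v, y}) → False

variable {G}

theorem solvable_pair_self (r : G) : Group.IsSolvable (Subgroup.closure {r, r}) := by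
  apply isSolvable_closure_comm
  rintro a (rfl | rfl) b (rfl | rfl) <;> rfl

theorem solvable_pair_normal (N : Subgroup G) [hN : N.Normal] (hs : Group.IsSolvable N) (x r : G)
    (hr : r ∈ N) : Group.IsSolvable (Subgroup.closure {x, r}) := by
  set K := Subgroup.closure {x, r} with hK
  let g : K →* K.map (QuotientGroup.mk' N) := (QuotientGroup.mk' N).subgroupMap K
  have h1 : Group.IsSolvable (K.map (QuotientGroup.mk' N)) := by
    rw [hK, MonoidHom.map_closure]
    apply isSolvable_closure_comm
    have h2 : QuotientGroup.mk' N r = 1 := by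
      rw [QuotientGroup.mk'_apply, QuotientGroup.eq_one_iff]; exact hr
    rintro _ ⟨a, (rfl | rfl), rfl⟩ _ ⟨b, (rfl | rfl), rfl⟩ <;> simp only [h2, one_mul, mul_one]
  have h3 : Group.IsSolvable (N.subgroupOf K) := by
    refine Group.isSolvable_of_isSolvable_injective (f := K.subtype.subgroupComap N) ?_
    intro a b hab
    apply Subtype.ext
    apply Subtype.ext
    exact congrArg (fun z : N => (z : G)) hab
  refine Group.isSolvable_of_ker_le_range (N.subgroupOf K).subtype g ?_
  intro k hk
  rw [Subgroup.range_subtype, Subgroup.mem_subgroupOf]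
  have : QuotientGroup.mk' N (k : G) = 1 := congrArg Subtype.val hk
  rwa [QuotientGroup.mk'_apply, QuotientGroup.eq_one_iff] at this

theorem NoPath.not_solvable (h : NoPath G) : ¬ Group.IsSolvable G := by
  intro hs
  obtain ⟨x, y, hx, hy, h⟩ := h
  exact h x y hx hy inferInstance inferInstance inferInstance

theorem NoPath.radical_eq (h : NoPath G) : radical G = ⊥ := by
  obtain ⟨x, y, hx, hy, h⟩ := h
  rw [eq_bot_iff]
  apply sSup_le
  rintro N ⟨hN, hs⟩ r hr
  rw [Subgroup.mem_bot]
  by_contra hr1
  exact h r r hr1 hr1 (solvable_pair_normal N hs x r hr) (solvable_pair_self r)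
    (by rw [Set.pair_comm]; exact solvable_pair_normal N hs y r hr)

theorem NoPath.edist (h : NoPath G) : ∃ x y : {x : G // x ∉ radical G},
    4 ≤ (solubleGraph G).edist x y := by
  have hr := h.radical_eq
  obtain ⟨x, y, hx, hy, h⟩ := h
  have hx' : x ∉ radical G := by rw [hr]; simpa using hx
  have hy' : y ∉ radical G := by rw [hr]; simpa using hy
  refine ⟨⟨x, hx'⟩, ⟨y, hy'⟩, ?_⟩
  by_contra hlt
  rw [not_le] at hlt
  have hne : (solubleGraph G).edist ⟨x, hx'⟩ ⟨y, hy'⟩ ≠ ⊤ := ne_top_of_lt hlt
  obtain ⟨p, hp⟩ := SimpleGraph.exists_walk_of_edist_ne_top hne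
  rw [← hp] at hlt
  have hlen : p.length < 4 := by exact_mod_cast hlt
  have hstep : ∀ i, Group.IsSolvable (Subgroup.closure
      {((p.getVert i : {x : G // x ∉ radical G}) : G), ((p.getVert (i + 1) : {x : G // x ∉ radical G}) : G)}) := by
    intro i
    by_cases hi : i < p.length
    · have h4 : (solubleGraph G).Adj (p.getVert i) (p.getVert (i + 1)) := p.adj_getVert_succ hi
      exact h4.2
    · rw [p.getVert_of_length_le (by omega), p.getVert_of_length_le (by omega)]
      exact solvable_pair_self _
  have h1 : ∀ z : {x : G // x ∉ radical G}, (z : G) ≠ 1 := by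
    intro z hz
    apply z.2
    rw [hz]
    exact one_mem _
  have e0 := hstep 0
  have e1 := hstep 1
  have e2 := hstep 2
  rw [p.getVert_zero] at e0
  rw [p.getVert_of_length_le (show p.length ≤ 2 + 1 by omega)] at e2
  exact h _ _ (h1 _) (h1 _) e0 e1 e2

end Graph

end Pool.Agent.Q21.SG
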