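import Pool.Agent.Q21.SG.U

namespace Pool.Agent.Q21.SG

set_option linter.unusedSectionVars false
set_option linter.unusedVariables false

section W

variable {F E : Type} [Field F] [Finite F] [Field E] [Finite E] [Algebra F E]

theorem Zh_solvable : Group.IsSolvable (Zh F E) := by
  apply isSolvable_map
  unfold Zs
  rw [MonoidHom.range_eq_map]
  exact isSolvable_map _ _ inferInstance

theorem lin_mem_Zh {g : (Module.End F E)ˣ} : lin F E g ∈ Zh F E ↔ g ∈ Zs F E := by
  constructor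
  · rintro ⟨z, hz, h⟩
    rwa [← lin_inj F E h]
  · intro h
    exact ⟨g, h, rfl⟩

theorem SolH.symm {q0 : ℕ} {hq : q0 ^ 5 = Nat.card F} {a b : Equiv.Perm E}
    (h : SolH q0 hq a b) : SolH q0 hq b a := by
  obtain ⟨K, h1, h2, h3, h4, h5⟩ := h
  exact ⟨K, h1, h2, h3, h5, h4⟩

theorem conj_lin {q0 : ℕ} {hq : q0 ^ 5 = Nat.card F} {k : Equiv.Perm E} (hk : k ∈ Gh F E q0 hq)
    (w : (Module.End F E)ˣ) : ∃ w' : (Module.End F E)ˣ, lin F E w' = k * lin F E w * k⁻¹ := by
  have hk' := inv_mem hk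
  obtain ⟨k1, i, hi⟩ := hk
  refine exists_lin (g := k * lin F E w * k⁻¹) ?_ ?_
  · intro v w'
    change k (lin F E w (k.symm (v + w'))) = k (lin F E w (k.symm v)) + k (lin F E w (k.symm w'))
    have := hk'.1 v w'
    change k.symm (v + w') = k.symm v + k.symm w' at this
    rw [this, lin_apply, map_add, k1]; rfl
  · intro a v
    change k (lin F E w (k.symm (a • v))) = a • k (lin F E w (k.symm v))
    have h4 : ∀ a : F, (a ^ (q0 ^ (4 * i))) ^ (q0 ^ i) = a := by
      intro a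
      rw [← pow_mul, ← pow_add]
      have h2 : q0 ^ (4 * i + i) = Nat.card F ^ i := by
        rw [← hq, ← pow_mul]; congr 1; ring
      rw [h2]
      have := Fintype.ofFinite F
      rw [Nat.card_eq_fintype_card]
      exact FiniteField.pow_card_pow i a
    have h5 : k.symm (a • v) = a ^ (q0 ^ (4 * i)) • k.symm v := by
      apply k.injective
      rw [hi, h4, Equiv.apply_symm_apply, Equiv.apply_symm_apply]
    rw [h5, lin_apply, map_smul, hi, h4]; rfl

theorem conj_Zh {q0 : ℕ} {hq : q0 ^ 5 = Nat.card F} {k : Equiv.Perm E} (hk : k ∈ Gh F E q0 hq)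
    {z : Equiv.Perm E} (hz : z ∈ Zh F E) : k * z * k⁻¹ ∈ Zh F E := by
  obtain ⟨z0, hz0, rfl⟩ := hz
  obtain ⟨w', hw'⟩ := conj_lin hk z0
  obtain ⟨c, hc0, hc⟩ := exists_of_mem_Zs hz0
  obtain ⟨k1, i, hi⟩ := hk
  rw [← hw', lin_mem_Zh]
  refine mem_Zs ⟨c ^ (q0 ^ i), fun v => ?_⟩
  rw [← lin_apply, hw']
  change k ((z0 : Module.End F E) (k.symm v)) = _
  rw [hc, hi, Equiv.apply_symm_apply]

instance Zn (q0 : ℕ) (hq : q0 ^ 5 = Nat.card F) : ((Zh F E).subgroupOf (Gh F E q0 hq)).Normal := by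
  constructor
  intro z hz k
  rw [Subgroup.mem_subgroupOf] at hz ⊢
  exact conj_Zh k.2 hz

variable (F E) in
/-- The projective semilinear group with field automorphisms of order dividing five. -/
abbrev PGh (q0 : ℕ) (hq : q0 ^ 5 = Nat.card F) : Type :=
  (Gh F E q0 hq) ⧸ ((Zh F E).subgroupOf (Gh F E q0 hq))

theorem Zh_le {q0 : ℕ} {hq : q0 ^ 5 = Nat.card F} : Zh F E ≤ Gh F E q0 hq := by
  rintro _ ⟨z, hz, rfl⟩
  exact lin_mem_Gh z

theorem solH_of {q0 : ℕ} {hq : q0 ^ 5 = Nat.card F} (x u : Gh F E q0 hq)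
    (h : Group.IsSolvable (Subgroup.closure
      {(QuotientGroup.mk x : PGh F E q0 hq), (QuotientGroup.mk u : PGh F E q0 hq)})) :
    SolH q0 hq (x : Equiv.Perm E) u := by
  set Z' := (Zh F E).subgroupOf (Gh F E q0 hq) with hZ'
  set C := Subgroup.closure
      {(QuotientGroup.mk x : PGh F E q0 hq), (QuotientGroup.mk u : PGh F E q0 hq)} with hC
  let π := QuotientGroup.mk' Z'
  have hZle : Z' ≤ C.comap π := by
    intro z hz
    rw [Subgroup.mem_comap, QuotientGroup.mk'_apply, (QuotientGroup.eq_one_iff z).2 hz]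
    exact one_mem _
  have hZs : Group.IsSolvable Z' := by
    refine @Group.isSolvable_of_isSolvable_injective _ _ _ _
      ((Gh F E q0 hq).subtype.subgroupComap (Zh F E)) ?_ Zh_solvable
    intro a b hab
    apply Subtype.ext
    apply Subtype.ext
    exact congrArg (fun z : Zh F E => (z : Equiv.Perm E)) hab
  have hK : Group.IsSolvable (C.comap π) := by
    refine Group.isSolvable_of_ker_le_range (Subgroup.inclusion hZle) (π.subgroupComap C) ?_
    intro k hk
    have h1 : π (k : Gh F E q0 hq) = 1 := congrArg (fun z : C => (z : PGh F E q0 hq)) hk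
    rw [QuotientGroup.mk'_apply, QuotientGroup.eq_one_iff] at h1
    exact ⟨⟨k, h1⟩, Subtype.ext rfl⟩
  refine ⟨(C.comap π).map (Gh F E q0 hq).subtype, isSolvable_map _ _ hK, ?_, ?_, ?_, ?_⟩
  · intro z hz
    exact ⟨⟨z, Zh_le hz⟩, hZle hz, rfl⟩
  · rintro _ ⟨z, _, rfl⟩
    exact z.2
  · exact ⟨x, Subgroup.subset_closure (Or.inl rfl), rfl⟩
  · exact ⟨u, Subgroup.subset_closure (Or.inr rfl), rfl⟩

theorem SolH.conj {q0 : ℕ} {hq : q0 ^ 5 = Nat.card F} {a b : Equiv.Perm E}
    (h : SolH q0 hq a b) {g : Equiv.Perm E} (hg : g ∈ Gh F E q0 hq) :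
    SolH q0 hq (g * a * g⁻¹) (g * b * g⁻¹) := by
  obtain ⟨K, h1, h2, h3, h4, h5⟩ := h
  refine ⟨K.map (MulAut.conj g).toMonoidHom, isSolvable_map _ K h1, ?_, ?_, ⟨a, h4, rfl⟩,
    ⟨b, h5, rfl⟩⟩
  · intro z hz
    refine ⟨g⁻¹ * z * g, h2 ?_, ?_⟩
    · have := conj_Zh (inv_mem hg) hz
      rwa [inv_inv] at this
    · change g * (g⁻¹ * z * g) * g⁻¹ = z
      group
  · rintro _ ⟨k, hk, rfl⟩
    exact mul_mem (mul_mem hg (h3 hk)) (inv_mem hg)

variable [st : Setup F E]

include st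

theorem noPath {m : ℕ} (hm : 0 < m) (hcard : Nat.card F = 2 ^ (5 * m)) (q0 : ℕ)
    (hq : q0 ^ 5 = Nat.card F) (hbig : 1000 ≤ Nat.card F) : NoPath (PGh F E q0 hq) := by
  obtain ⟨e, g, he, hmain⟩ := main_linear F E hbig
  have hx : mm F E e ∉ Zs F E := fun h => he (mm_mem_Zs.1 h)
  have hne : ∀ w : (Module.End F E)ˣ, w ∉ Zs F E →
      (QuotientGroup.mk (⟨lin F E w, lin_mem_Gh w⟩ : Gh F E q0 hq) : PGh F E q0 hq) ≠ 1 := by
    intro w hw h
    rw [QuotientGroup.eq_one_iff, Subgroup.mem_subgroupOf] at h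
    exact hw (lin_mem_Zh.1 h)
  have hconj : ∀ w : (Module.End F E)ˣ, w ∉ Zs F E → g⁻¹ * w * g ∉ Zs F E := by
    intro w hw h
    apply hw
    have h1 := Zs_central h g
    have : w = g⁻¹ * w * g := by
      have h2 : g * (g⁻¹ * w * g) = g⁻¹ * w * g * g := h1.symm
      have h3 : w * g = g⁻¹ * w * g * g := by rw [← h2]; group
      exact mul_right_cancel h3
    rw [this]; exact h
  refine ⟨QuotientGroup.mk (⟨lin F E (mm F E e), lin_mem_Gh _⟩ : Gh F E q0 hq),
    QuotientGroup.mk (⟨lin F E (g⁻¹ * mm F E e * g), lin_mem_Gh _⟩ : Gh F E q0 hq),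
    hne _ hx, hne _ (hconj _ hx), ?_⟩
  intro u v hu hv h1 h2 h3
  obtain ⟨u, rfl⟩ := QuotientGroup.mk_surjective u
  obtain ⟨v, rfl⟩ := QuotientGroup.mk_surjective v
  have s1 := solH_of _ _ h1
  have s2 := solH_of _ _ h2
  have s3 := solH_of _ _ h3
  have huZ : (u : Equiv.Perm E) ∉ Zh F E := by
    intro h
    apply hu
    rw [QuotientGroup.eq_one_iff, Subgroup.mem_subgroupOf]
    exact h
  have hvZ : (v : Equiv.Perm E) ∉ Zh F E := by
    intro h
    apply hv
    rw [QuotientGroup.eq_one_iff, Subgroup.mem_subgroupOf]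
    exact h
  obtain ⟨k, w, hw, hwk⟩ := power_lemma hm hcard q0 hq he _ huZ s1
  have hg : lin F E g ∈ Gh F E q0 hq := lin_mem_Gh g
  have s3' := (s3.conj hg).symm
  have e1 : lin F E g * ((⟨lin F E (g⁻¹ * mm F E e * g), lin_mem_Gh _⟩ : Gh F E q0 hq) :
      Equiv.Perm E) * (lin F E g)⁻¹ = lin F E (mm F E e) := by
    change lin F E g * lin F E (g⁻¹ * mm F E e * g) * (lin F E g)⁻¹ = _
    rw [← map_inv, ← map_mul, ← map_mul]
    congr 1
    group
  rw [e1] at s3'
  have hvZ' : lin F E g * (v : Equiv.Perm E) * (lin F E g)⁻¹ ∉ Zh F E := by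
    intro h
    apply hvZ
    have := conj_Zh (inv_mem hg) h
    rw [inv_inv] at this
    convert! this using 1
    group
  obtain ⟨l, w2, hw2, hwl⟩ := power_lemma hm hcard q0 hq he _ hvZ' s3'
  have hwl' : lin F E (g⁻¹ * w2 * g) = (v : Equiv.Perm E) ^ l := by
    rw [map_mul, map_mul, map_inv, hwl, conj_pow]
    group
  refine hmain w (g⁻¹ * w2 * g) hw (hconj _ hw2) ?_ ?_ ?_
  · exact s1.toP (k := 1) (l := k) (by rw [pow_one]) hwk
  · exact s2.toP hwk hwl'
  · exact s3.toP (k := l) (l := 1) hwl' (by rw [pow_one])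

theorem card_PGh (q0 : ℕ) (hq : q0 ^ 5 = Nat.card F) : Nat.card F ≤ Nat.card (PGh F E q0 hq) := by
  let φ : Eˣ →* PGh F E q0 hq :=
    { toFun := fun e => QuotientGroup.mk (⟨lin F E (mm F E e), lin_mem_Gh _⟩ : Gh F E q0 hq)
      map_one' := by
        rw [QuotientGroup.eq_one_iff, Subgroup.mem_subgroupOf]
        change lin F E (mm F E 1) ∈ Zh F E
        rw [map_one, map_one]; exact one_mem _
      map_mul' := by
        intro a b
        rw [← QuotientGroup.mk_mul]
        congr 1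
        apply Subtype.ext
        change lin F E (mm F E (a * b)) = lin F E (mm F E a) * lin F E (mm F E b)
        rw [map_mul, map_mul] }
  have hker : φ.ker = Fx F E := by
    ext e
    rw [MonoidHom.mem_ker]
    change (QuotientGroup.mk (⟨lin F E (mm F E e), lin_mem_Gh _⟩ : Gh F E q0 hq) :
      PGh F E q0 hq) = 1 ↔ _
    rw [QuotientGroup.eq_one_iff, Subgroup.mem_subgroupOf]
    change lin F E (mm F E e) ∈ Zh F E ↔ _
    rw [lin_mem_Zh, mm_mem_Zs]
  have h1 : Nat.card Eˣ = Nat.card φ.range * Nat.card (Fx F E) := by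
    rw [← hker, Subgroup.card_eq_card_quotient_mul_card_subgroup φ.ker]
    congr 1
    exact Nat.card_congr (QuotientGroup.quotientKerEquivRange φ).toEquiv
  have h2 : Nat.card φ.range ≤ Nat.card (PGh F E q0 hq) :=
    Nat.card_le_card_of_injective _ Subtype.val_injective
  have h3 : Nat.card (Fx F E) ≤ Nat.card F - 1 := by
    rw [← Nat.card_units]
    apply Nat.card_le_card_of_surjective
      (f := (Units.map (algebraMap F E : F →* E)).rangeRestrict)
    exact MonoidHom.rangeRestrict_surjective _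
  rw [card_unit (F := F)] at h1
  by_contra hlt
  rw [not_le] at hlt
  set q := Nat.card F
  have hq2 : 2 ≤ q := by
    have := st.mod3
    omega
  have h4 : q ^ 5 - 1 ≤ (q - 1) * (q - 1) := by
    rw [h1]
    exact Nat.mul_le_mul (by omega) h3
  obtain ⟨r, hr⟩ : ∃ r, q = r + 1 := ⟨q - 1, by omega⟩
  rw [hr, Nat.add_sub_cancel] at h4
  have h5 : (r + 1) ^ 5 = r * r + 1 + (r ^ 5 + 5 * r ^ 4 + 10 * r ^ 3 + 9 * r ^ 2 + 5 * r) := by ring
  have h6 : 0 < r := by omega
  omega

theorem not_simple {m : ℕ} (hm : 0 < m) (hcard : Nat.card F = 2 ^ (5 * m))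
    (hq : (2 ^ m) ^ 5 = Nat.card F) : ¬ IsSimpleGroup (PGh F E (2 ^ m) hq) := by
  intro hs
  obtain ⟨e, he⟩ := exists_nonscalar F E
  have hx : mm F E e ∉ Zs F E := fun h => he (mm_mem_Zs.1 h)
  let L : Subgroup (Gh F E (2 ^ m) hq) := (lin F E).range.subgroupOf (Gh F E (2 ^ m) hq)
  have hLn : L.Normal := by
    constructor
    rintro z ⟨w, hw⟩ k
    obtain ⟨w', hw'⟩ := conj_lin k.2 w
    refine ⟨w', ?_⟩
    rw [hw', hw]; rfl
  let N : Subgroup (PGh F E (2 ^ m) hq) := L.map (QuotientGroup.mk' _)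
  have hNn : N.Normal := hLn.map _ (QuotientGroup.mk'_surjective _)
  rcases hNn.eq_bot_or_eq_top with h | h
  · have hmem : (QuotientGroup.mk (⟨lin F E (mm F E e), lin_mem_Gh _⟩ : Gh F E (2 ^ m) hq) :
        PGh F E (2 ^ m) hq) ∈ N := ⟨_, ⟨mm F E e, rfl⟩, rfl⟩
    rw [h, Subgroup.mem_bot, QuotientGroup.eq_one_iff, Subgroup.mem_subgroupOf] at hmem
    exact hx (lin_mem_Zh.1 hmem)
  · have hchar : CharP E 2 := CharTwo.of_one_ne_zero_of_two_eq_zero one_ne_zero (two_E F E)
    have hfact : Fact (Nat.Prime 2) := ⟨Nat.prime_two⟩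
    let t : Equiv.Perm E := Equiv.ofBijective (fun v : E => v ^ (2 ^ m))
      (Finite.injective_iff_bijective.1 (by
        intro v w hvw
        exact (iterateFrobenius E 2 m).injective hvw))
    have ht : t ∈ Gh F E (2 ^ m) hq := by
      refine ⟨fun v w => ?_, 1, fun a v => ?_⟩
      · exact (iterateFrobenius E 2 m).map_add v w
      · change (a • v) ^ (2 ^ m) = a ^ ((2 ^ m) ^ 1) • v ^ (2 ^ m)
        rw [pow_one, smul_pow]
    have hmem : (QuotientGroup.mk (⟨t, ht⟩ : Gh F E (2 ^ m) hq) : PGh F E (2 ^ m) hq) ∈ N := by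
      rw [h]; trivial
    obtain ⟨⟨w, hw⟩, ⟨w0, hw0⟩, hwt⟩ := hmem
    rw [QuotientGroup.mk'_apply, QuotientGroup.eq, Subgroup.mem_subgroupOf] at hwt
    obtain ⟨z, hz, hzt⟩ := hwt
    -- t is linear
    have htl : t = lin F E (w0 * z) := by
      rw [map_mul, hzt]
      have : lin F E w0 = w := hw0
      rw [this]
      change t = w * (w⁻¹ * t)
      group
    have hfix : ∀ a : F, a ^ (2 ^ m) = a := by
      intro a
      have h1 : t (a • (1 : E)) = a • t 1 := by rw [htl, lin_apply, lin_apply, map_smul]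
      change (a • (1 : E)) ^ (2 ^ m) = a • (1 : E) ^ (2 ^ m) at h1
      rw [smul_pow, one_pow, Algebra.smul_def, Algebra.smul_def, mul_one, mul_one] at h1
      exact (algebraMap F E).injective h1
    have hu : ∀ a : Fˣ, a ^ (2 ^ m - 1) = 1 := by
      intro a
      have h1 : 2 ^ m = (2 ^ m - 1) + 1 := by
        have : 1 ≤ 2 ^ m := Nat.one_le_two_pow
        omega
      have h2 : a ^ (2 ^ m) = a := Units.ext (by simpa using hfix a)
      rw [h1, pow_succ] at h2
      exact mul_eq_right.1 h2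
    classical
    have := Fintype.ofFinite Fˣ
    have h2m : 2 ≤ 2 ^ m := by
      calc 2 = 2 ^ 1 := rfl
        _ ≤ 2 ^ m := Nat.pow_le_pow_right (by norm_num) hm
    have h3 := IsCyclic.card_pow_eq_one_le (α := Fˣ) (n := 2 ^ m - 1) (by omega)
    rw [Finset.filter_true_of_mem (fun a _ => hu a), Finset.card_univ, ← Nat.card_eq_fintype_card,
      Nat.card_units, ← hq] at h3
    have h4 : (2 ^ m) ^ 1 < (2 ^ m) ^ 5 := Nat.pow_lt_pow_right (by omega) (by norm_num)
    rw [pow_one] at h4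
    omega

end W

theorem pow_four_mod (k : ℕ) : (4 : ℕ) ^ k % 5 = 4 ∨ (4 : ℕ) ^ k % 5 = 1 := by
  induction k with
  | zero => right; rfl
  | succ k ih =>
    rw [pow_succ]
    omega

/-- The main construction. -/
theorem exists_group (n : ℕ) : ∃ (G : Type) (_ : Group G), Finite G ∧ n ≤ Nat.card G ∧
    ¬ IsSimpleGroup G ∧ NoPath G := by
  have hfact : Fact (Nat.Prime 2) := ⟨Nat.prime_two⟩
  set m := 2 * n + 3 with hm
  have hne : 5 * m ≠ 0 := by omega
  let F := GaloisField 2 (5 * m)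
  have hcard : Nat.card F = 2 ^ (5 * m) := GaloisField.card 2 (5 * m) hne
  let E := FiniteField.Extension F 2 5
  have h32 : (2 : ℕ) ^ (5 * m) = 32 ^ m := by rw [pow_mul]; norm_num
  have hodd : m = 2 * (n + 1) + 1 := by omega
  have hst : Setup F E :=
    { rank5 := FiniteField.finrank_extension F 2 5
      two := by
        have : ((2 : ℕ) : F) = 0 := CharP.cast_eq_zero F 2
        exact_mod_cast this
      mod5 := by
        rw [hcard, h32, hodd, pow_add, pow_mul, Nat.mul_mod, Nat.pow_mod]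
        norm_num
        have h4 := pow_four_mod (n + 1)
        omega
      mod3 := by
        rw [hcard, h32, hodd, pow_add, pow_mul, Nat.mul_mod, Nat.pow_mod]
        norm_num }
  have hbig : 1000 ≤ Nat.card F := by
    rw [hcard, h32]
    calc 1000 ≤ 32 ^ 3 := by norm_num
      _ ≤ 32 ^ m := Nat.pow_le_pow_right (by norm_num) (by omega)
  have hq : (2 ^ m) ^ 5 = Nat.card F := by rw [hcard, ← pow_mul, mul_comm]
  refine ⟨PGh F E (2 ^ m) hq, inferInstance, inferInstance, ?_,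
    not_simple (by omega) hcard hq, noPath (by omega) hcard _ hq hbig⟩
  refine le_trans ?_ (card_PGh (2 ^ m) hq)
  rw [hcard, h32]
  have : m < 32 ^ m := Nat.lt_pow_self (by norm_num)
  omega

end Pool.Agent.Q21.SG
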